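import Mathlib

/-! Rademacher chaos of order two: exponential moments (module M1 of the SRHT blueprint). -/

open Finset

set_option linter.unusedSectionVars false
set_option linter.unnecessarySeqFocus false

namespace Srht

/-- The real sign of a Boolean. -/
def sg (b : Bool) : ℝ := if b then 1 else -1

lemma sg_true : sg true = 1 := by simp [sg]
lemma sg_false : sg false = -1 := by simp [sg]
lemma sg_mul_self (b : Bool) : sg b * sg b = 1 := by cases b <;> simp [sg]
lemma sg_sq (b : Bool) : sg b ^ 2 = 1 := by cases b <;> simp [sg]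
lemma sg_not (b : Bool) : sg (!b) = - sg b := by cases b <;> simp [sg]

/-- Uniform average over a finite type. -/
noncomputable def E {α : Type*} [Fintype α] (F : α → ℝ) : ℝ := (∑ a, F a) / Fintype.card α

section basic
variable {α β : Type*} [Fintype α] [Fintype β]

lemma E_mono {F G : α → ℝ} (h : ∀ a, F a ≤ G a) : E F ≤ E G := by
  unfold E
  exact div_le_div_of_nonneg_right (Finset.sum_le_sum fun a _ => h a) (Nat.cast_nonneg _)

lemma E_nonneg {F : α → ℝ} (h : ∀ a, 0 ≤ F a) : 0 ≤ E F := by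
  unfold E
  exact div_nonneg (Finset.sum_nonneg fun a _ => h a) (Nat.cast_nonneg _)

lemma E_add (F G : α → ℝ) : E (fun a => F a + G a) = E F + E G := by
  unfold E; rw [Finset.sum_add_distrib, add_div]

lemma E_sub (F G : α → ℝ) : E (fun a => F a - G a) = E F - E G := by
  unfold E; rw [Finset.sum_sub_distrib, sub_div]

lemma E_mul_left (c : ℝ) (F : α → ℝ) : E (fun a => c * F a) = c * E F := by
  unfold E; rw [← Finset.mul_sum, mul_div_assoc]

lemma E_mul_right (c : ℝ) (F : α → ℝ) : E (fun a => F a * c) = E F * c := by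
  unfold E; rw [← Finset.sum_mul]; ring

lemma E_sum {γ : Type*} (s : Finset γ) (F : γ → α → ℝ) :
    E (fun a => ∑ c ∈ s, F c a) = ∑ c ∈ s, E (F c) := by
  unfold E; rw [Finset.sum_comm, Finset.sum_div]

lemma E_const [Nonempty α] (c : ℝ) : E (fun _ : α => c) = c := by
  unfold E
  have : (Fintype.card α : ℝ) ≠ 0 := by exact_mod_cast Fintype.card_ne_zero
  rw [Finset.sum_const, Finset.card_univ, nsmul_eq_mul]
  field_simp

lemma E_comm (F : α → β → ℝ) : E (fun a => E (fun b => F a b)) = E (fun b => E (fun a => F a b)) := by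
  unfold E
  rw [← Finset.sum_div, ← Finset.sum_div, Finset.sum_comm, div_div, div_div, mul_comm]

lemma E_equiv (φ : α ≃ β) (F : β → ℝ) : E (fun a => F (φ a)) = E F := by
  unfold E
  rw [Equiv.sum_comp φ F, Fintype.card_congr φ]

lemma E_prod (F : α × β → ℝ) : E F = E (fun a => E (fun b => F (a, b))) := by
  unfold E
  rw [Fintype.sum_prod_type, Fintype.card_prod, ← Finset.sum_div, div_div]
  push_cast
  rw [mul_comm]

lemma exp_E_le [Nonempty α] (F : α → ℝ) : Real.exp (E F) ≤ E (fun a => Real.exp (F a)) := by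
  set m := E F with hm
  have h1 : ∀ a, Real.exp m * (1 - m) + Real.exp m * F a ≤ Real.exp (F a) := by
    intro a
    have h2 := Real.add_one_le_exp (F a - m)
    have h3 : Real.exp (F a) = Real.exp m * Real.exp (F a - m) := by
      rw [← Real.exp_add]; ring_nf
    rw [h3]
    have h4 := Real.exp_pos m
    nlinarith
  have h5 := E_mono h1
  rw [E_add, E_const, E_mul_left, ← hm] at h5
  have : Real.exp m * (1 - m) + Real.exp m * m = Real.exp m := by ring
  linarith

/-- Markov's inequality for uniform averages. -/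
lemma E_markov (F : α → ℝ) (hF : ∀ a, 0 ≤ F a) (t : ℝ) (ht : 0 < t) :
    E (fun a => if t ≤ F a then (1:ℝ) else 0) ≤ E F / t := by
  have : E F / t = E (fun a => t⁻¹ * F a) := by rw [E_mul_left]; field_simp
  rw [this]
  apply E_mono
  intro a
  split_ifs with h
  · rw [inv_mul_eq_div, le_div_iff₀ ht]; linarith
  · exact mul_nonneg (inv_nonneg.mpr ht.le) (hF a)

end basic

section signs
variable {ι : Type*} [Fintype ι] [DecidableEq ι]

instance : Nonempty (ι → Bool) := ⟨fun _ => true⟩

lemma E_exp_linear (a : ι → ℝ) :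
    E (fun e : ι → Bool => Real.exp (∑ i, a i * sg (e i))) = ∏ i, Real.cosh (a i) := by
  unfold E
  have h1 : ∀ e : ι → Bool, Real.exp (∑ i, a i * sg (e i)) = ∏ i, Real.exp (a i * sg (e i)) :=
    fun e => Real.exp_sum _ _
  have h2 : ∑ e : ι → Bool, ∏ i, Real.exp (a i * sg (e i))
      = ∏ i, ∑ b : Bool, Real.exp (a i * sg b) := by
    rw [Finset.prod_univ_sum, Fintype.piFinset_univ]
  have h3 : ∀ i, ∑ b : Bool, Real.exp (a i * sg b) = 2 * Real.cosh (a i) := by
    intro i
    rw [Fintype.sum_bool, sg_true, sg_false, Real.cosh_eq]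
    ring_nf
  simp only [h1]
  rw [h2]
  simp only [h3]
  rw [Finset.prod_mul_distrib]
  simp [Finset.prod_const, Finset.card_univ]

lemma cosh_le_exp_sq (x : ℝ) : Real.cosh x ≤ Real.exp (x ^ 2 / 2) := Real.cosh_le_exp_half_sq x

lemma E_exp_linear_le (a : ι → ℝ) :
    E (fun e : ι → Bool => Real.exp (∑ i, a i * sg (e i))) ≤ Real.exp ((∑ i, a i ^ 2) / 2) := by
  rw [E_exp_linear, Finset.sum_div, Real.exp_sum]
  exact Finset.prod_le_prod (fun i _ => (Real.cosh_pos _).le) fun i _ => cosh_le_exp_sq _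

/-- The flip of one coordinate. -/
def flip (i : ι) : (ι → Bool) ≃ (ι → Bool) where
  toFun e := Function.update e i (!e i)
  invFun e := Function.update e i (!e i)
  left_inv e := by
    ext j; by_cases h : j = i
    · subst h; simp
    · simp [Function.update_of_ne h]
  right_inv e := by
    ext j; by_cases h : j = i
    · subst h; simp
    · simp [Function.update_of_ne h]

lemma E_sg (i : ι) : E (fun e : ι → Bool => sg (e i)) = 0 := by
  have h := E_equiv (flip i) (fun e : ι → Bool => sg (e i))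
  have h2 : ∀ e : ι → Bool, sg ((flip i e) i) = - sg (e i) := by
    intro e; simp [flip, sg_not]
  simp only [h2] at h
  have h3 : E (fun e : ι → Bool => - sg (e i)) = - E (fun e : ι → Bool => sg (e i)) := by
    have := E_mul_left (-1) (fun e : ι → Bool => sg (e i))
    simpa using this
  rw [h3] at h
  linarith

lemma E_sg_sg {i j : ι} (hij : i ≠ j) : E (fun e : ι → Bool => sg (e i) * sg (e j)) = 0 := by
  have h := E_equiv (flip i) (fun e : ι → Bool => sg (e i) * sg (e j))
  have h2 : ∀ e : ι → Bool, sg ((flip i e) i) * sg ((flip i e) j) = - (sg (e i) * sg (e j)) := by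
    intro e; simp [flip, sg_not, Function.update_of_ne (Ne.symm hij)]
  simp only [h2] at h
  have h3 : E (fun e : ι → Bool => - (sg (e i) * sg (e j)))
      = - E (fun e : ι → Bool => sg (e i) * sg (e j)) := by
    have := E_mul_left (-1) (fun e : ι → Bool => sg (e i) * sg (e j))
    simpa using this
  rw [h3] at h
  linarith

/-- indicator of `I i` and not `I j`. -/
def cut (I : ι → Bool) (i j : ι) : ℝ := if I i = true ∧ I j = false then 1 else 0

lemma cut_eq (I : ι → Bool) (i j : ι) :
    cut I i j = (1 + sg (I i) - sg (I j) - sg (I i) * sg (I j)) / 4 := by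
  unfold cut
  cases h1 : I i <;> cases h2 : I j <;> simp [sg] <;> norm_num

lemma E_cut {i j : ι} (hij : i ≠ j) : E (fun I : ι → Bool => cut I i j) = 1 / 4 := by
  have h : (fun I : ι → Bool => cut I i j)
      = fun I => (1/4) * (((1 + sg (I i)) - sg (I j)) - sg (I i) * sg (I j)) := by
    funext I; rw [cut_eq]; ring
  rw [h, E_mul_left, E_sub, E_sub, E_add, E_const, E_sg, E_sg, E_sg_sg hij]
  ring

/-- mix two sign vectors. -/
def mix (I e e' : ι → Bool) : ι → Bool := fun i => if I i then e i else e' i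

lemma E_mix (I : ι → Bool) (F : (ι → Bool) → ℝ) :
    E F = E (fun e' : ι → Bool => E (fun e => F (mix I e e'))) := by
  let φ : ((ι → Bool) × (ι → Bool)) ≃ ((ι → Bool) × (ι → Bool)) :=
    { toFun := fun p => (mix I p.2 p.1, mix I p.1 p.2)
      invFun := fun p => (mix I p.2 p.1, mix I p.1 p.2)
      left_inv := by
        rintro ⟨a, b⟩
        ext i <;> simp [mix] <;> cases I i <;> simp
      right_inv := by
        rintro ⟨a, b⟩
        ext i <;> simp [mix] <;> cases I i <;> simp }
  have h1 : E (fun p : (ι → Bool) × (ι → Bool) => F (mix I p.2 p.1)) =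
      E (fun p : (ι → Bool) × (ι → Bool) => F p.1) := by
    have := E_equiv φ (fun p => F p.1)
    simpa [φ] using this
  have h2 : E (fun p : (ι → Bool) × (ι → Bool) => F (mix I p.2 p.1)) =
      E (fun e' : ι → Bool => E (fun e => F (mix I e e'))) := by
    rw [E_prod]
  have h3 : E (fun p : (ι → Bool) × (ι → Bool) => F p.1) = E F := by
    rw [E_prod]; simp only [E_const]
  rw [← h2, h1, h3]

/-- Decoupling plus Gaussian-type bound for a Rademacher chaos. -/
lemma decouple (B : ι → ι → ℝ) (hB : ∀ i, B i i = 0) (t : ℝ) :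
    E (fun e : ι → Bool => Real.exp (t * ∑ i, ∑ j, B i j * sg (e i) * sg (e j))) ≤
      E (fun I : ι → Bool => E (fun e : ι → Bool =>
        Real.exp (8 * t ^ 2 * ∑ i, (∑ j, cut I i j * B i j * sg (e j)) ^ 2))) := by
  -- pointwise Jensen
  have h1 : ∀ e : ι → Bool, Real.exp (t * ∑ i, ∑ j, B i j * sg (e i) * sg (e j)) ≤
      E (fun I : ι → Bool => Real.exp (4 * t * ∑ i, ∑ j, cut I i j * B i j * sg (e i) * sg (e j))) := by
    intro e
    have h2 : t * ∑ i, ∑ j, B i j * sg (e i) * sg (e j) =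
        E (fun I : ι → Bool => 4 * t * ∑ i, ∑ j, cut I i j * B i j * sg (e i) * sg (e j)) := by
      rw [E_mul_left, E_sum]
      have h3 : ∀ i : ι, E (fun I : ι → Bool => ∑ j, cut I i j * B i j * sg (e i) * sg (e j))
          = ∑ j, (1/4) * (B i j * sg (e i) * sg (e j)) := by
        intro i
        rw [E_sum]
        apply Finset.sum_congr rfl
        intro j _
        have h4 : (fun I : ι → Bool => cut I i j * B i j * sg (e i) * sg (e j))
            = fun I => cut I i j * (B i j * sg (e i) * sg (e j)) := by funext I; ring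
        rw [h4, E_mul_right]
        by_cases hij : i = j
        · subst hij; simp [hB]
        · rw [E_cut hij]
      simp only [h3, ← Finset.mul_sum]
      ring
    rw [h2]
    exact exp_E_le _
  refine le_trans (E_mono h1) ?_
  rw [E_comm]
  apply E_mono
  intro I
  rw [E_mix I]
  apply E_mono
  intro e'
  have h5 : ∀ e : ι → Bool, 4 * t * ∑ i, ∑ j, cut I i j * B i j * sg (mix I e e' i) * sg (mix I e e' j)
      = ∑ i, (4 * t * ∑ j, cut I i j * B i j * sg (e' j)) * sg (e i) := by
    intro e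
    rw [Finset.mul_sum]
    apply Finset.sum_congr rfl
    intro i _
    rw [Finset.mul_sum, Finset.mul_sum, Finset.sum_mul]
    apply Finset.sum_congr rfl
    intro j _
    unfold cut
    split_ifs with h
    · simp [mix, h.1, h.2]; ring
    · simp
  simp only [h5]
  refine le_trans (E_exp_linear_le _) ?_
  apply le_of_eq
  congr 1
  rw [Finset.mul_sum, Finset.sum_div]
  apply Finset.sum_congr rfl
  intro i _
  ring

/-- transfer of an operator bound to the transpose. -/
lemma adj_bound {κ : Type*} [Fintype κ] (R : κ → ι → ℝ) (a : ℝ) (ha0 : 0 ≤ a)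
    (ha : ∀ z : ι → ℝ, ∑ k, (∑ j, R k j * z j) ^ 2 ≤ a * ∑ j, z j ^ 2) (w : κ → ℝ) :
    ∑ j, (∑ k, R k j * w k) ^ 2 ≤ a * ∑ k, w k ^ 2 := by
  set y : ι → ℝ := fun j => ∑ k, R k j * w k with hy
  have h1 : ∑ j, y j ^ 2 = ∑ k, w k * ∑ j, R k j * y j := by
    have : ∀ j, y j ^ 2 = ∑ k, w k * (R k j * y j) := by
      intro j
      rw [sq]
      nth_rewrite 1 [hy]
      simp only
      rw [Finset.sum_mul]
      apply Finset.sum_congr rfl
      intro k _; ring
    simp only [this]
    rw [Finset.sum_comm]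
    simp only [Finset.mul_sum]
  have h2 : (∑ j, y j ^ 2) ^ 2 ≤ (∑ k, w k ^ 2) * (a * ∑ j, y j ^ 2) := by
    calc (∑ j, y j ^ 2) ^ 2 = (∑ k, w k * ∑ j, R k j * y j) ^ 2 := by rw [h1]
      _ ≤ (∑ k, w k ^ 2) * ∑ k, (∑ j, R k j * y j) ^ 2 := Finset.sum_mul_sq_le_sq_mul_sq _ _ _
      _ ≤ (∑ k, w k ^ 2) * (a * ∑ j, y j ^ 2) :=
          mul_le_mul_of_nonneg_left (ha y) (Finset.sum_nonneg fun _ _ => sq_nonneg _)
  have h3 : 0 ≤ ∑ j, y j ^ 2 := Finset.sum_nonneg fun _ _ => sq_nonneg _
  have h4 : 0 ≤ ∑ k, w k ^ 2 := Finset.sum_nonneg fun _ _ => sq_nonneg _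
  change ∑ j, y j ^ 2 ≤ a * ∑ k, w k ^ 2
  rcases h3.eq_or_lt with h5 | h5
  · rw [← h5]; positivity
  · by_contra hcon
    push Not at hcon
    have : (∑ k, w k ^ 2) * (a * ∑ j, y j ^ 2) < (∑ j, y j ^ 2) ^ 2 := by
      have : (∑ k, w k ^ 2) * (a * ∑ j, y j ^ 2) = (a * ∑ k, w k ^ 2) * ∑ j, y j ^ 2 := by ring
      rw [this, sq]
      exact mul_lt_mul_of_pos_right hcon h5
    linarith

/-- cutting a matrix to `I × Iᶜ` does not increase the operator bound. -/
lemma cut_bound (G : ι → ι → ℝ) (b : ℝ) (hb0 : 0 ≤ b)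
    (hb : ∀ z : ι → ℝ, ∑ i, (∑ j, G i j * z j) ^ 2 ≤ b * ∑ j, z j ^ 2) (I : ι → Bool)
    (z : ι → ℝ) : ∑ i, (∑ j, (cut I i j * G i j) * z j) ^ 2 ≤ b * ∑ j, z j ^ 2 := by
  set z' : ι → ℝ := fun j => if I j = false then z j else 0 with hz'
  have h1 : ∀ i, (∑ j, (cut I i j * G i j) * z j) ^ 2 ≤ (∑ j, G i j * z' j) ^ 2 := by
    intro i
    by_cases hi : I i = true
    · apply le_of_eq
      congr 1
      apply Finset.sum_congr rfl
      intro j _
      simp only [cut, hz', hi, true_and]
      split_ifs <;> ring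
    · have : ∑ j, (cut I i j * G i j) * z j = 0 := by
        apply Finset.sum_eq_zero
        intro j _
        simp [cut, hi]
      rw [this]
      have := sq_nonneg (∑ j, G i j * z' j)
      simpa using this
  refine le_trans (Finset.sum_le_sum fun i _ => h1 i) (le_trans (hb z') ?_)
  apply mul_le_mul_of_nonneg_left _ hb0
  apply Finset.sum_le_sum
  intro j _
  simp only [hz']
  split_ifs
  · exact le_rfl
  · have := sq_nonneg (z j); simpa using this

lemma cut_frob (G : ι → ι → ℝ) (I : ι → Bool) :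
    ∑ i, ∑ j, (cut I i j * G i j) ^ 2 ≤ ∑ i, ∑ j, (G i j) ^ 2 := by
  apply Finset.sum_le_sum
  intro i _
  apply Finset.sum_le_sum
  intro j _
  unfold cut
  split_ifs
  · simp
  · have := sq_nonneg (G i j); simpa using this

lemma sq_norm_expand {κ : Type*} [Fintype κ] (R : κ → ι → ℝ) (z : ι → ℝ) :
    ∑ k, (∑ j, R k j * z j) ^ 2 = ∑ i, ∑ j, (∑ k, R k i * R k j) * z i * z j := by
  have h : ∀ k, (∑ j, R k j * z j) ^ 2 = ∑ i, ∑ j, R k i * R k j * z i * z j := by
    intro k
    rw [sq, Finset.sum_mul]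
    apply Finset.sum_congr rfl
    intro i _
    rw [Finset.mul_sum]
    apply Finset.sum_congr rfl
    intro j _
    ring
  simp only [h]
  rw [Finset.sum_comm]
  apply Finset.sum_congr rfl
  intro i _
  rw [Finset.sum_comm]
  apply Finset.sum_congr rfl
  intro j _
  rw [Finset.sum_mul, Finset.sum_mul]

lemma psd_step {κ : Type*} [Fintype κ] (R : κ → ι → ℝ) (s : ℝ) :
    E (fun e : ι → Bool => Real.exp (s * ∑ k, (∑ j, R k j * sg (e j)) ^ 2)) ≤
      Real.exp (s * ∑ k, ∑ j, R k j ^ 2) *
      E (fun I : ι → Bool => E (fun e : ι → Bool =>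
        Real.exp (8 * s ^ 2 * ∑ i, (∑ j, (cut I i j * ∑ k, R k i * R k j) * sg (e j)) ^ 2))) := by
  set G : ι → ι → ℝ := fun i j => ∑ k, R k i * R k j with hG
  set B : ι → ι → ℝ := fun i j => if i = j then 0 else G i j with hB
  have h1 : ∀ e : ι → Bool, ∑ k, (∑ j, R k j * sg (e j)) ^ 2 =
      ∑ k, ∑ j, R k j ^ 2 + ∑ i, ∑ j, B i j * sg (e i) * sg (e j) := by
    intro e
    rw [sq_norm_expand]
    have h2 : ∑ k, ∑ j, R k j ^ 2 = ∑ i, G i i := by
      rw [Finset.sum_comm]
      apply Finset.sum_congr rfl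
      intro i _
      simp only [hG]
      apply Finset.sum_congr rfl
      intro k _; ring
    rw [h2, ← Finset.sum_add_distrib]
    apply Finset.sum_congr rfl
    intro i _
    have h3 : G i i = ∑ j, if i = j then G i j * sg (e i) * sg (e j) else 0 := by
      rw [Finset.sum_ite_eq]
      simp [mul_assoc, sg_mul_self]
    rw [h3, ← Finset.sum_add_distrib]
    apply Finset.sum_congr rfl
    intro j _
    simp only [hB]
    split_ifs <;> ring
  have h4 : ∀ e : ι → Bool, Real.exp (s * ∑ k, (∑ j, R k j * sg (e j)) ^ 2) =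
      Real.exp (s * ∑ k, ∑ j, R k j ^ 2) *
        Real.exp (s * ∑ i, ∑ j, B i j * sg (e i) * sg (e j)) := by
    intro e
    rw [h1, ← Real.exp_add, mul_add]
  simp only [h4]
  rw [E_mul_left]
  apply mul_le_mul_of_nonneg_left _ (Real.exp_pos _).le
  refine le_trans (decouple B (fun i => by simp [hB]) s) ?_
  apply le_of_eq
  congr 1
  funext I
  congr 1
  funext e
  congr 2
  apply Finset.sum_congr rfl
  intro i _
  congr 1
  apply Finset.sum_congr rfl
  intro j _
  simp only [hB]
  by_cases hij : i = j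
  · subst hij
    have : cut I i i = 0 := by
      unfold cut
      cases I i <;> simp
    rw [this]; ring
  · rw [if_neg hij]

end signs

section signs0
variable {ι : Type} [Fintype ι] [DecidableEq ι]

lemma psd_mgf_aux (N : ℕ) : ∀ {κ : Type} [Fintype κ] (R : κ → ι → ℝ) (a s : ℝ), 0 ≤ a → 0 ≤ s →
    (∀ z : ι → ℝ, ∑ k, (∑ j, R k j * z j) ^ 2 ≤ a * ∑ j, z j ^ 2) → 16 * s * a ≤ 1 →
    E (fun e : ι → Bool => Real.exp (s * ∑ k, (∑ j, R k j * sg (e j)) ^ 2)) ≤
      Real.exp (2 * s * ∑ k, ∑ j, R k j ^ 2 + s * a * Fintype.card ι / 2 ^ N) := by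
  induction N with
  | zero =>
    intro κ _ R a s ha hs hR hsa
    have h1 : ∀ e : ι → Bool, Real.exp (s * ∑ k, (∑ j, R k j * sg (e j)) ^ 2) ≤
        Real.exp (2 * s * ∑ k, ∑ j, R k j ^ 2 + s * a * Fintype.card ι / 2 ^ 0) := by
      intro e
      apply Real.exp_le_exp.mpr
      have h2 := hR (fun j => sg (e j))
      simp only [sg_sq, Finset.sum_const, Finset.card_univ, nsmul_eq_mul, mul_one] at h2
      have h3 := mul_le_mul_of_nonneg_left h2 hs
      have h4 : 0 ≤ 2 * s * ∑ k, ∑ j, R k j ^ 2 := by positivity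
      simp only [pow_zero, div_one]
      nlinarith
    refine le_trans (E_mono h1) ?_
    rw [E_const]
  | succ N ih =>
    intro κ _ R a s ha hs hR hsa
    refine le_trans (psd_step R s) ?_
    set T := ∑ k, ∑ j, R k j ^ 2 with hT
    have hT0 : 0 ≤ T := by positivity
    set G : ι → ι → ℝ := fun i j => ∑ k, R k i * R k j with hG
    have hGz : ∀ z : ι → ℝ, ∀ i, ∑ j, G i j * z j = ∑ k, R k i * (∑ j, R k j * z j) := by
      intro z i
      simp only [hG, Finset.sum_mul, Finset.mul_sum]
      rw [Finset.sum_comm]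
      apply Finset.sum_congr rfl
      intro k _
      apply Finset.sum_congr rfl
      intro j _
      ring
    have hGb : ∀ z : ι → ℝ, ∑ i, (∑ j, G i j * z j) ^ 2 ≤ a * ∑ k, (∑ j, R k j * z j) ^ 2 := by
      intro z
      have := adj_bound R a ha hR (fun k => ∑ j, R k j * z j)
      simp only [hGz]
      exact this
    have hGb2 : ∀ z : ι → ℝ, ∑ i, (∑ j, G i j * z j) ^ 2 ≤ a ^ 2 * ∑ j, z j ^ 2 := by
      intro z
      refine le_trans (hGb z) ?_
      rw [sq, mul_assoc]
      exact mul_le_mul_of_nonneg_left (hR z) ha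
    have hGF : ∑ i, ∑ j, G i j ^ 2 ≤ a * T := by
      rw [Finset.sum_comm]
      have h1 : ∀ j, ∑ i, G i j ^ 2 ≤ a * ∑ k, R k j ^ 2 := by
        intro j
        have := hGb (fun l => if l = j then 1 else 0)
        simpa using this
      refine le_trans (Finset.sum_le_sum fun j _ => h1 j) ?_
      rw [← Finset.mul_sum, hT, Finset.sum_comm]
    have key : ∀ I : ι → Bool, E (fun e : ι → Bool =>
        Real.exp (8 * s ^ 2 * ∑ i, (∑ j, (cut I i j * G i j) * sg (e j)) ^ 2)) ≤
        Real.exp (s * T + s * a * Fintype.card ι / 2 ^ (N + 1)) := by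
      intro I
      have h1 := ih (fun i j => cut I i j * G i j) (a ^ 2) (8 * s ^ 2) (by positivity) (by positivity)
        (fun z => cut_bound G (a ^ 2) (by positivity) hGb2 I z) (by
          have : 16 * (8 * s ^ 2) * a ^ 2 = (16 * s * a) ^ 2 / 2 := by ring
          rw [this]
          have h0 : 0 ≤ 16 * s * a := by positivity
          nlinarith)
      refine le_trans h1 (Real.exp_le_exp.mpr ?_)
      have h2 := le_trans (cut_frob G I) hGF
      have h3 : 2 * (8 * s ^ 2) * ∑ i, ∑ j, (cut I i j * G i j) ^ 2 ≤ s * T := by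
        calc 2 * (8 * s ^ 2) * ∑ i, ∑ j, (cut I i j * G i j) ^ 2 ≤ 2 * (8 * s ^ 2) * (a * T) :=
              mul_le_mul_of_nonneg_left h2 (by positivity)
          _ = (16 * s * a) * (s * T) := by ring
          _ ≤ 1 * (s * T) := mul_le_mul_of_nonneg_right hsa (by positivity)
          _ = s * T := one_mul _
      have h4 : 8 * s ^ 2 * a ^ 2 * Fintype.card ι / 2 ^ N ≤ s * a * Fintype.card ι / 2 ^ (N + 1) := by
        rw [pow_succ 2 N, div_le_div_iff₀ (by positivity) (by positivity)]
        have h5 : 8 * s ^ 2 * a ^ 2 * Fintype.card ι * (2 ^ N * 2)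
            = (16 * s * a) * (s * a * Fintype.card ι * 2 ^ N) := by ring
        rw [h5]
        have h6 : 0 ≤ s * a * Fintype.card ι * 2 ^ N := by positivity
        nlinarith
      linarith
    have h7 := E_mono key
    rw [E_const] at h7
    calc Real.exp (s * T) * E (fun I : ι → Bool => E (fun e : ι → Bool =>
        Real.exp (8 * s ^ 2 * ∑ i, (∑ j, (cut I i j * ∑ k, R k i * R k j) * sg (e j)) ^ 2)))
        ≤ Real.exp (s * T) * Real.exp (s * T + s * a * Fintype.card ι / 2 ^ (N + 1)) :=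
          mul_le_mul_of_nonneg_left h7 (Real.exp_pos _).le
      _ = Real.exp (2 * s * T + s * a * Fintype.card ι / 2 ^ (N + 1)) := by
          rw [← Real.exp_add]; ring_nf

/-- Exponential moments of the square norm of a Rademacher vector sum. -/
theorem psd_mgf {κ : Type} [Fintype κ] (R : κ → ι → ℝ) (a s : ℝ) (ha : 0 ≤ a) (hs : 0 ≤ s)
    (hR : ∀ z : ι → ℝ, ∑ k, (∑ j, R k j * z j) ^ 2 ≤ a * ∑ j, z j ^ 2) (hsa : 16 * s * a ≤ 1) :
    E (fun e : ι → Bool => Real.exp (s * ∑ k, (∑ j, R k j * sg (e j)) ^ 2)) ≤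
      Real.exp (2 * s * ∑ k, ∑ j, R k j ^ 2) := by
  have h1 : Filter.Tendsto (fun N : ℕ =>
      Real.exp (2 * s * ∑ k, ∑ j, R k j ^ 2 + s * a * Fintype.card ι / 2 ^ N)) Filter.atTop
      (nhds (Real.exp (2 * s * ∑ k, ∑ j, R k j ^ 2 + 0))) := by
    apply (Real.continuous_exp.tendsto _).comp
    apply Filter.Tendsto.add tendsto_const_nhds
    exact Filter.Tendsto.const_div_atTop (tendsto_pow_atTop_atTop_of_one_lt (by norm_num)) _
  rw [add_zero] at h1
  exact ge_of_tendsto' h1 fun N => psd_mgf_aux N R a s ha hs hR hsa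

/-- Exponential moments of a Rademacher chaos of order two. -/
theorem chaos_mgf (B : ι → ι → ℝ) (hB : ∀ i, B i i = 0) (b t : ℝ) (hb0 : 0 ≤ b)
    (hb : ∀ z : ι → ℝ, ∑ i, (∑ j, B i j * z j) ^ 2 ≤ b * ∑ j, z j ^ 2)
    (ht : 128 * t ^ 2 * b ≤ 1) :
    E (fun e : ι → Bool => Real.exp (t * ∑ i, ∑ j, B i j * sg (e i) * sg (e j))) ≤
      Real.exp (16 * t ^ 2 * ∑ i, ∑ j, B i j ^ 2) := by
  refine le_trans (decouple B hB t) ?_
  have key : ∀ I : ι → Bool, E (fun e : ι → Bool =>
        Real.exp (8 * t ^ 2 * ∑ i, (∑ j, cut I i j * B i j * sg (e j)) ^ 2)) ≤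
        Real.exp (16 * t ^ 2 * ∑ i, ∑ j, B i j ^ 2) := by
    intro I
    refine le_trans (psd_mgf (fun i j => cut I i j * B i j) b (8 * t ^ 2) hb0 (by positivity)
      (fun z => cut_bound B b hb0 hb I z) (by linarith)) (Real.exp_le_exp.mpr ?_)
    have := cut_frob B I
    nlinarith [sq_nonneg t]
  have h7 := E_mono key
  rwa [E_const] at h7

end signs0

end Srht
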