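import Mathlib
import Pool.Agent.Lib.Helper57.Srht.Signs

/-! Spectral trace formulas for real symmetric matrices, and the noncommutative Khintchine
inequality for Rademacher sums. -/

open Finset Matrix

set_option linter.unusedSectionVars false
set_option linter.unnecessarySeqFocus false

namespace Srht

variable {κ : Type} [Fintype κ] [DecidableEq κ]

lemma spec (Y : Matrix κ κ ℝ) (hY : Yᵀ = Y) : ∃ (P : Matrix κ κ ℝ) (y : κ → ℝ),
    P * Pᵀ = 1 ∧ Pᵀ * P = 1 ∧ Y = P * diagonal y * Pᵀ := by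
  have hH : Y.IsHermitian := by
    rw [Matrix.IsHermitian, Matrix.conjTranspose_eq_transpose_of_trivial]
    exact hY
  refine ⟨(hH.eigenvectorUnitary : Matrix κ κ ℝ), hH.eigenvalues, ?_, ?_, ?_⟩
  · have := Unitary.mul_star_self_of_mem hH.eigenvectorUnitary.2
    rwa [Matrix.star_eq_conjTranspose, Matrix.conjTranspose_eq_transpose_of_trivial] at this
  · have := Unitary.star_mul_self_of_mem hH.eigenvectorUnitary.2
    rwa [Matrix.star_eq_conjTranspose, Matrix.conjTranspose_eq_transpose_of_trivial] at this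
  · have h := hH.spectral_theorem
    rw [Unitary.conjStarAlgAut_apply] at h
    rw [Matrix.star_eq_conjTranspose, Matrix.conjTranspose_eq_transpose_of_trivial] at h
    exact h

lemma spec_pow (P : Matrix κ κ ℝ) (y : κ → ℝ) (h1 : P * Pᵀ = 1) (h2 : Pᵀ * P = 1) (j : ℕ) :
    (P * diagonal y * Pᵀ) ^ j = P * diagonal (fun a => y a ^ j) * Pᵀ := by
  induction j with
  | zero => simp [h1]
  | succ j ih =>
    rw [pow_succ, ih]
    calc P * diagonal (fun a => y a ^ j) * Pᵀ * (P * diagonal y * Pᵀ)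
        = P * diagonal (fun a => y a ^ j) * (Pᵀ * P) * diagonal y * Pᵀ := by
          simp only [Matrix.mul_assoc]
      _ = P * (diagonal (fun a => y a ^ j) * diagonal y) * Pᵀ := by
          rw [h2]; simp only [Matrix.mul_assoc, Matrix.one_mul]
      _ = P * diagonal (fun a => y a ^ (j + 1)) * Pᵀ := by
          rw [Matrix.diagonal_mul_diagonal]
          simp only [pow_succ]

lemma trace_two {κ' : Type} [Fintype κ'] [DecidableEq κ'] (B : Matrix κ κ' ℝ) (d : κ → ℝ) (d' : κ' → ℝ) :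
    trace (Bᵀ * diagonal d * B * diagonal d') = ∑ a, ∑ b, B a b ^ 2 * d a * d' b := by
  rw [Finset.sum_comm]
  unfold Matrix.trace
  apply Finset.sum_congr rfl
  intro b _
  rw [Matrix.diag_apply, Matrix.mul_diagonal, Matrix.mul_apply, Finset.sum_mul]
  apply Finset.sum_congr rfl
  intro a _
  rw [Matrix.mul_diagonal, Matrix.transpose_apply]
  ring

/-- trace formula in two eigenbases. -/
lemma trace_two_bases (A P R : Matrix κ κ ℝ) (hA : Aᵀ = A) (y z : κ → ℝ)
    (hP1 : P * Pᵀ = 1) (hP2 : Pᵀ * P = 1) (hR1 : R * Rᵀ = 1) (hR2 : Rᵀ * R = 1) (j l : ℕ) :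
    trace (A * (P * diagonal y * Pᵀ) ^ j * A * (R * diagonal z * Rᵀ) ^ l) =
      ∑ a, ∑ b, (Pᵀ * A * R) a b ^ 2 * y a ^ j * z b ^ l := by
  rw [spec_pow P y hP1 hP2, spec_pow R z hR1 hR2, ← trace_two]
  have h1 : A * (P * diagonal (fun a => y a ^ j) * Pᵀ) * A * (R * diagonal (fun a => z a ^ l) * Rᵀ)
      = (A * P * diagonal (fun a => y a ^ j) * (Pᵀ * A * R) * diagonal (fun a => z a ^ l)) * Rᵀ := by
    simp only [Matrix.mul_assoc]
  rw [h1, Matrix.trace_mul_comm]
  congr 1
  rw [Matrix.transpose_mul, Matrix.transpose_mul, Matrix.transpose_transpose, hA]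
  simp only [Matrix.mul_assoc]

/-- Square Frobenius norm. -/
def frob {κ κ' : Type} [Fintype κ] [Fintype κ'] (M : Matrix κ κ' ℝ) : ℝ := ∑ a, ∑ b, M a b ^ 2

lemma frob_nonneg {κ κ' : Type} [Fintype κ] [Fintype κ'] (M : Matrix κ κ' ℝ) : 0 ≤ frob M :=
  Finset.sum_nonneg fun _ _ => Finset.sum_nonneg fun _ _ => sq_nonneg _

lemma frob_eq_trace {κ κ' : Type} [Fintype κ] [Fintype κ'] (M : Matrix κ κ' ℝ) :
    frob M = trace (Mᵀ * M) := by
  unfold frob Matrix.trace
  rw [Finset.sum_comm]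
  apply Finset.sum_congr rfl
  intro b _
  rw [Matrix.diag_apply, Matrix.mul_apply]
  apply Finset.sum_congr rfl
  intro a _
  rw [Matrix.transpose_apply]; ring

lemma frob_transpose {κ κ' : Type} [Fintype κ] [Fintype κ'] (M : Matrix κ κ' ℝ) :
    frob Mᵀ = frob M := by
  unfold frob
  rw [Finset.sum_comm]
  rfl

lemma pow_symm (X : Matrix κ κ ℝ) (hX : Xᵀ = X) (j : ℕ) : (X ^ j)ᵀ = X ^ j := by
  rw [Matrix.transpose_pow, hX]

lemma trace_even_nonneg (X : Matrix κ κ ℝ) (hX : Xᵀ = X) (q : ℕ) : 0 ≤ trace (X ^ (2 * q)) := by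
  have : X ^ (2 * q) = (X ^ q)ᵀ * X ^ q := by
    rw [pow_symm X hX, ← pow_add]; congr 1; ring
  rw [this, ← frob_eq_trace]
  exact frob_nonneg _

/-- symmetrised Heinz inequality. -/
lemma heinz (A Y Z : Matrix κ κ ℝ) (hA : Aᵀ = A) (hY : Yᵀ = Y) (hZ : Zᵀ = Z) (q j : ℕ)
    (hj : j ≤ 2 * q) :
    trace (A * Y ^ j * A * Z ^ (2 * q - j)) + trace (A * Y ^ (2 * q - j) * A * Z ^ j) ≤
      trace (A * Y ^ (2 * q) * A) + trace (A * Z ^ (2 * q) * A) := by
  obtain ⟨P, y, hP1, hP2, hPY⟩ := spec Y hY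
  obtain ⟨R, z, hR1, hR2, hRZ⟩ := spec Z hZ
  have e1 : trace (A * Y ^ (2 * q) * A) = ∑ a, ∑ b, (Pᵀ * A * R) a b ^ 2 * y a ^ (2 * q) * z b ^ 0 := by
    rw [← trace_two_bases A P R hA y z hP1 hP2 hR1 hR2, ← hPY, pow_zero, Matrix.mul_one]
  have e2 : trace (A * Z ^ (2 * q) * A) = ∑ a, ∑ b, (Pᵀ * A * R) a b ^ 2 * y a ^ 0 * z b ^ (2 * q) := by
    rw [← trace_two_bases A P R hA y z hP1 hP2 hR1 hR2, ← hRZ, pow_zero, Matrix.mul_one,
      Matrix.trace_mul_comm, ← Matrix.mul_assoc, Matrix.trace_mul_comm, ← Matrix.mul_assoc]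
  rw [e1, e2, hPY, hRZ, trace_two_bases A P R hA y z hP1 hP2 hR1 hR2,
    trace_two_bases A P R hA y z hP1 hP2 hR1 hR2, ← Finset.sum_add_distrib, ← Finset.sum_add_distrib]
  apply Finset.sum_le_sum
  intro a _
  rw [← Finset.sum_add_distrib, ← Finset.sum_add_distrib]
  apply Finset.sum_le_sum
  intro b _
  have key : y a ^ j * z b ^ (2 * q - j) + y a ^ (2 * q - j) * z b ^ j ≤
      y a ^ (2 * q) + z b ^ (2 * q) := by
    set u := |y a| with hu
    set v := |z b| with hv
    have h1 : y a ^ j * z b ^ (2 * q - j) ≤ u ^ j * v ^ (2 * q - j) := by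
      rw [hu, hv, ← abs_pow, ← abs_pow, ← abs_mul]; exact le_abs_self _
    have h2 : y a ^ (2 * q - j) * z b ^ j ≤ u ^ (2 * q - j) * v ^ j := by
      rw [hu, hv, ← abs_pow, ← abs_pow, ← abs_mul]; exact le_abs_self _
    have h3 : y a ^ (2 * q) = u ^ j * u ^ (2 * q - j) := by
      rw [← pow_add, hu, show j + (2 * q - j) = 2 * q by omega, Even.pow_abs (even_two_mul q)]
    have h4 : z b ^ (2 * q) = v ^ j * v ^ (2 * q - j) := by
      rw [← pow_add, hv, show j + (2 * q - j) = 2 * q by omega, Even.pow_abs (even_two_mul q)]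
    rw [h3, h4]
    have hu0 : 0 ≤ u := abs_nonneg _
    have hv0 : 0 ≤ v := abs_nonneg _
    have h5 : 0 ≤ (u ^ j - v ^ j) * (u ^ (2 * q - j) - v ^ (2 * q - j)) := by
      rcases le_total u v with h | h
      · have h6 := pow_le_pow_left₀ hu0 h j
        have h7 := pow_le_pow_left₀ hu0 h (2 * q - j)
        nlinarith
      · have h6 := pow_le_pow_left₀ hv0 h j
        have h7 := pow_le_pow_left₀ hv0 h (2 * q - j)
        nlinarith
    nlinarith
  have h8 := mul_le_mul_of_nonneg_left key (sq_nonneg ((Pᵀ * A * R) a b))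
  simp only [pow_zero, mul_one]
  nlinarith

lemma pow_sub_pow_nc (X Y : Matrix κ κ ℝ) (n : ℕ) :
    X ^ n - Y ^ n = ∑ j ∈ Finset.range n, X ^ j * (X - Y) * Y ^ (n - 1 - j) := by
  induction n with
  | zero => simp
  | succ n ih =>
    rw [Finset.sum_range_succ]
    have h1 : ∀ j ∈ Finset.range n, X ^ j * (X - Y) * Y ^ (n + 1 - 1 - j) =
        (X ^ j * (X - Y) * Y ^ (n - 1 - j)) * Y := by
      intro j hj
      rw [Finset.mem_range] at hj
      rw [Matrix.mul_assoc _ _ Y, ← pow_succ]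
      congr 2; omega
    rw [Finset.sum_congr rfl h1, ← Finset.sum_mul, ← ih]
    have h2 : n + 1 - 1 - n = 0 := by omega
    rw [h2, pow_zero, Matrix.mul_one, pow_succ, pow_succ, Matrix.sub_mul, Matrix.mul_sub]
    abel

section rad
variable {ι : Type} [Fintype ι] [DecidableEq ι]

/-- Rademacher sum. -/
noncomputable def rad {κ κ' : Type} (A : ι → Matrix κ κ' ℝ) (e : ι → Bool) : Matrix κ κ' ℝ :=
  ∑ i, sg (e i) • A i

lemma rad_symm (A : ι → Matrix κ κ ℝ) (hA : ∀ i, (A i)ᵀ = A i) (e : ι → Bool) :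
    (rad A e)ᵀ = rad A e := by
  unfold rad
  rw [Matrix.transpose_sum]
  simp only [Matrix.transpose_smul, hA]

lemma rad_flip (A : ι → Matrix κ κ ℝ) (i : ι) (e : ι → Bool) :
    rad A e - rad A (flip i e) = (2 * sg (e i)) • A i := by
  unfold rad
  rw [← Finset.sum_sub_distrib, Finset.sum_eq_single i]
  · simp [flip, sg_not]
    rw [← add_smul]; congr 1; ring
  · intro j _ hj
    simp [flip, Function.update_of_ne hj]
  · simp

/-- bound `∑ |A_i x|² ≤ σ |x|²`. -/
def Sig {κ κ' : Type} [Fintype κ] [Fintype κ'] (A : ι → Matrix κ κ' ℝ) (σ : ℝ) : Prop :=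
  ∀ x : κ' → ℝ, ∑ i, ∑ a, ((A i).mulVec x a) ^ 2 ≤ σ * ∑ b, x b ^ 2

lemma Sig.frob_le {κ κ' κ'' : Type} [Fintype κ] [Fintype κ'] [Fintype κ''] {A : ι → Matrix κ κ' ℝ}
    {σ : ℝ} (h : Sig A σ) (M : Matrix κ' κ'' ℝ) :
    ∑ i, frob (A i * M) ≤ σ * frob M := by
  have h1 : ∀ i, frob (A i * M) = ∑ c, ∑ a, ((A i).mulVec (fun b => M b c) a) ^ 2 := by
    intro i
    unfold frob
    rw [Finset.sum_comm]
    rfl
  simp only [h1]
  rw [Finset.sum_comm]
  have h2 : frob M = ∑ c, ∑ b, M b c ^ 2 := by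
    unfold frob; rw [Finset.sum_comm]
  rw [h2, Finset.mul_sum]
  exact Finset.sum_le_sum fun c _ => h _

lemma trace_sandwich (A X : Matrix κ κ ℝ) (hA : Aᵀ = A) (hX : Xᵀ = X) (q : ℕ) :
    trace (A * X ^ (2 * q) * A) = frob (A * X ^ q) := by
  rw [← frob_transpose, frob_eq_trace, Matrix.transpose_transpose, Matrix.transpose_mul,
    pow_symm X hX, hA]
  congr 1
  rw [show 2 * q = q + q by ring, pow_add]
  simp only [Matrix.mul_assoc]

lemma nck_step (A : ι → Matrix κ κ ℝ) (hA : ∀ i, (A i)ᵀ = A i) (σ : ℝ) (hσ : Sig A σ) (q : ℕ) :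
    E (fun e : ι → Bool => trace (rad A e ^ (2 * (q + 1)))) ≤
      (2 * q + 1) * σ * E (fun e : ι → Bool => trace (rad A e ^ (2 * q))) := by
  have h1 : ∀ e : ι → Bool, trace (rad A e ^ (2 * (q + 1))) =
      ∑ i, sg (e i) * trace (A i * rad A e ^ (2 * q + 1)) := by
    intro e
    have : rad A e ^ (2 * (q + 1)) = rad A e * rad A e ^ (2 * q + 1) := by
      rw [← pow_succ']; congr 1
    rw [this]
    nth_rewrite 1 [rad]
    rw [Finset.sum_mul, Matrix.trace_sum]
    simp only [Matrix.smul_mul, Matrix.trace_smul, smul_eq_mul]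
  simp only [h1]
  rw [E_sum]
  have h2 : ∀ i, E (fun e : ι → Bool => sg (e i) * trace (A i * rad A e ^ (2 * q + 1))) ≤
      (2 * q + 1) * E (fun e : ι → Bool => frob (A i * rad A e ^ q)) := by
    intro i
    have h3 : E (fun e : ι → Bool => sg (e i) * trace (A i * rad A e ^ (2 * q + 1))) =
        E (fun e : ι → Bool => sg (flip i e i) * trace (A i * rad A (flip i e) ^ (2 * q + 1))) :=
      (E_equiv (flip i) (fun e : ι → Bool => sg (e i) * trace (A i * rad A e ^ (2 * q + 1)))).symm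
    have h4 : 2 * E (fun e : ι → Bool => sg (e i) * trace (A i * rad A e ^ (2 * q + 1))) =
        E (fun e : ι → Bool => sg (e i) * trace (A i * rad A e ^ (2 * q + 1)) +
          sg (flip i e i) * trace (A i * rad A (flip i e) ^ (2 * q + 1))) := by
      rw [E_add, ← h3]; ring
    have h5 : ∀ e : ι → Bool, sg (e i) * trace (A i * rad A e ^ (2 * q + 1)) +
          sg (flip i e i) * trace (A i * rad A (flip i e) ^ (2 * q + 1)) =
        2 * ∑ j ∈ Finset.range (2 * q + 1),
          trace (A i * rad A e ^ j * A i * rad A (flip i e) ^ (2 * q - j)) := by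
      intro e
      have h6 : sg (flip i e i) = - sg (e i) := by simp [flip, sg_not]
      rw [h6]
      have h7 : sg (e i) * trace (A i * rad A e ^ (2 * q + 1)) +
          -sg (e i) * trace (A i * rad A (flip i e) ^ (2 * q + 1)) =
          sg (e i) * trace (A i * (rad A e ^ (2 * q + 1) - rad A (flip i e) ^ (2 * q + 1))) := by
        rw [Matrix.mul_sub, Matrix.trace_sub]; ring
      rw [h7, pow_sub_pow_nc, Matrix.mul_sum, Matrix.trace_sum, Finset.mul_sum, Finset.mul_sum]
      apply Finset.sum_congr rfl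
      intro j hj
      rw [rad_flip]
      have h8 : A i * (rad A e ^ j * (2 * sg (e i)) • A i * rad A (flip i e) ^ (2 * q + 1 - 1 - j))
          = (2 * sg (e i)) • (A i * rad A e ^ j * A i * rad A (flip i e) ^ (2 * q - j)) := by
        rw [show 2 * q + 1 - 1 - j = 2 * q - j by omega]
        simp only [Matrix.mul_smul, Matrix.smul_mul, Matrix.mul_assoc]
      rw [h8, Matrix.trace_smul, smul_eq_mul]
      have := sg_mul_self (e i)
      linear_combination (2 * trace (A i * rad A e ^ j * A i * rad A (flip i e) ^ (2 * q - j))) * this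
    have h9 : ∀ e : ι → Bool, 2 * (2 * ∑ j ∈ Finset.range (2 * q + 1),
          trace (A i * rad A e ^ j * A i * rad A (flip i e) ^ (2 * q - j))) ≤
        2 * ((2 * q + 1) * (frob (A i * rad A e ^ q) + frob (A i * rad A (flip i e) ^ q))) := by
      intro e
      have h10 : ∑ j ∈ Finset.range (2 * q + 1),
          trace (A i * rad A e ^ j * A i * rad A (flip i e) ^ (2 * q - j)) =
          ∑ j ∈ Finset.range (2 * q + 1),
          trace (A i * rad A e ^ (2 * q - j) * A i * rad A (flip i e) ^ j) := by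
        rw [← Finset.sum_range_reflect]
        apply Finset.sum_congr rfl
        intro j hj
        rw [Finset.mem_range] at hj
        rw [show 2 * q + 1 - 1 - j = 2 * q - j by omega, show 2 * q - (2 * q - j) = j by omega]
      have h11 : 2 * ∑ j ∈ Finset.range (2 * q + 1),
          trace (A i * rad A e ^ j * A i * rad A (flip i e) ^ (2 * q - j)) =
          ∑ j ∈ Finset.range (2 * q + 1),
          (trace (A i * rad A e ^ j * A i * rad A (flip i e) ^ (2 * q - j)) +
          trace (A i * rad A e ^ (2 * q - j) * A i * rad A (flip i e) ^ j)) := by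
        rw [Finset.sum_add_distrib, ← h10]; ring
      rw [h11]
      apply mul_le_mul_of_nonneg_left _ (by norm_num)
      have h12 : ∀ j ∈ Finset.range (2 * q + 1),
          (trace (A i * rad A e ^ j * A i * rad A (flip i e) ^ (2 * q - j)) +
          trace (A i * rad A e ^ (2 * q - j) * A i * rad A (flip i e) ^ j)) ≤
          frob (A i * rad A e ^ q) + frob (A i * rad A (flip i e) ^ q) := by
        intro j hj
        rw [Finset.mem_range] at hj
        have := heinz (A i) (rad A e) (rad A (flip i e)) (hA i) (rad_symm A hA e)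
          (rad_symm A hA _) q j (by omega)
        rw [trace_sandwich _ _ (hA i) (rad_symm A hA e), trace_sandwich _ _ (hA i) (rad_symm A hA _)] at this
        exact this
      refine le_trans (Finset.sum_le_sum h12) ?_
      rw [Finset.sum_const, Finset.card_range, nsmul_eq_mul]
      push_cast
      exact le_rfl
    have h13 : E (fun e : ι → Bool => frob (A i * rad A (flip i e) ^ q)) =
        E (fun e : ι → Bool => frob (A i * rad A e ^ q)) :=
      E_equiv (flip i) (fun e : ι → Bool => frob (A i * rad A e ^ q))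
    have h14 := E_mono h9
    simp only [h5] at h4
    rw [E_mul_left, ← h4, E_mul_left, E_mul_left, E_add, h13] at h14
    linarith
  refine le_trans (Finset.sum_le_sum fun i _ => h2 i) ?_
  rw [← Finset.mul_sum, mul_assoc]
  apply mul_le_mul_of_nonneg_left _ (by positivity)
  rw [← E_sum, ← E_mul_left]
  apply E_mono
  intro e
  refine le_trans (hσ.frob_le _) ?_
  apply le_of_eq
  congr 1
  rw [frob_eq_trace, pow_symm _ (rad_symm A hA e), ← pow_add]
  congr 2; ring

/-- Noncommutative Khintchine inequality. -/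
theorem nck (A : ι → Matrix κ κ ℝ) (hA : ∀ i, (A i)ᵀ = A i) (σ : ℝ) (hσ0 : 0 ≤ σ) (hσ : Sig A σ)
    (q : ℕ) : E (fun e : ι → Bool => trace (rad A e ^ (2 * q))) ≤
      (2 * q * σ) ^ q * Fintype.card κ := by
  have h : ∀ p : ℕ, p ≤ q → E (fun e : ι → Bool => trace (rad A e ^ (2 * p))) ≤
      (2 * q * σ) ^ p * Fintype.card κ := by
    intro p
    induction p with
    | zero =>
      intro _
      simp only [Nat.mul_zero, pow_zero, Matrix.trace_one, one_mul]
      rw [E_const]
    | succ p ih =>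
      intro hp
      refine le_trans (nck_step A hA σ hσ p) ?_
      have h1 := ih (by omega)
      have h2 : (2 * (p:ℝ) + 1) * σ ≤ 2 * q * σ := by
        apply mul_le_mul_of_nonneg_right _ hσ0
        have : ((p + 1 : ℕ) : ℝ) ≤ q := by exact_mod_cast hp
        push_cast at this
        linarith
      calc (2 * (p:ℝ) + 1) * σ * E (fun e : ι → Bool => trace (rad A e ^ (2 * p)))
          ≤ (2 * (p:ℝ) + 1) * σ * ((2 * q * σ) ^ p * Fintype.card κ) :=
            mul_le_mul_of_nonneg_left h1 (by positivity)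
        _ ≤ (2 * q * σ) * ((2 * q * σ) ^ p * Fintype.card κ) :=
            mul_le_mul_of_nonneg_right h2 (by positivity)
        _ = (2 * q * σ) ^ (p + 1) * Fintype.card κ := by ring
  exact h q le_rfl

end rad

end Srht
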