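import Mathlib
import Pool.Agent.Lib.Helper57.Srht.Spec

/-! Operator norm tools for real matrices. -/

open Finset Matrix
open scoped Matrix.Norms.L2Operator

set_option linter.unusedSectionVars false
set_option linter.unnecessarySeqFocus false

namespace Srht

variable {κ κ' : Type} [Fintype κ] [DecidableEq κ] [Fintype κ'] [DecidableEq κ']

lemma opn_mulVec (M : Matrix κ κ' ℝ) (x : κ' → ℝ) :
    ∑ a, (M.mulVec x a) ^ 2 ≤ ‖M‖ ^ 2 * ∑ b, x b ^ 2 := by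
  have h := Matrix.l2_opNorm_mulVec M (WithLp.toLp 2 x)
  have h1 : ‖(EuclideanSpace.equiv κ ℝ).symm (M.mulVec (WithLp.toLp 2 x : EuclideanSpace ℝ κ'))‖ ^ 2 =
      ∑ a, (M.mulVec x a) ^ 2 := by
    rw [EuclideanSpace.real_norm_sq_eq]
    rfl
  have h2 : ‖(WithLp.toLp 2 x : EuclideanSpace ℝ κ')‖ ^ 2 = ∑ b, x b ^ 2 := by
    rw [EuclideanSpace.real_norm_sq_eq]
  rw [← h1, ← h2, ← mul_pow]
  exact pow_le_pow_left₀ (norm_nonneg _) h 2

lemma opn_le (M : Matrix κ κ' ℝ) (a : ℝ) (ha : 0 ≤ a)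
    (h : ∀ x : κ' → ℝ, ∑ i, (M.mulVec x i) ^ 2 ≤ a * ∑ b, x b ^ 2) : ‖M‖ ^ 2 ≤ a := by
  have h1 : ‖M‖ ≤ Real.sqrt a := by
    rw [Matrix.l2_opNorm_def]
    apply ContinuousLinearMap.opNorm_le_bound _ (Real.sqrt_nonneg _)
    intro x
    have h2 : ‖(((toEuclideanLin (𝕜 := ℝ) (m := κ) (n := κ')).trans LinearMap.toContinuousLinearMap) M) x‖ ^ 2
        = ∑ i, (M.mulVec x i) ^ 2 := by
      rw [EuclideanSpace.real_norm_sq_eq]
      rfl
    have h3 : ‖x‖ ^ 2 = ∑ b, x b ^ 2 := EuclideanSpace.real_norm_sq_eq x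
    apply le_of_sq_le_sq _ (by positivity)
    rw [h2, mul_pow, Real.sq_sqrt ha, h3]
    exact h x
  calc ‖M‖ ^ 2 ≤ (Real.sqrt a) ^ 2 := pow_le_pow_left₀ (norm_nonneg _) h1 2
    _ = a := Real.sq_sqrt ha

lemma opn_sq_le_frob (M : Matrix κ κ' ℝ) : ‖M‖ ^ 2 ≤ frob M := by
  apply opn_le M _ (frob_nonneg M)
  intro x
  unfold frob
  rw [Finset.sum_mul]
  apply Finset.sum_le_sum
  intro i _
  exact Finset.sum_mul_sq_le_sq_mul_sq _ _ _

lemma orth_sum_sq (P : Matrix κ κ ℝ) (h1 : P * Pᵀ = 1) (x : κ → ℝ) :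
    ∑ a, (Pᵀ.mulVec x a) ^ 2 = ∑ a, x a ^ 2 := by
  have h : ∀ y : κ → ℝ, ∑ a, y a ^ 2 = y ⬝ᵥ y := by
    intro y; simp [dotProduct, sq]
  rw [h, h, Matrix.dotProduct_mulVec, ← Matrix.mulVec_transpose, Matrix.transpose_transpose,
    Matrix.mulVec_mulVec, h1, Matrix.one_mulVec]

lemma spec_mulVec_sq (P : Matrix κ κ ℝ) (y : κ → ℝ) (h1 : P * Pᵀ = 1) (h2 : Pᵀ * P = 1) (x : κ → ℝ) :
    ∑ a, ((P * diagonal y * Pᵀ).mulVec x a) ^ 2 = ∑ a, y a ^ 2 * (Pᵀ.mulVec x a) ^ 2 := by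
  have h3 : Pᵀ.mulVec ((P * diagonal y * Pᵀ).mulVec x) = fun a => y a * Pᵀ.mulVec x a := by
    rw [Matrix.mulVec_mulVec]
    have : Pᵀ * (P * diagonal y * Pᵀ) = diagonal y * Pᵀ := by
      rw [← Matrix.mul_assoc, ← Matrix.mul_assoc, h2, Matrix.one_mul]
    rw [this, ← Matrix.mulVec_mulVec]
    funext a
    rw [Matrix.mulVec_diagonal]
  rw [← orth_sum_sq P h1 ((P * diagonal y * Pᵀ).mulVec x), h3]
  apply Finset.sum_congr rfl
  intro a _
  ring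

lemma spec_trace (P : Matrix κ κ ℝ) (y : κ → ℝ) (h1 : P * Pᵀ = 1) (h2 : Pᵀ * P = 1) (j : ℕ) :
    trace ((P * diagonal y * Pᵀ) ^ j) = ∑ a, y a ^ j := by
  rw [spec_pow P y h1 h2, Matrix.trace_mul_comm, ← Matrix.mul_assoc, h2, Matrix.one_mul,
    Matrix.trace_diagonal]

/-- the operator norm is at most the largest eigenvalue, in trace form. -/
lemma opn_pow_le_trace (Y : Matrix κ κ ℝ) (hY : Yᵀ = Y) (q : ℕ) (hq : 0 < q) :
    ‖Y‖ ^ (2 * q) ≤ trace (Y ^ (2 * q)) := by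
  obtain ⟨P, y, hP1, hP2, hPY⟩ := spec Y hY
  rw [hPY, spec_trace P y hP1 hP2]
  by_cases hne : Nonempty κ
  · obtain ⟨a0, ha0⟩ := Finite.exists_max (fun a => y a ^ 2)
    have h1 : ‖P * diagonal y * Pᵀ‖ ^ 2 ≤ y a0 ^ 2 := by
      apply opn_le _ _ (sq_nonneg _)
      intro x
      rw [spec_mulVec_sq P y hP1 hP2, ← orth_sum_sq P hP1 x, Finset.mul_sum]
      apply Finset.sum_le_sum
      intro a _
      exact mul_le_mul_of_nonneg_right (ha0 a) (sq_nonneg _)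
    rw [pow_mul]
    calc (‖P * diagonal y * Pᵀ‖ ^ 2) ^ q ≤ (y a0 ^ 2) ^ q := pow_le_pow_left₀ (sq_nonneg _) h1 q
      _ = y a0 ^ (2 * q) := by rw [pow_mul]
      _ ≤ ∑ a, y a ^ (2 * q) := by
        apply Finset.single_le_sum (f := fun a => y a ^ (2 * q)) _ (Finset.mem_univ a0)
        intro a _
        rw [pow_mul]; positivity
  · have : IsEmpty κ := not_nonempty_iff.mp hne
    have h1 : ‖P * diagonal y * Pᵀ‖ = 0 := by
      rw [norm_eq_zero]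
      ext i; exact this.elim i
    rw [h1, zero_pow (by omega)]
    simp

/-- norm of a positive semidefinite matrix through its quadratic form. -/
lemma psd_norm_le (Y : Matrix κ κ ℝ) (hY : Yᵀ = Y) (c : ℝ) (hc : 0 ≤ c)
    (h0 : ∀ x : κ → ℝ, 0 ≤ x ⬝ᵥ Y.mulVec x)
    (h1 : ∀ x : κ → ℝ, x ⬝ᵥ Y.mulVec x ≤ c * ∑ a, x a ^ 2) : ‖Y‖ ≤ c := by
  obtain ⟨P, y, hP1, hP2, hPY⟩ := spec Y hY
  have hy : ∀ a, 0 ≤ y a ∧ y a ≤ c := by
    intro a
    have hx : ∀ b, Pᵀ.mulVec (P.mulVec (Pi.single a 1)) b = if b = a then 1 else 0 := by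
      intro b
      rw [Matrix.mulVec_mulVec, hP2, Matrix.one_mulVec, Pi.single_apply]
    have h2 : (P.mulVec (Pi.single a 1)) ⬝ᵥ Y.mulVec (P.mulVec (Pi.single a 1)) = y a := by
      have h4 : ∀ v : κ → ℝ, v ⬝ᵥ (P * diagonal y * Pᵀ).mulVec v =
          ∑ b, y b * (Pᵀ.mulVec v b) ^ 2 := by
        intro v
        rw [← Matrix.mulVec_mulVec, ← Matrix.mulVec_mulVec, Matrix.dotProduct_mulVec,
          ← Matrix.mulVec_transpose]
        unfold dotProduct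
        apply Finset.sum_congr rfl
        intro b _
        rw [Matrix.mulVec_diagonal]; ring
      rw [hPY, h4]
      simp only [hx]
      simp
    have h3 : ∑ b, (P.mulVec (Pi.single a 1)) b ^ 2 = 1 := by
      rw [← orth_sum_sq P hP1]
      simp only [hx]
      simp
    have h4 := h0 (P.mulVec (Pi.single a 1))
    have h5 := h1 (P.mulVec (Pi.single a 1))
    rw [h2] at h4 h5
    rw [h3] at h5
    exact ⟨h4, by linarith⟩
  have h6 : ‖Y‖ ^ 2 ≤ c ^ 2 := by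
    apply opn_le _ _ (sq_nonneg _)
    intro x
    rw [hPY, spec_mulVec_sq P y hP1 hP2, ← orth_sum_sq P hP1 x, Finset.mul_sum]
    apply Finset.sum_le_sum
    intro a _
    apply mul_le_mul_of_nonneg_right _ (sq_nonneg _)
    exact pow_le_pow_left₀ (hy a).1 (hy a).2 2
  exact le_of_sq_le_sq h6 hc

lemma qf_le (Y : Matrix κ κ ℝ) (x : κ → ℝ) : x ⬝ᵥ Y.mulVec x ≤ ‖Y‖ * ∑ a, x a ^ 2 := by
  have h1 : (x ⬝ᵥ Y.mulVec x) ^ 2 ≤ (∑ a, x a ^ 2) * ∑ a, (Y.mulVec x a) ^ 2 :=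
    Finset.sum_mul_sq_le_sq_mul_sq _ _ _
  have h2 := opn_mulVec Y x
  have h3 : 0 ≤ ∑ a, x a ^ 2 := Finset.sum_nonneg fun _ _ => sq_nonneg _
  apply le_of_sq_le_sq _ (by positivity)
  calc (x ⬝ᵥ Y.mulVec x) ^ 2 ≤ (∑ a, x a ^ 2) * ∑ a, (Y.mulVec x a) ^ 2 := h1
    _ ≤ (∑ a, x a ^ 2) * (‖Y‖ ^ 2 * ∑ b, x b ^ 2) := mul_le_mul_of_nonneg_left h2 h3
    _ = (‖Y‖ * ∑ a, x a ^ 2) ^ 2 := by ring

/-- first moment from a high even moment. -/
lemma E_le_of_moment {α : Type} [Fintype α] [Nonempty α] (F : α → ℝ) (hF : ∀ a, 0 ≤ F a) (t : ℝ)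
    (ht : 0 < t) (q : ℕ) (hq : 0 < q) (h : E (fun a => F a ^ (2 * q)) ≤ t ^ (2 * q)) :
    E F ≤ 2 * t := by
  have h1 : ∀ a, F a ≤ t + t / t ^ (2 * q) * F a ^ (2 * q) := by
    intro a
    rcases le_total (F a) t with h2 | h2
    · have : 0 ≤ t / t ^ (2 * q) * F a ^ (2 * q) := by
        have := hF a; positivity
      linarith
    · have h3 : F a ^ (2 * q) = F a * F a ^ (2 * q - 1) := by
        rw [← pow_succ']; congr 1; omega
      have h4 : t ^ (2 * q) = t * t ^ (2 * q - 1) := by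
        rw [← pow_succ']; congr 1; omega
      have h5 : t / t ^ (2 * q) * F a ^ (2 * q) = F a * (F a ^ (2 * q - 1) / t ^ (2 * q - 1)) := by
        rw [h3, h4]; field_simp
      rw [h5]
      have h6 : 1 ≤ F a ^ (2 * q - 1) / t ^ (2 * q - 1) := by
        rw [le_div_iff₀ (by positivity), one_mul]
        exact pow_le_pow_left₀ ht.le h2 _
      have := hF a
      nlinarith
  have h7 := E_mono h1
  rw [E_add, E_const, E_mul_left] at h7
  have h8 : t / t ^ (2 * q) * E (fun a => F a ^ (2 * q)) ≤ t / t ^ (2 * q) * t ^ (2 * q) :=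
    mul_le_mul_of_nonneg_left h (by positivity)
  have h9 : t / t ^ (2 * q) * t ^ (2 * q) = t := by field_simp
  linarith

end Srht
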