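import Mathlib
import Pool.Agent.Lib.Helper57.Srht.Signs

/-! Uniform `k`-subsets of the group `(ZMod 2)^m` and their character sums. -/

open Finset

set_option linter.unusedSectionVars false
set_option linter.unnecessarySeqFocus false

namespace Srht

/-- `k`-element subsets. -/
abbrev Sub (α : Type) (k : ℕ) : Type := {S : Finset α // S.card = k}

section perm
variable {α : Type} [Fintype α] [DecidableEq α] {k : ℕ}

/-- the action of a permutation on `k`-subsets. -/
def Sub.perm (π : Equiv.Perm α) : Sub α k ≃ Sub α k where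
  toFun S := ⟨S.1.map π.toEmbedding, by rw [Finset.card_map]; exact S.2⟩
  invFun S := ⟨S.1.map π.symm.toEmbedding, by rw [Finset.card_map]; exact S.2⟩
  left_inv S := by
    ext x
    simp
  right_inv S := by
    ext x
    simp

lemma E_perm (π : Equiv.Perm α) (F : Finset α → ℝ) :
    E (fun S : Sub α k => F (S.1.map π.toEmbedding)) = E (fun S : Sub α k => F S.1) :=
  E_equiv (Sub.perm π) (fun S : Sub α k => F S.1)

end perm

/-- the index group. -/
abbrev G (m : ℕ) : Type := Fin m → ZMod 2

/-- sign of an element of `ZMod 2`. -/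
def z2 (a : ZMod 2) : ℝ := if a = 0 then 1 else -1

lemma z2_zero : z2 0 = 1 := by simp [z2]
lemma z2_one : z2 1 = -1 := by simp [z2]

lemma zcases (a : ZMod 2) : a = 0 ∨ a = 1 := by revert a; decide

lemma z2_add (a b : ZMod 2) : z2 (a + b) = z2 a * z2 b := by
  have h11 : (1 : ZMod 2) + 1 = 0 := by decide
  rcases zcases a with h | h <;> rcases zcases b with h' | h' <;> rw [h, h'] <;>
    simp [z2_zero, z2_one, h11]

lemma z2_mul_self (a : ZMod 2) : z2 a * z2 a = 1 := by
  rcases zcases a with h | h <;> rw [h] <;> simp [z2_zero, z2_one]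

lemma z2_eq (a : ZMod 2) : z2 a = 1 ∨ z2 a = -1 := by
  rcases zcases a with h | h <;> rw [h] <;> simp [z2_zero, z2_one]

variable {m : ℕ}

/-- the characters. -/
def chi (u y : G m) : ℝ := z2 (u ⬝ᵥ y)

lemma chi_comm (u y : G m) : chi u y = chi y u := by
  unfold chi; rw [dotProduct_comm]

lemma chi_add_right (u y z : G m) : chi u (y + z) = chi u y * chi u z := by
  unfold chi; rw [dotProduct_add, z2_add]

lemma chi_add_left (u y z : G m) : chi (u + y) z = chi u z * chi y z := by
  unfold chi; rw [add_dotProduct, z2_add]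

lemma chi_mul_self (u y : G m) : chi u y * chi u y = 1 := z2_mul_self _

lemma chi_sq (u y : G m) : chi u y ^ 2 = 1 := by rw [sq]; exact chi_mul_self u y

lemma chi_eq (u y : G m) : chi u y = 1 ∨ chi u y = -1 := z2_eq _

lemma chi_zero_right (u : G m) : chi u 0 = 1 := by simp [chi, z2]

lemma chi_zero_left (u : G m) : chi 0 u = 1 := by simp [chi, z2]

lemma G_add_self (v : G m) : v + v = 0 := by
  funext i
  show v i + v i = 0
  generalize v i = a
  fin_cases a <;> decide

lemma G_add_add (u v : G m) : u + v + v = u := by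
  rw [add_assoc, G_add_self, add_zero]

lemma card_G : Fintype.card (G m) = 2 ^ m := by
  simp [G, ZMod.card]

lemma exists_chi {t : G m} (ht : t ≠ 0) : ∃ v : G m, chi v t = -1 := by
  obtain ⟨i, hi⟩ := Function.ne_iff.mp ht
  refine ⟨Pi.single i 1, ?_⟩
  unfold chi
  rw [single_dotProduct, one_mul]
  simp only [z2]
  have hi' : t i ≠ 0 := hi
  rw [if_neg hi']

lemma sum_chi (t : G m) : ∑ u : G m, chi u t = if t = 0 then (2:ℝ) ^ m else 0 := by
  split_ifs with h
  · subst h
    simp [chi_zero_right, card_G]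
  · obtain ⟨v, hv⟩ := exists_chi h
    have h1 : ∑ u : G m, chi (u + v) t = ∑ u : G m, chi u t :=
      Equiv.sum_comp (Equiv.addRight v) (fun u => chi u t)
    have h2 : ∑ u : G m, chi (u + v) t = - ∑ u : G m, chi u t := by
      rw [← Finset.sum_neg_distrib]
      apply Finset.sum_congr rfl
      intro u _
      rw [chi_add_left, hv]; ring
    linarith

/-- the character sum of a set. -/
def ss (S : Finset (G m)) (t : G m) : ℝ := ∑ u ∈ S, chi u t

lemma ss_zero (S : Finset (G m)) : ss S 0 = S.card := by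
  simp [ss, chi_zero_right]

/-- the representative of the pair `{u, u + v}`. -/
noncomputable def rep (t v u : G m) : G m := if chi u t = 1 then u else u + v

lemma rep_add {t v : G m} (hv : chi v t = -1) (u : G m) : rep t v (u + v) = rep t v u := by
  unfold rep
  rw [chi_add_left, hv]
  rcases chi_eq u t with h | h
  · rw [h]; norm_num [G_add_add]
  · rw [h]; norm_num

lemma rep_eq_iff {t v : G m} (hv : chi v t = -1) (u u' : G m) :
    rep t v u = rep t v u' ↔ u' = u ∨ u' = u + v := by
  constructor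
  · intro h
    unfold rep at h
    split_ifs at h with h1 h2 h2
    · left; exact h.symm
    · right; rw [h, G_add_add]
    · right; exact h.symm
    · left; exact (add_right_cancel h).symm
  · rintro (h | h)
    · rw [h]
    · rw [h, rep_add hv]

/-- pair flips -/
noncomputable def pflip (t v : G m) (τ : G m → Bool) (u : G m) : G m :=
  if τ (rep t v u) = true then u else u + v

lemma pflip_invol {t v : G m} (hv : chi v t = -1) (τ : G m → Bool) :
    Function.Involutive (pflip t v τ) := by
  intro u
  unfold pflip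
  by_cases h : τ (rep t v u) = true
  · simp [h]
  · simp [h, rep_add hv, G_add_add]

lemma chi_pflip {t v : G m} (hv : chi v t = -1) (τ : G m → Bool) (u : G m) :
    chi (pflip t v τ u) t = chi u t * sg (τ (rep t v u)) := by
  unfold pflip
  by_cases h : τ (rep t v u) = true
  · simp [h, sg]
  · simp [h, sg, chi_add_left, hv]

/-- Hoeffding-type bound for a character sum over a uniform `k`-subset. -/
theorem ss_mgf {t : G m} (ht : t ≠ 0) (k : ℕ) (θ : ℝ) :
    E (fun S : Sub (G m) k => Real.exp (θ * ss S.1 t)) ≤ Real.exp (θ ^ 2 * k / 2) := by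
  obtain ⟨v, hv⟩ := exists_chi ht
  have h1 : E (fun S : Sub (G m) k => Real.exp (θ * ss S.1 t)) =
      E (fun τ : G m → Bool => E (fun S : Sub (G m) k =>
        Real.exp (θ * ss (S.1.map ((pflip_invol hv τ).toPerm).toEmbedding) t))) := by
    have h2 : ∀ τ : G m → Bool, E (fun S : Sub (G m) k =>
        Real.exp (θ * ss (S.1.map ((pflip_invol hv τ).toPerm).toEmbedding) t)) =
        E (fun S : Sub (G m) k => Real.exp (θ * ss S.1 t)) := fun τ =>
      E_perm ((pflip_invol hv τ).toPerm) (fun S => Real.exp (θ * ss S t))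
    simp only [h2]
    rw [E_const]
  rw [h1, E_comm]
  have h3 : ∀ S : Sub (G m) k, E (fun τ : G m → Bool =>
        Real.exp (θ * ss (S.1.map ((pflip_invol hv τ).toPerm).toEmbedding) t)) ≤
        Real.exp (θ ^ 2 * k / 2) := by
    intro S
    have h4 : ∀ τ : G m → Bool, θ * ss (S.1.map ((pflip_invol hv τ).toPerm).toEmbedding) t =
        ∑ w, (θ * ∑ u ∈ S.1, if rep t v u = w then chi u t else 0) * sg (τ w) := by
      intro τ
      have h5 : ∀ w, (θ * ∑ u ∈ S.1, if rep t v u = w then chi u t else 0) * sg (τ w) =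
          ∑ u ∈ S.1, if rep t v u = w then θ * (chi u t * sg (τ w)) else 0 := by
        intro w
        rw [mul_assoc, Finset.sum_mul, Finset.mul_sum]
        apply Finset.sum_congr rfl
        intro u _
        split_ifs <;> ring
      simp only [h5]
      rw [Finset.sum_comm]
      simp only [Finset.sum_ite_eq, Finset.mem_univ, if_true]
      unfold ss
      rw [Finset.sum_map, Finset.mul_sum]
      apply Finset.sum_congr rfl
      intro u _
      congr 1
      exact chi_pflip hv τ u
    simp only [h4]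
    refine le_trans (E_exp_linear_le _) (Real.exp_le_exp.mpr ?_)
    have h6 : ∑ w, (∑ u ∈ S.1, if rep t v u = w then chi u t else 0) ^ 2 ≤ (k:ℝ) := by
      have h7 : ∀ w, (∑ u ∈ S.1, if rep t v u = w then chi u t else 0) ^ 2 =
          ∑ u ∈ S.1, ∑ u' ∈ S.1, if rep t v u = w then (if rep t v u' = w then chi u t * chi u' t else 0) else 0 := by
        intro w
        rw [sq, Finset.sum_mul]
        apply Finset.sum_congr rfl
        intro u _
        rw [Finset.mul_sum]
        apply Finset.sum_congr rfl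
        intro u' _
        split_ifs <;> ring
      simp only [h7]
      rw [Finset.sum_comm]
      have h8 : ∀ u ∈ S.1, ∑ w, ∑ u' ∈ S.1, (if rep t v u = w then (if rep t v u' = w then chi u t * chi u' t else 0) else 0) ≤ (1:ℝ) := by
        intro u hu
        rw [Finset.sum_comm]
        simp only [Finset.sum_ite_eq, Finset.mem_univ, if_true]
        have h9 : ∀ u' ∈ S.1, (if rep t v u' = rep t v u then chi u t * chi u' t else 0) =
            (if u' = u then (1:ℝ) else 0) + (if u' = u + v then (-1:ℝ) else 0) := by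
          intro u' _
          by_cases h10 : rep t v u' = rep t v u
          · rw [if_pos h10]
            have h11 := (rep_eq_iff hv u u').mp h10.symm
            have hv0 : v ≠ 0 := by
              rintro rfl
              rw [chi_zero_left] at hv; norm_num at hv
            rcases h11 with h11 | h11
            · subst h11
              have : ¬ (u' = u' + v) := by
                intro h; exact hv0 (by simpa using h)
              rw [if_pos rfl, if_neg this, chi_mul_self]; ring
            · subst h11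
              have : ¬ (u + v = u) := by
                intro h; exact hv0 (by simpa using h)
              rw [if_neg this, if_pos rfl, chi_add_left, hv]
              have := chi_mul_self u t
              linarith
          · rw [if_neg h10]
            have h11 : ¬ (u' = u ∨ u' = u + v) := fun h => h10 ((rep_eq_iff hv u u').mpr h).symm
            push Not at h11
            rw [if_neg h11.1, if_neg h11.2]; ring
        rw [Finset.sum_congr rfl h9, Finset.sum_add_distrib]
        rw [Finset.sum_ite_eq' S.1 u, Finset.sum_ite_eq' S.1 (u + v)]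
        split_ifs <;> norm_num
      refine le_trans (Finset.sum_le_sum h8) ?_
      simp [S.2]
    have h12 : ∀ w, (θ * ∑ u ∈ S.1, if rep t v u = w then chi u t else 0) ^ 2 =
        θ ^ 2 * (∑ u ∈ S.1, if rep t v u = w then chi u t else 0) ^ 2 := by
      intro w; ring
    simp only [h12]
    rw [← Finset.mul_sum]
    have := mul_le_mul_of_nonneg_left h6 (sq_nonneg θ)
    linarith
  refine le_trans (E_mono h3) ?_
  by_cases hne : Nonempty (Sub (G m) k)
  · rw [E_const]
  · have : IsEmpty (Sub (G m) k) := not_nonempty_iff.mp hne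
    unfold E
    simp
    positivity

/-- fourth moment of a character sum. -/
theorem ss_four {t : G m} (ht : t ≠ 0) (k : ℕ) (hk : 0 < k) :
    E (fun S : Sub (G m) k => ss S.1 t ^ 4) ≤ 80 * (k:ℝ) ^ 2 := by
  have hk' : (0:ℝ) < k := by exact_mod_cast hk
  set θ : ℝ := 1 / Real.sqrt k with hθ
  have hθ2 : θ ^ 2 * k = 1 := by
    rw [hθ, div_pow, Real.sq_sqrt hk'.le]; field_simp
  have h1 := ss_mgf ht k θ
  have h2 := ss_mgf ht k (-θ)
  rw [neg_sq, hθ2] at h2
  rw [hθ2] at h1
  have h3 : ∀ S : Sub (G m) k, ss S.1 t ^ 4 ≤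
      24 * (k:ℝ) ^ 2 * (Real.exp (θ * ss S.1 t) + Real.exp (-θ * ss S.1 t)) := by
    intro S
    have h4 : |θ * ss S.1 t| ^ 4 / (Nat.factorial 4 : ℝ) ≤ Real.exp |θ * ss S.1 t| :=
      Real.pow_div_factorial_le_exp _ (abs_nonneg _) 4
    have h5 : Real.exp |θ * ss S.1 t| ≤ Real.exp (θ * ss S.1 t) + Real.exp (-θ * ss S.1 t) := by
      rcases abs_cases (θ * ss S.1 t) with ⟨h, _⟩ | ⟨h, _⟩
      · rw [h]; have := Real.exp_pos (-θ * ss S.1 t); linarith
      · rw [h]; have := Real.exp_pos (θ * ss S.1 t)
        have h6 : -(θ * ss S.1 t) = -θ * ss S.1 t := by ring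
        rw [h6]; linarith
    have h7 : |θ * ss S.1 t| ^ 4 = θ ^ 4 * ss S.1 t ^ 4 := by
      rw [← mul_pow, Even.pow_abs (by decide)]
    have h8 : (k:ℝ) ^ 2 * (θ ^ 4 * ss S.1 t ^ 4) = ss S.1 t ^ 4 := by
      have : (k:ℝ) ^ 2 * θ ^ 4 = 1 := by
        calc (k:ℝ) ^ 2 * θ ^ 4 = (θ ^ 2 * k) ^ 2 := by ring
          _ = 1 := by rw [hθ2]; norm_num
      rw [← mul_assoc, this, one_mul]
    have h9 : |θ * ss S.1 t| ^ 4 ≤ 24 * (Real.exp (θ * ss S.1 t) + Real.exp (-θ * ss S.1 t)) := by
      have : (Nat.factorial 4 : ℝ) = 24 := by norm_num [Nat.factorial]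
      rw [this, div_le_iff₀ (by norm_num)] at h4
      linarith
    rw [h7] at h9
    have h10 := mul_le_mul_of_nonneg_left h9 (by positivity : (0:ℝ) ≤ (k:ℝ) ^ 2)
    rw [h8] at h10
    linarith
  have h4 := E_mono h3
  rw [E_mul_left, E_add] at h4
  have h5 : Real.exp (1 / 2) ≤ 5 / 3 := by
    have : Real.exp (1 / 2) ^ 2 ≤ (5/3) ^ 2 := by
      rw [← Real.exp_nat_mul]
      have := Real.exp_one_lt_d9
      norm_num
      linarith
    exact le_of_sq_le_sq this (by norm_num)
  have h6 : 24 * (k:ℝ) ^ 2 * (E (fun S : Sub (G m) k => Real.exp (θ * ss S.1 t)) +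
      E (fun S : Sub (G m) k => Real.exp (-θ * ss S.1 t))) ≤ 24 * (k:ℝ) ^ 2 * (5/3 + 5/3) := by
    apply mul_le_mul_of_nonneg_left _ (by positivity)
    linarith
  have : 24 * (k:ℝ) ^ 2 * (5/3 + 5/3) = 80 * (k:ℝ)^2 := by ring
  linarith


/-! ### Invariance under the linear group -/

lemma G_add_eq_zero_iff (u v : G m) : u + v = 0 ↔ u = v := by
  constructor
  · intro h
    have := congrArg (· + v) h
    simpa [add_assoc, G_add_self] using this
  · rintro rfl; exact G_add_self u

lemma exists_adj {j : ℕ} (v w : Fin j → G m) (hv : LinearIndependent (ZMod 2) v)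
    (hw : LinearIndependent (ZMod 2) w) :
    ∃ π : Equiv.Perm (G m), ∀ u : G m, ∀ i, (π u) ⬝ᵥ (v i) = u ⬝ᵥ (w i) := by
  obtain ⟨g, hg⟩ := Submodule.exists_linearEquiv_restrict_eq
    ((Module.Basis.span hv).equiv (Module.Basis.span hw) (Equiv.refl _))
  have hgv : ∀ i, g (v i) = w i := by
    intro i
    have h1 := hg (Module.Basis.span hv i)
    rw [Module.Basis.equiv_apply] at h1
    simpa [Module.Basis.span_apply] using h1.symm
  set M := LinearMap.toMatrix' (g : G m →ₗ[ZMod 2] G m) with hM
  have hMx : ∀ x : G m, M.mulVec x = g x := by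
    intro x
    rw [hM, LinearMap.toMatrix'_mulVec]; rfl
  have hadj : ∀ u x : G m, (Matrix.vecMul u M) ⬝ᵥ x = u ⬝ᵥ g x := by
    intro u x
    rw [← hMx, Matrix.dotProduct_mulVec]
  have hinj : Function.Injective (fun u : G m => Matrix.vecMul u M) := by
    intro u u' h
    have h2 : ∀ y : G m, u ⬝ᵥ y = u' ⬝ᵥ y := by
      intro y
      have h3 := hadj u (g.symm y)
      have h4 := hadj u' (g.symm y)
      rw [LinearEquiv.apply_symm_apply] at h3 h4
      rw [← h3, ← h4]
      simp only at h
      rw [h]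
    funext i
    have := h2 (Pi.single i 1)
    simpa using this
  refine ⟨Equiv.ofBijective _ (hinj.bijective_of_finite), ?_⟩
  intro u i
  show (Matrix.vecMul u M) ⬝ᵥ (v i) = u ⬝ᵥ (w i)
  rw [hadj, hgv]

lemma E_inv {j k : ℕ} (v w : Fin j → G m) (hv : LinearIndependent (ZMod 2) v)
    (hw : LinearIndependent (ZMod 2) w) (F : (Fin j → ℝ) → ℝ) :
    E (fun S : Sub (G m) k => F (fun i => ss S.1 (v i))) =
      E (fun S : Sub (G m) k => F (fun i => ss S.1 (w i))) := by
  obtain ⟨π, hπ⟩ := exists_adj v w hv hw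
  rw [← E_perm π (fun S : Finset (G m) => F (fun i => ss S (v i)))]
  congr 1
  funext S
  congr 1
  funext i
  unfold ss
  rw [Finset.sum_map]
  apply Finset.sum_congr rfl
  intro u _
  show z2 ((π u) ⬝ᵥ (v i)) = z2 (u ⬝ᵥ (w i))
  rw [hπ]

lemma indep_pair {t1 t2 : G m} (h1 : t1 ≠ 0) (h2 : t2 ≠ 0) (h : t1 ≠ t2) :
    LinearIndependent (ZMod 2) ![t1, t2] := by
  rw [LinearIndependent.pair_iff]
  intro a b hab
  rcases zcases a with ha | ha <;> rcases zcases b with hb | hb
  · exact ⟨ha, hb⟩
  · rw [ha, hb] at hab; simp at hab; exact absurd hab h2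
  · rw [ha, hb] at hab; simp at hab; exact absurd hab h1
  · rw [ha, hb] at hab
    simp only [one_smul] at hab
    exact absurd ((G_add_eq_zero_iff _ _).mp hab) h

lemma indep_single {t : G m} (h : t ≠ 0) : LinearIndependent (ZMod 2) ![t] := by
  rw [linearIndependent_unique_iff]
  simpa using h

lemma parseval (S : Finset (G m)) : ∑ t : G m, ss S t ^ 2 = 2 ^ m * (S.card : ℝ) := by
  have h1 : ∀ t : G m, ss S t ^ 2 = ∑ u ∈ S, ∑ u' ∈ S, chi t (u + u') := by
    intro t
    unfold ss
    rw [sq, Finset.sum_mul]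
    apply Finset.sum_congr rfl
    intro u _
    rw [Finset.mul_sum]
    apply Finset.sum_congr rfl
    intro u' _
    rw [chi_add_right, chi_comm t u, chi_comm t u']
  simp only [h1]
  rw [Finset.sum_comm]
  have h2 : ∀ u ∈ S, ∑ t : G m, ∑ u' ∈ S, chi t (u + u') = 2 ^ m := by
    intro u hu
    rw [Finset.sum_comm]
    simp only [sum_chi, G_add_eq_zero_iff]
    rw [Finset.sum_ite_eq]
    simp [hu]
  rw [Finset.sum_congr rfl h2]
  simp [mul_comm]

/-- the mean of `ss²`. -/
noncomputable def kap (m k : ℕ) : ℝ := (k:ℝ) * (2 ^ m - k) / (2 ^ m - 1)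

lemma parseval_kap (hm : 1 ≤ m) {k : ℕ} (S : Sub (G m) k) :
    ∑ t : G m, (if t = 0 then 0 else ss S.1 t ^ 2 - kap m k) = 0 := by
  have h1 := parseval S.1
  have h2 : ∀ t : G m, (if t = 0 then 0 else ss S.1 t ^ 2 - kap m k) =
      (ss S.1 t ^ 2 - kap m k) - (if t = 0 then ((k:ℝ) ^ 2 - kap m k) else 0) := by
    intro t
    split_ifs with h
    · subst h; rw [ss_zero, S.2]; ring
    · ring
  simp only [h2]
  rw [Finset.sum_sub_distrib, Finset.sum_sub_distrib, h1, S.2]
  simp only [Finset.sum_const, Finset.card_univ, card_G, nsmul_eq_mul, Finset.sum_ite_eq',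
    Finset.mem_univ, if_true]
  push_cast
  have h3 : (2:ℝ) ^ m - 1 ≠ 0 := by
    have : (2:ℝ) ^ 1 ≤ 2 ^ m := pow_le_pow_right₀ (by norm_num) hm
    intro h
    linarith
  unfold kap
  field_simp
  ring

lemma exists_two (hm : 2 ≤ m) : ∃ t u : G m, t ≠ 0 ∧ u ≠ 0 ∧ t ≠ u := by
  refine ⟨Pi.single ⟨0, by omega⟩ 1, Pi.single ⟨1, by omega⟩ 1, ?_, ?_, ?_⟩
  · simp
  · simp
  · intro h
    have := congrFun h ⟨0, by omega⟩
    rw [Pi.single_eq_same, Pi.single_eq_of_ne] at this
    · exact one_ne_zero this
    · intro h'; simp [Fin.ext_iff] at h'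

/-- Variance of quadratic statistics of a uniform `k`-subset. -/
theorem ss_var (hm : 2 ≤ m) (k : ℕ) (hk : 0 < k) (hk2 : k ≤ 2 ^ m) (c : G m → ℝ) (hc : c 0 = 0) :
    E (fun S : Sub (G m) k => (∑ t, c t * (ss S.1 t ^ 2 - kap m k)) ^ 2) ≤
      160 * (k:ℝ) ^ 2 * ∑ t, c t ^ 2 := by
  obtain ⟨t0, u0, ht0, hu0, htu0⟩ := exists_two hm
  set a : ℝ := E (fun S : Sub (G m) k => (ss S.1 t0 ^ 2 - kap m k) ^ 2) with ha
  set b : ℝ := E (fun S : Sub (G m) k => (ss S.1 t0 ^ 2 - kap m k) * (ss S.1 u0 ^ 2 - kap m k)) with hb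
  have hA : ∀ t : G m, t ≠ 0 → E (fun S : Sub (G m) k => (ss S.1 t ^ 2 - kap m k) ^ 2) = a := by
    intro t ht
    exact E_inv ![t] ![t0] (indep_single ht) (indep_single ht0) (fun x => (x 0 ^ 2 - kap m k) ^ 2)
  have hB : ∀ t u : G m, t ≠ 0 → u ≠ 0 → t ≠ u →
      E (fun S : Sub (G m) k => (ss S.1 t ^ 2 - kap m k) * (ss S.1 u ^ 2 - kap m k)) = b := by
    intro t u ht hu htu
    exact E_inv ![t, u] ![t0, u0] (indep_pair ht hu htu) (indep_pair ht0 hu0 htu0)
      (fun x => (x 0 ^ 2 - kap m k) * (x 1 ^ 2 - kap m k))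
  -- relation between a and b
  have hrel : a + (2 ^ m - 2) * b = 0 := by
    have h1 : E (fun S : Sub (G m) k => (ss S.1 t0 ^ 2 - kap m k) *
        ∑ t : G m, (if t = 0 then 0 else ss S.1 t ^ 2 - kap m k)) = 0 := by
      have : ∀ S : Sub (G m) k, (ss S.1 t0 ^ 2 - kap m k) *
        ∑ t : G m, (if t = 0 then 0 else ss S.1 t ^ 2 - kap m k) = 0 := by
        intro S; rw [parseval_kap (by omega) S, mul_zero]
      simp only [this]
      unfold E; simp
    have h2 : E (fun S : Sub (G m) k => (ss S.1 t0 ^ 2 - kap m k) *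
        ∑ t : G m, (if t = 0 then 0 else ss S.1 t ^ 2 - kap m k)) =
        ∑ t : G m, (if t = 0 then 0 else (if t = t0 then a else b)) := by
      simp only [Finset.mul_sum]
      rw [E_sum]
      apply Finset.sum_congr rfl
      intro t _
      by_cases h : t = 0
      · simp only [if_pos h, mul_zero]
        unfold E; simp
      · simp only [if_neg h]
        by_cases h' : t = t0
        · subst h'
          rw [if_pos rfl, ha]
          congr 1; funext S; ring
        · rw [if_neg h', ← hB t0 t ht0 h (Ne.symm h')]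
    rw [h1] at h2
    have h3 : ∀ t : G m, (if t = 0 then 0 else (if t = t0 then a else b)) =
        b + (if t = 0 then -b else 0) + (if t = t0 then (a - b) else 0) := by
      intro t
      by_cases h : t = 0
      · subst h
        rw [if_pos rfl, if_pos rfl, if_neg (Ne.symm ht0)]; ring
      · rw [if_neg h, if_neg h]
        split_ifs <;> ring
    simp only [h3] at h2
    rw [Finset.sum_add_distrib, Finset.sum_add_distrib] at h2
    simp only [Finset.sum_const, Finset.card_univ, card_G, nsmul_eq_mul, Finset.sum_ite_eq',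
      Finset.mem_univ, if_true] at h2
    push_cast at h2
    linarith
  have ha0 : 0 ≤ a := E_nonneg fun _ => sq_nonneg _
  have h4m : (4:ℝ) ≤ 2 ^ m := by
    calc (4:ℝ) = 2 ^ 2 := by norm_num
      _ ≤ 2 ^ m := pow_le_pow_right₀ (by norm_num) hm
  have hb0 : b ≤ 0 := by
    by_contra h
    push Not at h
    have : 0 < (2 ^ m - 2) * b := mul_pos (by linarith) h
    linarith
  have hba : -b ≤ a := by
    have : a = (2 ^ m - 2) * (-b) := by linarith
    rw [this]
    have h5 : 0 ≤ -b := by linarith
    nlinarith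
  have ha80 : a ≤ 80 * (k:ℝ) ^ 2 := by
    have hkap : 0 ≤ kap m k := by
      unfold kap
      apply div_nonneg
      · apply mul_nonneg (Nat.cast_nonneg _)
        have : (k:ℝ) ≤ 2 ^ m := by exact_mod_cast hk2
        linarith
      · linarith
    have h6 : E (fun S : Sub (G m) k => ss S.1 t0 ^ 2 - kap m k) = 0 := by
      have hC : ∀ t : G m, t ≠ 0 → E (fun S : Sub (G m) k => ss S.1 t ^ 2 - kap m k) =
          E (fun S : Sub (G m) k => ss S.1 t0 ^ 2 - kap m k) := by
        intro t ht
        exact E_inv ![t] ![t0] (indep_single ht) (indep_single ht0) (fun x => (x 0 ^ 2 - kap m k))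
      have h7 : E (fun S : Sub (G m) k =>
          ∑ t : G m, (if t = 0 then 0 else ss S.1 t ^ 2 - kap m k)) = 0 := by
        simp only [parseval_kap (show 1 ≤ m by omega)]
        unfold E; simp
      rw [E_sum] at h7
      have h8 : ∀ t : G m, E (fun S : Sub (G m) k => (if t = 0 then 0 else ss S.1 t ^ 2 - kap m k)) =
          E (fun S : Sub (G m) k => ss S.1 t0 ^ 2 - kap m k) -
          (if t = 0 then E (fun S : Sub (G m) k => ss S.1 t0 ^ 2 - kap m k) else 0) := by
        intro t
        by_cases h : t = 0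
        · simp only [if_pos h, sub_self]
          unfold E; simp
        · simp only [if_neg h, sub_zero]
          exact hC t h
      simp only [h8] at h7
      rw [Finset.sum_sub_distrib] at h7
      simp only [Finset.sum_const, Finset.card_univ, card_G, nsmul_eq_mul, Finset.sum_ite_eq',
        Finset.mem_univ, if_true] at h7
      push_cast at h7
      have h9 : (2 ^ m - 1) * E (fun S : Sub (G m) k => ss S.1 t0 ^ 2 - kap m k) = 0 := by linarith
      rcases mul_eq_zero.mp h9 with h | h
      · linarith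
      · exact h
    have h10 : a ≤ E (fun S : Sub (G m) k => ss S.1 t0 ^ 4) := by
      have h11 : ∀ S : Sub (G m) k, (ss S.1 t0 ^ 2 - kap m k) ^ 2 ≤
          ss S.1 t0 ^ 4 - 2 * kap m k * (ss S.1 t0 ^ 2 - kap m k) := by
        intro S
        nlinarith [sq_nonneg (kap m k)]
      have h12 := E_mono h11
      rw [E_sub, E_mul_left, h6] at h12
      linarith
    exact le_trans h10 (ss_four ht0 k hk)
  have hmain : E (fun S : Sub (G m) k => (∑ t, c t * (ss S.1 t ^ 2 - kap m k)) ^ 2) =
      b * (∑ t, c t) ^ 2 + (a - b) * ∑ t, c t ^ 2 := by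
    have h13 : ∀ S : Sub (G m) k, (∑ t, c t * (ss S.1 t ^ 2 - kap m k)) ^ 2 =
        ∑ t, ∑ u, (c t * c u) * ((ss S.1 t ^ 2 - kap m k) * (ss S.1 u ^ 2 - kap m k)) := by
      intro S
      rw [sq, Finset.sum_mul]
      apply Finset.sum_congr rfl
      intro t _
      rw [Finset.mul_sum]
      apply Finset.sum_congr rfl
      intro u _
      ring
    simp only [h13]
    rw [E_sum]
    have h14 : ∀ t : G m, E (fun S : Sub (G m) k => ∑ u, (c t * c u) *
        ((ss S.1 t ^ 2 - kap m k) * (ss S.1 u ^ 2 - kap m k))) =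
        c t * (b * ∑ u, c u) + (a - b) * c t ^ 2 := by
      intro t
      rw [E_sum]
      have h15 : ∀ u : G m, E (fun S : Sub (G m) k => (c t * c u) *
        ((ss S.1 t ^ 2 - kap m k) * (ss S.1 u ^ 2 - kap m k))) =
          c t * (b * c u) + (if u = t then (a - b) * c t ^ 2 else 0) := by
        intro u
        rw [E_mul_left]
        by_cases ht : t = 0
        · subst ht
          rw [hc]; simp
        · by_cases hu : u = 0
          · subst hu
            rw [hc, if_neg (Ne.symm ht)]; simp
          · by_cases htu : u = t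
            · subst htu
              rw [if_pos rfl, ← hA u hu]
              have h16 : E (fun S : Sub (G m) k => (ss S.1 u ^ 2 - kap m k) * (ss S.1 u ^ 2 - kap m k)) =
                  E (fun S : Sub (G m) k => (ss S.1 u ^ 2 - kap m k) ^ 2) := by
                congr 1; funext S; ring
              rw [h16]; ring
            · rw [if_neg htu, hB t u ht hu (Ne.symm htu)]; ring
      simp only [h15]
      rw [Finset.sum_add_distrib]
      simp only [Finset.sum_ite_eq', Finset.mem_univ, if_true]
      simp only [← Finset.mul_sum]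
    simp only [h14]
    rw [Finset.sum_add_distrib, ← Finset.sum_mul, ← Finset.mul_sum]
    ring
  rw [hmain]
  have h17 : 0 ≤ ∑ t, c t ^ 2 := Finset.sum_nonneg fun _ _ => sq_nonneg _
  have h18 : b * (∑ t, c t) ^ 2 ≤ 0 := mul_nonpos_of_nonpos_of_nonneg hb0 (sq_nonneg _)
  have h19 : (a - b) * ∑ t, c t ^ 2 ≤ (160 * (k:ℝ) ^ 2) * ∑ t, c t ^ 2 := by
    apply mul_le_mul_of_nonneg_right _ h17
    linarith
  linarith

end Srht
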