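import Mathlib
import Pool.Agent.Lib.Helper57.Srht.Samp
import Pool.Agent.Lib.Helper57.Srht.Op

/-! First moment bound for a random sub-sum of projections, sampled without replacement. -/

open Finset Matrix
open scoped Matrix.Norms.L2Operator

set_option linter.unusedSectionVars false
set_option linter.unnecessarySeqFocus false

namespace Srht

section perm
variable {α : Type} [Fintype α] [DecidableEq α]

lemma exists_perm_map (S T : Finset α) (h : S.card = T.card) :
    ∃ σ : Equiv.Perm α, S.map σ.toEmbedding = T := by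
  have e : {x // x ∈ S} ≃ {x // x ∈ T} := Fintype.equivOfCardEq (by simpa using h)
  refine ⟨e.extendSubtype, ?_⟩
  apply Finset.eq_of_subset_of_card_le
  · intro y hy
    rw [Finset.mem_map] at hy
    obtain ⟨x, hx, rfl⟩ := hy
    exact e.extendSubtype_mem x hx
  · rw [Finset.card_map, h]

lemma E_sub_eq_perm {k : ℕ} (S₀ : Sub α k) (F : Finset α → ℝ) :
    E (fun S : Sub α k => F S.1) =
      E (fun π : Equiv.Perm α => F (S₀.1.map π.toEmbedding)) := by
  have h1 : ∀ S : Sub α k, E (fun π : Equiv.Perm α => F (S.1.map π.toEmbedding)) =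
      E (fun π : Equiv.Perm α => F (S₀.1.map π.toEmbedding)) := by
    intro S
    obtain ⟨σ, hσ⟩ := exists_perm_map S₀.1 S.1 (by rw [S₀.2, S.2])
    rw [← E_equiv (Equiv.mulRight σ) (fun π : Equiv.Perm α => F (S₀.1.map π.toEmbedding))]
    congr 1
    funext π
    rw [← hσ, Finset.map_map]
    congr 1
  have h2 : E (fun S : Sub α k => F S.1) =
      E (fun π : Equiv.Perm α => E (fun S : Sub α k => F (S.1.map π.toEmbedding))) := by
    simp only [E_perm]
    rw [E_const]
  have hne : Nonempty (Sub α k) := ⟨S₀⟩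
  rw [h2, E_comm]
  simp only [h1]
  rw [E_const]

end perm

variable {α κ : Type} [Fintype α] [DecidableEq α] [Fintype κ] [DecidableEq κ]

/-- First moment of the norm of a sub-sum of projections. -/
theorem K_first_moment (P : α → Matrix κ κ ℝ) (hsym : ∀ u, (P u)ᵀ = P u)
    (hproj : ∀ u x, ∑ a, ((P u).mulVec x a) ^ 2 ≤ x ⬝ᵥ (P u).mulVec x) (lam : ℝ) (hlam : 0 ≤ lam)
    (hsum : ∀ x : κ → ℝ, ∑ u, x ⬝ᵥ (P u).mulVec x ≤ Fintype.card α * lam * ∑ a, x a ^ 2)
    (q : ℕ) (hq : 0 < q) (hd : (Fintype.card κ : ℝ) ≤ Real.exp q) (k : ℕ) (hk : 0 < k)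
    (hkn : k ≤ Fintype.card α) :
    E (fun S : Sub α k => ‖∑ u ∈ S.1, P u‖) ≤ 4 * k * lam + 88 * q := by
  classical
  set n := Fintype.card α with hn
  obtain ⟨B', hB'⟩ : ∃ B', n / k = B' + 1 := by
    have : 0 < n / k := Nat.div_pos hkn hk
    exact ⟨n / k - 1, by omega⟩
  have hkB : k * (B' + 1) ≤ n := by rw [← hB']; exact Nat.mul_div_le n k
  have hnB : (n:ℝ) ≤ 2 * k * (B' + 1) := by
    have h1 : n < k * (n / k + 1) := by
      have := Nat.div_add_mod n k
      have h2 := Nat.mod_lt n hk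
      calc n = k * (n / k) + n % k := this.symm
        _ < k * (n / k) + k := by omega
        _ = k * (n / k + 1) := by ring
    rw [hB'] at h1
    have h2 : (n:ℝ) < k * ((B':ℝ) + 1 + 1) := by exact_mod_cast h1
    have h3 : (0:ℝ) ≤ k * B' := by positivity
    nlinarith
  obtain ⟨f⟩ : Nonempty (Fin k × Fin (B' + 1) ↪ α) := by
    apply Function.Embedding.nonempty_of_card_le
    simpa using hkB
  -- the base set
  have hinj : Function.Injective (fun i : Fin k => f (i, 0)) := by
    intro i j h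
    have := f.injective h
    simpa using this
  set S₀ : Sub α k := ⟨Finset.univ.map ⟨fun i : Fin k => f (i, 0), hinj⟩, by simp⟩ with hS₀
  set K : Fin (B' + 1) → Equiv.Perm α → Matrix κ κ ℝ := fun b π => ∑ i : Fin k, P (π (f (i, b))) with hK
  have hK0 : ∀ π : Equiv.Perm α, ∑ u ∈ S₀.1.map π.toEmbedding, P u = K 0 π := by
    intro π
    rw [hS₀, hK]
    simp [Finset.sum_map]
  rw [E_sub_eq_perm S₀ (fun S => ‖∑ u ∈ S, P u‖)]
  simp only [hK0]
  set kb := E (fun π : Equiv.Perm α => ‖K 0 π‖) with hkb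
  -- swaps
  obtain ⟨τ, hτf⟩ : ∃ τ : Fin (B' + 1) → (Fin k → Bool) → Equiv.Perm α, ∀ b e i c,
      τ b e (f (i, c)) = f (i, (if e i = true then Equiv.refl (Fin (B' + 1)) else Equiv.swap 0 b) c) := by
    refine ⟨fun b e => Equiv.Perm.viaFintypeEmbedding
      (Equiv.prodCongrRight (fun i : Fin k => if e i = true then Equiv.refl (Fin (B' + 1)) else Equiv.swap 0 b)
      : Equiv.Perm (Fin k × Fin (B' + 1))) f, ?_⟩
    intro b e i c
    simp only
    rw [Equiv.Perm.viaFintypeEmbedding_apply_image]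
    rfl
  have hmr : ∀ (b : Fin (B' + 1)) (e : Fin k → Bool) (π : Equiv.Perm α) (x : α),
      (Equiv.mulRight (τ b e) π) x = π (τ b e x) := fun _ _ _ _ => rfl
  have hsw : ∀ b, E (fun π : Equiv.Perm α => ‖K b π‖) = kb := by
    intro b
    have hKs : ∀ π : Equiv.Perm α, K 0 (Equiv.mulRight (τ b (fun _ => false)) π) = K b π := by
      intro π
      rw [hK]
      apply Finset.sum_congr rfl
      intro i _
      rw [hmr, hτf]
      simp
    rw [hkb, ← E_equiv (Equiv.mulRight (τ b (fun _ => false))) (fun π : Equiv.Perm α => ‖K 0 π‖)]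
    simp only [hKs]
  have hqf : ∀ (b : Fin (B' + 1)) (π : Equiv.Perm α) (x : κ → ℝ), x ⬝ᵥ (K b π).mulVec x =
      ∑ i : Fin k, x ⬝ᵥ (P (π (f (i, b)))).mulVec x := by
    intro b π x
    rw [hK]
    simp only [Matrix.sum_mulVec, dotProduct_sum]
  have hqf0 : ∀ u x, 0 ≤ x ⬝ᵥ (P u).mulVec x := fun u x =>
    le_trans (Finset.sum_nonneg fun _ _ => sq_nonneg _) (hproj u x)
  have hmain : ∀ b, E (fun π : Equiv.Perm α => ‖K 0 π - K b π‖) ≤ kb / 2 + 44 * q := by
    intro b
    set A : Equiv.Perm α → Fin k → Matrix κ κ ℝ := fun π i => P (π (f (i, 0))) - P (π (f (i, b))) with hA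
    have h1 : E (fun π : Equiv.Perm α => ‖K 0 π - K b π‖) =
        E (fun π : Equiv.Perm α => E (fun e : Fin k → Bool => ‖rad (A π) e‖)) := by
      rw [E_comm]
      have h2 : ∀ e : Fin k → Bool, E (fun π : Equiv.Perm α => ‖rad (A π) e‖) =
          E (fun π : Equiv.Perm α => ‖K 0 π - K b π‖) := by
        intro e
        have hKs : ∀ π : Equiv.Perm α, K 0 (Equiv.mulRight (τ b e) π) - K b (Equiv.mulRight (τ b e) π)
            = rad (A π) e := by
          intro π
          rw [hK]
          simp only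
          rw [← Finset.sum_sub_distrib]
          unfold rad
          apply Finset.sum_congr rfl
          intro i _
          rw [hmr, hmr, hτf, hτf, hA]
          by_cases he : e i = true
          · simp [he, sg]
          · simp [he, sg]
        rw [← E_equiv (Equiv.mulRight (τ b e)) (fun π : Equiv.Perm α => ‖K 0 π - K b π‖)]
        simp only [hKs]
      simp only [h2]
      rw [E_const]
    rw [h1]
    have h4 : ∀ π : Equiv.Perm α, E (fun e : Fin k → Bool => ‖rad (A π) e‖) ≤
        1 / 4 * (‖K 0 π‖ + ‖K b π‖) + 44 * q := by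
      intro π
      set s := ‖K 0 π‖ + ‖K b π‖ with hs
      have hs0 : 0 ≤ s := by positivity
      have hAs : ∀ i, (A π i)ᵀ = A π i := by
        intro i
        rw [hA]
        simp only [Matrix.transpose_sub, hsym]
      have hSig : Sig (A π) (2 * s) := by
        intro x
        have h5 : ∀ i, ∑ a, ((A π i).mulVec x a) ^ 2 ≤
            2 * (x ⬝ᵥ (P (π (f (i, 0)))).mulVec x + x ⬝ᵥ (P (π (f (i, b)))).mulVec x) := by
          intro i
          have h6 := hproj (π (f (i, 0))) x
          have h7 := hproj (π (f (i, b))) x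
          have h8 : ∑ a, ((A π i).mulVec x a) ^ 2 ≤ 2 * (∑ a, ((P (π (f (i, 0)))).mulVec x a) ^ 2 +
              ∑ a, ((P (π (f (i, b)))).mulVec x a) ^ 2) := by
            rw [← Finset.sum_add_distrib, Finset.mul_sum]
            apply Finset.sum_le_sum
            intro a _
            rw [hA]
            simp only [Matrix.sub_mulVec, Pi.sub_apply]
            nlinarith [sq_nonneg ((P (π (f (i, 0)))).mulVec x a + (P (π (f (i, b)))).mulVec x a)]
          linarith
        refine le_trans (Finset.sum_le_sum fun i _ => h5 i) ?_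
        rw [← Finset.mul_sum, Finset.sum_add_distrib, ← hqf, ← hqf]
        have h9 := qf_le (K 0 π) x
        have h10 := qf_le (K b π) x
        rw [hs]
        nlinarith
      have h5 := nck (A π) hAs (2 * s) (by positivity) hSig q
      set t : ℝ := s / 8 + 8 * Real.exp 1 * q with ht
      have hq' : (0:ℝ) < q := by exact_mod_cast hq
      have ht0 : 0 < t := by have := Real.exp_pos 1; positivity
      have h6 : E (fun e : Fin k → Bool => ‖rad (A π) e‖ ^ (2 * q)) ≤ t ^ (2 * q) := by
        have h7 : E (fun e : Fin k → Bool => ‖rad (A π) e‖ ^ (2 * q)) ≤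
            E (fun e : Fin k → Bool => trace (rad (A π) e ^ (2 * q))) :=
          E_mono fun e => opn_pow_le_trace _ (rad_symm _ hAs e) q hq
        refine le_trans h7 (le_trans h5 ?_)
        calc (2 * (q:ℝ) * (2 * s)) ^ q * Fintype.card κ ≤ (2 * q * (2 * s)) ^ q * Real.exp q :=
              mul_le_mul_of_nonneg_left hd (by positivity)
          _ = (4 * Real.exp 1 * q * s) ^ q := by
              have : Real.exp q = (Real.exp 1) ^ q := by
                rw [← Real.exp_nat_mul, mul_one]
              rw [this, ← mul_pow]; congr 1; ring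
          _ ≤ (t ^ 2) ^ q := by
              apply pow_le_pow_left₀ (by have := Real.exp_pos 1; positivity)
              rw [ht]
              nlinarith [sq_nonneg (s / 8 - 8 * Real.exp 1 * q)]
          _ = t ^ (2 * q) := by rw [pow_mul]
      have h8 := E_le_of_moment (fun e : Fin k → Bool => ‖rad (A π) e‖) (fun _ => norm_nonneg _) t ht0 q hq h6
      have h9 : Real.exp 1 < 2.72 := lt_trans Real.exp_one_lt_d9 (by norm_num)
      have h10 : 2 * t ≤ 1 / 4 * s + 44 * q := by
        rw [ht]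
        nlinarith
      linarith
    refine le_trans (E_mono h4) ?_
    have : Nonempty (Equiv.Perm α) := ⟨1⟩
    rw [E_add, E_const, E_mul_left, E_add, hsw 0, hsw b]
    linarith
  -- the average of the blocks
  have hB0 : (0:ℝ) < (B':ℝ) + 1 := by positivity
  have havg : ∀ π : Equiv.Perm α, ‖K 0 π‖ ≤ 2 * k * lam +
      ∑ b : Fin (B' + 1), (1 / ((B':ℝ) + 1)) * ‖K 0 π - K b π‖ := by
    intro π
    have h1 : K 0 π = (1 / ((B':ℝ) + 1)) • ∑ b, K b π + ∑ b, (1 / ((B':ℝ) + 1)) • (K 0 π - K b π) := by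
      rw [← Finset.smul_sum, ← smul_add, Finset.sum_sub_distrib]
      simp only [Finset.sum_const, Finset.card_univ, Fintype.card_fin]
      rw [add_sub_cancel, ← Nat.cast_smul_eq_nsmul ℝ, smul_smul]
      push_cast
      rw [one_div, inv_mul_cancel₀ hB0.ne', one_smul]
    have h2 : ‖(1 / ((B':ℝ) + 1)) • ∑ b, K b π‖ ≤ 2 * k * lam := by
      have hKs : ∀ b, (K b π)ᵀ = K b π := by
        intro b
        rw [hK]
        simp only [Matrix.transpose_sum, hsym]
      have hq1 : ∀ x : κ → ℝ, x ⬝ᵥ ((1 / ((B':ℝ) + 1)) • ∑ b, K b π).mulVec x =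
          (1 / ((B':ℝ) + 1)) * ∑ b, ∑ i : Fin k, x ⬝ᵥ (P (π (f (i, b)))).mulVec x := by
        intro x
        rw [Matrix.smul_mulVec, Matrix.sum_mulVec, dotProduct_smul, dotProduct_sum]
        simp only [hqf, smul_eq_mul]
      have hsy : ((1 / ((B':ℝ) + 1)) • ∑ b, K b π)ᵀ = (1 / ((B':ℝ) + 1)) • ∑ b, K b π := by
        simp only [Matrix.transpose_smul, Matrix.transpose_sum, hKs]
      apply psd_norm_le _ hsy _ (by positivity)
      · intro x
        rw [hq1]
        exact mul_nonneg (by positivity) (Finset.sum_nonneg fun b _ => Finset.sum_nonneg fun i _ => hqf0 _ _)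
      · intro x
        rw [hq1]
        have h3 : ∑ b, ∑ i : Fin k, x ⬝ᵥ (P (π (f (i, b)))).mulVec x ≤ ∑ u, x ⬝ᵥ (P u).mulVec x := by
          rw [Finset.sum_comm, ← Finset.sum_product']
          have h4 : ∑ p ∈ (Finset.univ ×ˢ Finset.univ : Finset (Fin k × Fin (B' + 1))), x ⬝ᵥ (P (π (f (p.1, p.2)))).mulVec x
              = ∑ u ∈ (Finset.univ : Finset (Fin k × Fin (B' + 1))).map (f.trans π.toEmbedding), x ⬝ᵥ (P u).mulVec x := by
            rw [Finset.sum_map]
            simp
          rw [h4]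
          exact Finset.sum_le_sum_of_subset_of_nonneg (Finset.subset_univ _) fun u _ _ => hqf0 u x
        have h5 := le_trans h3 (hsum x)
        have hx0 : 0 ≤ ∑ a, x a ^ 2 := Finset.sum_nonneg fun _ _ => sq_nonneg _
        calc (1 / ((B':ℝ) + 1)) * ∑ b, ∑ i : Fin k, x ⬝ᵥ (P (π (f (i, b)))).mulVec x
            ≤ (1 / ((B':ℝ) + 1)) * (n * lam * ∑ a, x a ^ 2) :=
              mul_le_mul_of_nonneg_left h5 (by positivity)
          _ ≤ (1 / ((B':ℝ) + 1)) * ((2 * k * (B' + 1)) * lam * ∑ a, x a ^ 2) := by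
              apply mul_le_mul_of_nonneg_left _ (by positivity)
              apply mul_le_mul_of_nonneg_right _ hx0
              exact mul_le_mul_of_nonneg_right hnB hlam
          _ = 2 * k * lam * ∑ a, x a ^ 2 := by field_simp
    have h3 : ‖∑ b, (1 / ((B':ℝ) + 1)) • (K 0 π - K b π)‖ ≤
        ∑ b : Fin (B' + 1), (1 / ((B':ℝ) + 1)) * ‖K 0 π - K b π‖ := by
      refine le_trans (norm_sum_le _ _) (Finset.sum_le_sum fun b _ => ?_)
      rw [norm_smul, Real.norm_of_nonneg (by positivity)]
    calc ‖K 0 π‖ = ‖(1 / ((B':ℝ) + 1)) • ∑ b, K b π + ∑ b, (1 / ((B':ℝ) + 1)) • (K 0 π - K b π)‖ := by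
          rw [← h1]
      _ ≤ _ := le_trans (norm_add_le _ _) (add_le_add h2 h3)
  have hfin := E_mono havg
  have : Nonempty (Equiv.Perm α) := ⟨1⟩
  rw [E_add, E_const, E_sum, ← hkb] at hfin
  have h5 : ∑ b : Fin (B' + 1), E (fun π : Equiv.Perm α => (1 / ((B':ℝ) + 1)) * ‖K 0 π - K b π‖) ≤
      kb / 2 + 44 * q := by
    have h6 : ∀ b : Fin (B' + 1), E (fun π : Equiv.Perm α => (1 / ((B':ℝ) + 1)) * ‖K 0 π - K b π‖) ≤
        (1 / ((B':ℝ) + 1)) * (kb / 2 + 44 * q) := by
      intro b
      rw [E_mul_left]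
      exact mul_le_mul_of_nonneg_left (hmain b) (by positivity)
    refine le_trans (Finset.sum_le_sum fun b _ => h6 b) ?_
    rw [Finset.sum_const, Finset.card_univ, Fintype.card_fin, nsmul_eq_mul]
    push_cast
    apply le_of_eq
    field_simp
  linarith

end Srht
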