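import Mathlib
import Pool.Agent.Lib.Helper57.Srht.Op

/-! A lattice net of the unit sphere. -/

open Finset Matrix
open scoped Matrix.Norms.L2Operator

set_option linter.unusedSectionVars false
set_option linter.unnecessarySeqFocus false

namespace Srht

variable {κ : Type} [Fintype κ] [DecidableEq κ]

lemma sym_norm_le (Y : Matrix κ κ ℝ) (hY : Yᵀ = Y) (c : ℝ) (hc : 0 ≤ c)
    (h1 : ∀ x : κ → ℝ, |x ⬝ᵥ Y.mulVec x| ≤ c * ∑ a, x a ^ 2) : ‖Y‖ ≤ c := by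
  obtain ⟨P, y, hP1, hP2, hPY⟩ := spec Y hY
  have hy : ∀ a, |y a| ≤ c := by
    intro a
    have hx : ∀ b, Pᵀ.mulVec (P.mulVec (Pi.single a 1)) b = if b = a then 1 else 0 := by
      intro b
      rw [Matrix.mulVec_mulVec, hP2, Matrix.one_mulVec, Pi.single_apply]
    have h2 : (P.mulVec (Pi.single a 1)) ⬝ᵥ Y.mulVec (P.mulVec (Pi.single a 1)) = y a := by
      have h4 : ∀ v : κ → ℝ, v ⬝ᵥ (P * diagonal y * Pᵀ).mulVec v =
          ∑ b, y b * (Pᵀ.mulVec v b) ^ 2 := by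
        intro v
        rw [← Matrix.mulVec_mulVec, ← Matrix.mulVec_mulVec, Matrix.dotProduct_mulVec,
          ← Matrix.mulVec_transpose]
        unfold dotProduct
        apply Finset.sum_congr rfl
        intro b _
        rw [Matrix.mulVec_diagonal]; ring
      rw [hPY, h4]
      simp only [hx]
      simp
    have h3 : ∑ b, (P.mulVec (Pi.single a 1)) b ^ 2 = 1 := by
      rw [← orth_sum_sq P hP1]
      simp only [hx]
      simp
    have h5 := h1 (P.mulVec (Pi.single a 1))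
    rw [h2] at h5
    rw [h3] at h5
    linarith
  have h6 : ‖Y‖ ^ 2 ≤ c ^ 2 := by
    apply opn_le _ _ (sq_nonneg _)
    intro x
    rw [hPY, spec_mulVec_sq P y hP1 hP2, ← orth_sum_sq P hP1 x, Finset.mul_sum]
    apply Finset.sum_le_sum
    intro a _
    apply mul_le_mul_of_nonneg_right _ (sq_nonneg _)
    rw [← sq_abs]
    exact pow_le_pow_left₀ (abs_nonneg _) (hy a) 2
  exact le_of_sq_le_sq h6 hc

lemma abs_qf_le (Y : Matrix κ κ ℝ) (x z : κ → ℝ) :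
    (x ⬝ᵥ Y.mulVec z) ^ 2 ≤ ‖Y‖ ^ 2 * (∑ a, x a ^ 2) * (∑ a, z a ^ 2) := by
  have h1 : (x ⬝ᵥ Y.mulVec z) ^ 2 ≤ (∑ a, x a ^ 2) * ∑ a, (Y.mulVec z a) ^ 2 :=
    Finset.sum_mul_sq_le_sq_mul_sq _ _ _
  have h2 := opn_mulVec Y z
  have h3 : 0 ≤ ∑ a, x a ^ 2 := Finset.sum_nonneg fun _ _ => sq_nonneg _
  calc (x ⬝ᵥ Y.mulVec z) ^ 2 ≤ (∑ a, x a ^ 2) * ∑ a, (Y.mulVec z a) ^ 2 := h1
    _ ≤ (∑ a, x a ^ 2) * (‖Y‖ ^ 2 * ∑ b, z b ^ 2) := mul_le_mul_of_nonneg_left h2 h3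
    _ = _ := by ring

/-- integer points -/
noncomputable def netZ (r : ℕ) : Finset (Fin r → ℤ) :=
  (Fintype.piFinset fun _ => Finset.Icc (-(21 * r : ℤ)) (21 * r)).filter
    (fun z => (∑ i, (z i : ℝ) ^ 2) ≤ 81 / 4 * r)

/-- the associated vector. -/
noncomputable def hz {r : ℕ} (z : Fin r → ℤ) : Fin r → ℝ := fun i => z i / (4 * Real.sqrt r)

lemma sum_exp_int (M : ℕ) : ∑ j ∈ Finset.Icc (-(M:ℤ)) M, Real.exp (-((j:ℝ) ^ 2)) ≤
    3 - 2 * (1 / 2) ^ M := by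
  induction M with
  | zero => simp; norm_num
  | succ M ih =>
    have h1 : Finset.Icc (-((M + 1 : ℕ):ℤ)) ((M + 1 : ℕ):ℤ) =
        insert (-((M:ℤ) + 1)) (insert ((M:ℤ) + 1) (Finset.Icc (-(M:ℤ)) M)) := by
      ext j
      simp only [Finset.mem_Icc, Finset.mem_insert]
      push_cast
      omega
    rw [h1, Finset.sum_insert, Finset.sum_insert]
    · have h2 : Real.exp (-(((M:ℤ) + 1 : ℤ) : ℝ) ^ 2) ≤ (1 / 2) ^ (M + 1) := by
        have h3 : Real.exp (-(1:ℝ)) ≤ 1 / 2 := by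
          rw [Real.exp_neg]
          have := Real.exp_one_gt_d9
          rw [inv_le_comm₀ (Real.exp_pos _) (by norm_num)]
          norm_num
          linarith
        calc Real.exp (-(((M:ℤ) + 1 : ℤ) : ℝ) ^ 2) ≤ Real.exp (((M + 1 : ℕ) : ℝ) * (-1)) := by
              apply Real.exp_le_exp.mpr
              push_cast
              nlinarith [(Nat.cast_nonneg M : (0:ℝ) ≤ M)]
          _ = (Real.exp (-1)) ^ (M + 1) := by rw [Real.exp_nat_mul]
          _ ≤ (1 / 2) ^ (M + 1) := pow_le_pow_left₀ (Real.exp_pos _).le h3 _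
      have h4 : Real.exp (-(((-((M:ℤ) + 1) : ℤ) : ℝ)) ^ 2) = Real.exp (-(((M:ℤ) + 1 : ℤ) : ℝ) ^ 2) := by
        congr 1
        push_cast; ring
      rw [h4]
      have h5 : ((1:ℝ) / 2) ^ (M + 1) = (1 / 2) ^ M * (1 / 2) := pow_succ _ _
      rw [h5] at h2 ⊢
      linarith
    · simp
    · simp only [Finset.mem_insert, Finset.mem_Icc]
      omega

lemma card_netZ (r : ℕ) : ((netZ r).card : ℝ) ≤ Real.exp (22 * r) := by
  have h1 : ((netZ r).card : ℝ) = ∑ z ∈ netZ r, (1:ℝ) := by simp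
  rw [h1]
  have h2 : ∀ z ∈ netZ r, (1:ℝ) ≤ Real.exp (81 / 4 * r) * ∏ i, Real.exp (-((z i : ℝ) ^ 2)) := by
    intro z hz
    have h3 := (Finset.mem_filter.mp hz).2
    rw [← Real.exp_sum, ← Real.exp_add]
    apply Real.one_le_exp
    rw [Finset.sum_neg_distrib]
    linarith
  refine le_trans (Finset.sum_le_sum h2) ?_
  rw [← Finset.mul_sum]
  have h4 : ∑ z ∈ netZ r, ∏ i, Real.exp (-((z i : ℝ) ^ 2)) ≤
      ∑ z ∈ (Fintype.piFinset fun _ : Fin r => Finset.Icc (-(21 * r : ℤ)) (21 * r)),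
        ∏ i, Real.exp (-((z i : ℝ) ^ 2)) := by
    apply Finset.sum_le_sum_of_subset_of_nonneg (Finset.filter_subset _ _)
    intro z _ _
    exact Finset.prod_nonneg fun _ _ => (Real.exp_pos _).le
  have h5 : ∑ z ∈ (Fintype.piFinset fun _ : Fin r => Finset.Icc (-(21 * r : ℤ)) (21 * r)),
        ∏ i, Real.exp (-((z i : ℝ) ^ 2)) = ∏ _i : Fin r, ∑ j ∈ Finset.Icc (-(21 * r : ℤ)) (21 * r),
          Real.exp (-((j:ℝ) ^ 2)) := by
    rw [Finset.prod_univ_sum]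
  have h6 : ∑ j ∈ Finset.Icc (-(21 * r : ℤ)) (21 * r), Real.exp (-((j:ℝ) ^ 2)) ≤ 3 := by
    have := sum_exp_int (21 * r)
    push_cast at this
    have h7 : (0:ℝ) < (1 / 2) ^ (21 * r) := by positivity
    linarith
  have h8 : ∏ _i : Fin r, ∑ j ∈ Finset.Icc (-(21 * r : ℤ)) (21 * r), Real.exp (-((j:ℝ) ^ 2)) ≤
      (Real.exp (7/4)) ^ r := by
    rw [Finset.prod_const, Finset.card_univ, Fintype.card_fin]
    apply pow_le_pow_left₀ (Finset.sum_nonneg fun _ _ => (Real.exp_pos _).le)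
    refine le_trans h6 ?_
    have h9 : (3:ℝ) ^ 4 ≤ (Real.exp (7/4)) ^ 4 := by
      rw [← Real.exp_nat_mul]
      have h10 : ((4:ℕ):ℝ) * (7/4) = ((7:ℕ):ℝ) * 1 := by norm_num
      rw [h10, Real.exp_nat_mul]
      have h11 := Real.exp_one_gt_d9
      calc (3:ℝ) ^ 4 ≤ (2.7) ^ 7 := by norm_num
        _ ≤ (Real.exp 1) ^ 7 := pow_le_pow_left₀ (by norm_num) (by linarith) 7
    exact le_of_pow_le_pow_left₀ (by norm_num) (Real.exp_pos _).le h9
  calc Real.exp (81 / 4 * r) * ∑ z ∈ netZ r, ∏ i, Real.exp (-((z i : ℝ) ^ 2))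
      ≤ Real.exp (81 / 4 * r) * (Real.exp (7/4)) ^ r := by
        apply mul_le_mul_of_nonneg_left _ (Real.exp_pos _).le
        linarith
    _ = Real.exp (22 * r) := by
        rw [← Real.exp_nat_mul, ← Real.exp_add]; congr 1; ring

lemma hz_sq {r : ℕ} (hr : 0 < r) (z : Fin r → ℤ) (hz' : z ∈ netZ r) :
    ∑ i, hz z i ^ 2 ≤ 81 / 64 := by
  have h3 := (Finset.mem_filter.mp hz').2
  have hr' : (0:ℝ) < r := by exact_mod_cast hr
  unfold hz
  have h4 : ∀ i, ((z i : ℝ) / (4 * Real.sqrt r)) ^ 2 = (z i : ℝ) ^ 2 / (16 * r) := by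
    intro i
    rw [div_pow, mul_pow, Real.sq_sqrt hr'.le]; norm_num
  simp only [h4]
  rw [← Finset.sum_div, div_le_iff₀ (by positivity)]
  linarith

lemma exists_net {r : ℕ} (hr : 0 < r) (g : Fin r → ℝ) (hg : ∑ i, g i ^ 2 = 1) :
    ∃ z ∈ netZ r, ∑ i, (g i - hz z i) ^ 2 ≤ 1 / 64 := by
  have hr' : (0:ℝ) < r := by exact_mod_cast hr
  have hs : 0 < Real.sqrt r := Real.sqrt_pos.mpr hr'
  have hs2 : Real.sqrt r ^ 2 = r := Real.sq_sqrt hr'.le
  set z : Fin r → ℤ := fun i => round (4 * Real.sqrt r * g i) with hzdef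
  have h1 : ∀ i, (4 * Real.sqrt r * g i - z i) ^ 2 ≤ 1 / 4 := by
    intro i
    have := abs_sub_round (4 * Real.sqrt r * g i)
    rw [← sq_abs]
    calc |4 * Real.sqrt r * g i - z i| ^ 2 ≤ (1 / 2) ^ 2 := pow_le_pow_left₀ (abs_nonneg _) this 2
      _ = 1 / 4 := by norm_num
  have h2 : ∑ i, (4 * Real.sqrt r * g i - z i) ^ 2 ≤ (r:ℝ) / 4 := by
    refine le_trans (Finset.sum_le_sum fun i _ => h1 i) ?_
    simp; linarith
  have h3 : ∑ i, (g i - hz z i) ^ 2 ≤ 1 / 64 := by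
    have h4 : ∀ i, (g i - hz z i) ^ 2 = (4 * Real.sqrt r * g i - z i) ^ 2 / (16 * r) := by
      intro i
      unfold hz
      have : g i - z i / (4 * Real.sqrt r) = (4 * Real.sqrt r * g i - z i) / (4 * Real.sqrt r) := by
        field_simp
      rw [this, div_pow, mul_pow, hs2]; norm_num
    simp only [h4]
    rw [← Finset.sum_div, div_le_iff₀ (by positivity)]
    linarith
  refine ⟨z, ?_, h3⟩
  -- norm of z
  have h5 : ∑ i, (z i : ℝ) ^ 2 ≤ 81 / 4 * r := by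
    -- |z| ≤ |4√r g| + |z - 4 √r g| ≤ 4√r + √r/2
    have h6 : ∑ i, (4 * Real.sqrt r * g i) ^ 2 = 16 * (r:ℝ) := by
      have : ∀ i, (4 * Real.sqrt r * g i) ^ 2 = 16 * (r:ℝ) * g i ^ 2 := by
        intro i; rw [mul_pow, mul_pow, hs2]; norm_num
      simp only [this]
      rw [← Finset.mul_sum, hg]; ring
    have h7 : ∀ i, (z i : ℝ) ^ 2 ≤ (1 + 1/8) * (4 * Real.sqrt r * g i) ^ 2 +
        (1 + 8) * (4 * Real.sqrt r * g i - z i) ^ 2 := by
      intro i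
      nlinarith [sq_nonneg ((4 * Real.sqrt r * g i) / 8 + (4 * Real.sqrt r * g i - z i))]
    refine le_trans (Finset.sum_le_sum fun i _ => h7 i) ?_
    rw [Finset.sum_add_distrib, ← Finset.mul_sum, ← Finset.mul_sum, h6]
    linarith
  unfold netZ
  rw [Finset.mem_filter]
  refine ⟨?_, h5⟩
  rw [Fintype.mem_piFinset]
  intro i
  rw [Finset.mem_Icc]
  have h8 : (z i : ℝ) ^ 2 ≤ 81 / 4 * r :=
    le_trans (Finset.single_le_sum (f := fun i => (z i : ℝ) ^ 2) (fun _ _ => sq_nonneg _) (Finset.mem_univ i)) h5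
  have hr1 : (1:ℝ) ≤ r := by exact_mod_cast hr
  have h9 : |(z i : ℝ)| ≤ 21 * r := by
    apply abs_le_of_sq_le_sq _ (by positivity)
    nlinarith
  rw [abs_le] at h9
  constructor
  · exact_mod_cast h9.1
  · exact_mod_cast h9.2

/-- The lattice net controls a symmetric quadratic form. -/
theorem net_bound {r : ℕ} (hr : 0 < r) (T : Matrix (Fin r) (Fin r) ℝ) (hT : Tᵀ = T) (b : ℝ)
    (hb : ∀ z ∈ netZ r, |hz z ⬝ᵥ T.mulVec (hz z)| ≤ b) (x : Fin r → ℝ) :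
    |x ⬝ᵥ T.mulVec x| ≤ 64 / 47 * b * ∑ i, x i ^ 2 := by
  set τ := ‖T‖ with hτ
  have hτ0 : 0 ≤ τ := norm_nonneg _
  have hunit : ∀ g : Fin r → ℝ, ∑ i, g i ^ 2 = 1 → |g ⬝ᵥ T.mulVec g| ≤ b + 17 / 64 * τ := by
    intro g hg
    obtain ⟨z, hz1, hz2⟩ := exists_net hr g hg
    have h1 := hb z hz1
    set h := hz z with hh
    have hhsq := hz_sq hr z hz1
    have h2 : g ⬝ᵥ T.mulVec g - h ⬝ᵥ T.mulVec h = (g - h) ⬝ᵥ T.mulVec (g + h) := by
      rw [Matrix.mulVec_add, sub_dotProduct, dotProduct_add, dotProduct_add]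
      have : g ⬝ᵥ T.mulVec h = h ⬝ᵥ T.mulVec g := by
        rw [Matrix.dotProduct_mulVec, ← Matrix.mulVec_transpose, hT, dotProduct_comm]
      rw [this]; ring
    have h3 := abs_qf_le T (g - h) (g + h)
    have h4 : ∑ a, (g - h) a ^ 2 ≤ 1 / 64 := hz2
    have h5 : ∑ a, (g + h) a ^ 2 ≤ (17 / 8) ^ 2 := by
      have h6 : ∀ a, (g + h) a ^ 2 ≤ (1 + 9/8) * g a ^ 2 + (1 + 8/9) * h a ^ 2 := by
        intro a
        rw [Pi.add_apply]
        nlinarith [sq_nonneg (g a * 9 - h a * 8)]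
      refine le_trans (Finset.sum_le_sum fun a _ => h6 a) ?_
      rw [Finset.sum_add_distrib, ← Finset.mul_sum, ← Finset.mul_sum, hg]
      linarith
    have h7 : ((g - h) ⬝ᵥ T.mulVec (g + h)) ^ 2 ≤ (17 / 64 * τ) ^ 2 := by
      refine le_trans h3 ?_
      have h8 : 0 ≤ ∑ a, (g - h) a ^ 2 := Finset.sum_nonneg fun _ _ => sq_nonneg _
      have h9 : 0 ≤ ∑ a, (g + h) a ^ 2 := Finset.sum_nonneg fun _ _ => sq_nonneg _
      calc ‖T‖ ^ 2 * (∑ a, (g - h) a ^ 2) * ∑ a, (g + h) a ^ 2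
          ≤ ‖T‖ ^ 2 * (1 / 64) * (17 / 8) ^ 2 := by
            apply mul_le_mul _ h5 h9 (by positivity)
            exact mul_le_mul_of_nonneg_left h4 (by positivity)
        _ = (17 / 64 * τ) ^ 2 := by rw [← hτ]; ring
    have h8 := abs_le_of_sq_le_sq h7 (by positivity)
    have h9 : g ⬝ᵥ T.mulVec g = h ⬝ᵥ T.mulVec h + (g - h) ⬝ᵥ T.mulVec (g + h) := by
      rw [← h2]; ring
    rw [h9]
    exact le_trans (abs_add_le _ _) (by linarith)
  have hb0 : 0 ≤ b + 17 / 64 * τ := by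
    have hne : (Pi.single ⟨0, hr⟩ 1 : Fin r → ℝ) = Pi.single ⟨0, hr⟩ 1 := rfl
    have := hunit (Pi.single ⟨0, hr⟩ 1) (by simp [Pi.single_apply])
    exact le_trans (abs_nonneg _) this
  have hall : ∀ x : Fin r → ℝ, |x ⬝ᵥ T.mulVec x| ≤ (b + 17 / 64 * τ) * ∑ a, x a ^ 2 := by
    intro x
    by_cases hx : ∑ a, x a ^ 2 = 0
    · have : x = 0 := by
        funext a
        have := (Finset.sum_eq_zero_iff_of_nonneg (fun a _ => sq_nonneg (x a))).mp hx a (Finset.mem_univ a)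
        simpa using this
      rw [this]; simp
    · have hx0 : 0 < ∑ a, x a ^ 2 :=
        lt_of_le_of_ne (Finset.sum_nonneg fun _ _ => sq_nonneg _) (Ne.symm hx)
      set s := Real.sqrt (∑ a, x a ^ 2) with hs
      have hs0 : 0 < s := Real.sqrt_pos.mpr hx0
      have hs2 : s ^ 2 = ∑ a, x a ^ 2 := Real.sq_sqrt hx0.le
      have h1 := hunit (s⁻¹ • x) (by
        simp only [Pi.smul_apply, smul_eq_mul, mul_pow]
        rw [← Finset.mul_sum, ← hs2, inv_pow, inv_mul_cancel₀ (by positivity)])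
      rw [Matrix.mulVec_smul, smul_dotProduct, dotProduct_smul, smul_eq_mul, smul_eq_mul, abs_mul,
        abs_mul, abs_of_pos (inv_pos.mpr hs0)] at h1
      have h2 : |x ⬝ᵥ T.mulVec x| = s ^ 2 * (s⁻¹ * (s⁻¹ * |x ⬝ᵥ T.mulVec x|)) := by
        field_simp
      rw [h2, hs2, mul_comm (b + 17 / 64 * τ)]
      exact mul_le_mul_of_nonneg_left h1 hx0.le
  have hτb : τ ≤ b + 17 / 64 * τ := sym_norm_le T hT _ hb0 hall
  have h1 := hall x
  refine le_trans h1 ?_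
  apply mul_le_mul_of_nonneg_right _ (Finset.sum_nonneg fun _ _ => sq_nonneg _)
  linarith

end Srht
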