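import Mathlib
import Pool.Agent.Lib.Helper57.Srht.Kbound
import Pool.Agent.Lib.Helper57.Srht.Net

/-! The model: the quadratic form of the rerandomized transform. -/

open Finset Matrix
open scoped Matrix.Norms.L2Operator

set_option linter.unusedSectionVars false
set_option linter.unnecessarySeqFocus false

namespace Srht

variable {m r : ℕ}

lemma ss_two (hm : 1 ≤ m) {t : G m} (ht : t ≠ 0) (k : ℕ) (hk : k ≤ 2 ^ m) :
    E (fun S : Sub (G m) k => ss S.1 t ^ 2) = kap m k := by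
  have hne : Nonempty (Sub (G m) k) := by
    obtain ⟨s, _, hs⟩ := Finset.exists_subset_card_eq (s := (Finset.univ : Finset (G m))) (n := k)
      (by rw [Finset.card_univ, card_G]; exact hk)
    exact ⟨⟨s, hs⟩⟩
  have h1m : (1:ℝ) < 2 ^ m := by
    calc (1:ℝ) < 2 ^ 1 := by norm_num
      _ ≤ 2 ^ m := pow_le_pow_right₀ (by norm_num) hm
  have hC : ∀ u : G m, u ≠ 0 → E (fun S : Sub (G m) k => ss S.1 u ^ 2 - kap m k) =
      E (fun S : Sub (G m) k => ss S.1 t ^ 2 - kap m k) := by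
    intro u hu
    exact E_inv ![u] ![t] (indep_single hu) (indep_single ht) (fun x => (x 0 ^ 2 - kap m k))
  have h7 : E (fun S : Sub (G m) k =>
      ∑ t : G m, (if t = 0 then 0 else ss S.1 t ^ 2 - kap m k)) = 0 := by
    simp only [parseval_kap hm]
    unfold E; simp
  rw [E_sum] at h7
  have h8 : ∀ u : G m, E (fun S : Sub (G m) k => (if u = 0 then 0 else ss S.1 u ^ 2 - kap m k)) =
      E (fun S : Sub (G m) k => ss S.1 t ^ 2 - kap m k) -
      (if u = 0 then E (fun S : Sub (G m) k => ss S.1 t ^ 2 - kap m k) else 0) := by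
    intro u
    by_cases h : u = 0
    · simp only [if_pos h, sub_self]
      unfold E; simp
    · simp only [if_neg h, sub_zero]
      exact hC u h
  simp only [h8] at h7
  rw [Finset.sum_sub_distrib] at h7
  simp only [Finset.sum_const, Finset.card_univ, card_G, nsmul_eq_mul, Finset.sum_ite_eq',
    Finset.mem_univ, if_true] at h7
  push_cast at h7
  have h9 : (2 ^ m - 1) * E (fun S : Sub (G m) k => ss S.1 t ^ 2 - kap m k) = 0 := by linarith
  rcases mul_eq_zero.mp h9 with h | h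
  · linarith
  · rw [E_sub, E_const] at h
    linarith

/-- `MᵀM - I` as an `n × n` kernel (off-diagonal part). -/
noncomputable def Nm (k : ℕ) (S : Finset (G m)) (e : G m → Bool) : Matrix (G m) (G m) ℝ :=
  Matrix.of fun y y' => if y = y' then 0 else ss S (y + y') * sg (e y) * sg (e y') / k

/-- the projections `D_u Q D_u`. -/
noncomputable def Pm (U : Matrix (G m) (Fin r) ℝ) (u : G m) : Matrix (G m) (G m) ℝ :=
  Matrix.of fun y y' => chi u y * chi u y' * (U * Uᵀ) y y'

lemma UUT_symm (U : Matrix (G m) (Fin r) ℝ) : (U * Uᵀ)ᵀ = U * Uᵀ := by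
  rw [Matrix.transpose_mul, Matrix.transpose_transpose]

lemma Pm_symm (U : Matrix (G m) (Fin r) ℝ) (u : G m) : (Pm U u)ᵀ = Pm U u := by
  ext y y'
  have h : (U * Uᵀ) y' y = (U * Uᵀ) y y' := by
    have := congrFun (congrFun (UUT_symm U) y) y'
    rwa [Matrix.transpose_apply] at this
  rw [Matrix.transpose_apply, Pm, Matrix.of_apply, Matrix.of_apply, h]
  ring

lemma Pm_mulVec (U : Matrix (G m) (Fin r) ℝ) (u : G m) (x : G m → ℝ) (y : G m) :
    (Pm U u).mulVec x y = chi u y * (U.mulVec (Uᵀ.mulVec (fun y' => chi u y' * x y'))) y := by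
  rw [Matrix.mulVec_mulVec]
  unfold Matrix.mulVec dotProduct
  rw [Finset.mul_sum]
  apply Finset.sum_congr rfl
  intro y' _
  simp only [Pm, Matrix.of_apply]
  ring

lemma dot_sq (x : G m → ℝ) : x ⬝ᵥ x = ∑ y, x y ^ 2 := by
  simp [dotProduct, sq]

lemma Pm_qf (U : Matrix (G m) (Fin r) ℝ) (u : G m) (x : G m → ℝ) :
    x ⬝ᵥ (Pm U u).mulVec x = ∑ a, (Uᵀ.mulVec (fun y' => chi u y' * x y') a) ^ 2 := by
  set x' : G m → ℝ := fun y' => chi u y' * x y' with hx'
  have h1 : x ⬝ᵥ (Pm U u).mulVec x = x' ⬝ᵥ U.mulVec (Uᵀ.mulVec x') := by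
    unfold dotProduct
    apply Finset.sum_congr rfl
    intro y _
    rw [Pm_mulVec]
    simp only [hx']
    ring
  rw [h1, Matrix.dotProduct_mulVec, ← Matrix.mulVec_transpose]
  simp [dotProduct, sq]

lemma Pm_proj (U : Matrix (G m) (Fin r) ℝ) (hU : Uᵀ * U = 1) (u : G m) (x : G m → ℝ) :
    ∑ y, ((Pm U u).mulVec x y) ^ 2 ≤ x ⬝ᵥ (Pm U u).mulVec x := by
  rw [Pm_qf]
  set x' : G m → ℝ := fun y' => chi u y' * x y' with hx'
  have h1 : ∀ y, ((Pm U u).mulVec x y) ^ 2 = (U.mulVec (Uᵀ.mulVec x') y) ^ 2 := by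
    intro y
    rw [Pm_mulVec, mul_pow, chi_sq, one_mul]
  simp only [h1]
  rw [← dot_sq, Matrix.dotProduct_mulVec, ← Matrix.mulVec_transpose, Matrix.mulVec_mulVec, hU,
    Matrix.one_mulVec]
  simp [dotProduct, sq]

lemma sum_Pm (U : Matrix (G m) (Fin r) ℝ) (x : G m → ℝ) :
    ∑ u, x ⬝ᵥ (Pm U u).mulVec x = 2 ^ m * ∑ y, (∑ a, U y a ^ 2) * x y ^ 2 := by
  have h1 : ∀ u, x ⬝ᵥ (Pm U u).mulVec x = ∑ y, ∑ y', chi u (y + y') * (x y * x y' * (U * Uᵀ) y y') := by
    intro u
    unfold dotProduct Matrix.mulVec dotProduct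
    apply Finset.sum_congr rfl
    intro y _
    rw [Finset.mul_sum]
    apply Finset.sum_congr rfl
    intro y' _
    simp only [Pm, Matrix.of_apply]
    rw [chi_add_right]; ring
  simp only [h1]
  rw [Finset.sum_comm, Finset.mul_sum]
  apply Finset.sum_congr rfl
  intro y _
  rw [Finset.sum_comm]
  have h2 : ∀ y', ∑ u, chi u (y + y') * (x y * x y' * (U * Uᵀ) y y') =
      if y = y' then 2 ^ m * (x y * x y' * (U * Uᵀ) y y') else 0 := by
    intro y'
    rw [← Finset.sum_mul, sum_chi]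
    simp only [G_add_eq_zero_iff]
    split_ifs <;> ring
  simp only [h2]
  rw [Finset.sum_ite_eq]
  simp only [Finset.mem_univ, if_true]
  have h3 : (U * Uᵀ) y y = ∑ a, U y a ^ 2 := by
    rw [Matrix.mul_apply]
    apply Finset.sum_congr rfl
    intro a _
    rw [Matrix.transpose_apply]; ring
  rw [h3]; ring

/-- the sampled kernel. -/
noncomputable def Km (U : Matrix (G m) (Fin r) ℝ) (S : Finset (G m)) : Matrix (G m) (G m) ℝ :=
  ∑ u ∈ S, Pm U u

lemma Km_apply (U : Matrix (G m) (Fin r) ℝ) (S : Finset (G m)) (y y' : G m) :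
    Km U S y y' = ss S (y + y') * (U * Uᵀ) y y' := by
  unfold Km ss
  rw [Matrix.sum_apply, Finset.sum_mul]
  apply Finset.sum_congr rfl
  intro u _
  simp only [Pm, Matrix.of_apply]
  rw [chi_add_right]

lemma Km_first_moment (hm : 0 < m) (U : Matrix (G m) (Fin r) ℝ) (hU : Uᵀ * U = 1) (lam : ℝ)
    (hlam0 : 0 ≤ lam) (hlam : ∀ y, ∑ a, U y a ^ 2 ≤ lam) (k : ℕ) (hk : 0 < k) (hkn : k ≤ 2 ^ m) :
    E (fun S : Sub (G m) k => ‖Km U S.1‖) ≤ 4 * k * lam + 88 * m := by
  apply K_first_moment (Pm U) (Pm_symm U) (Pm_proj U hU) lam hlam0 _ m hm _ k hk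
  · rw [card_G]; exact hkn
  · intro x
    rw [sum_Pm, card_G]
    push_cast
    rw [mul_assoc]
    apply mul_le_mul_of_nonneg_left _ (by positivity)
    rw [Finset.mul_sum]
    apply Finset.sum_le_sum
    intro y _
    exact mul_le_mul_of_nonneg_right (hlam y) (sq_nonneg _)
  · rw [card_G]
    push_cast
    rw [← Real.exp_one_pow]
    apply pow_le_pow_left₀ (by norm_num)
    have := Real.exp_one_gt_d9
    linarith

end Srht
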