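import Mathlib
import Pool.Agent.Lib.Helper57.Srht.Model

/-! Small dimension regime. -/

open Finset Matrix
open scoped Matrix.Norms.L2Operator

set_option linter.unusedSectionVars false
set_option linter.unnecessarySeqFocus false

namespace Srht

variable {m r : ℕ}

/-! ### The kernel norm when `k² r λ` is small -/

noncomputable def Wm (U : Matrix (G m) (Fin r) ℝ) (S : Finset (G m)) : Matrix (G m) (G m × Fin r) ℝ :=
  Matrix.of fun y p => if p.1 ∈ S then chi p.1 y * U y p.2 else 0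

lemma Km_eq (U : Matrix (G m) (Fin r) ℝ) (S : Finset (G m)) : Km U S = Wm U S * (Wm U S)ᵀ := by
  ext y y'
  rw [Km_apply, Matrix.mul_apply, Matrix.mul_apply, Fintype.sum_prod_type]
  unfold ss
  have h1 : ∀ u : G m, ∑ a : Fin r, Wm U S y (u, a) * (Wm U S)ᵀ (u, a) y' =
      if u ∈ S then ∑ a : Fin r, chi u (y + y') * (U y a * U y' a) else 0 := by
    intro u
    split_ifs with h
    · apply Finset.sum_congr rfl
      intro a _
      simp only [Wm, Matrix.of_apply, Matrix.transpose_apply, h, if_true]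
      rw [chi_add_right]; ring
    · apply Finset.sum_eq_zero
      intro a _
      simp only [Wm, Matrix.of_apply, Matrix.transpose_apply, h, if_false, zero_mul]
  simp only [h1]
  rw [Finset.sum_ite_mem, Finset.univ_inter, Finset.sum_mul]
  apply Finset.sum_congr rfl
  intro u _
  rw [← Finset.mul_sum]
  rfl

lemma col_norm (U : Matrix (G m) (Fin r) ℝ) (hU : Uᵀ * U = 1) (a : Fin r) :
    ∑ y, U y a ^ 2 = 1 := by
  have h := congrFun (congrFun hU a) a
  rw [Matrix.mul_apply, Matrix.one_apply_eq] at h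
  rw [← h]
  apply Finset.sum_congr rfl
  intro y _
  rw [Matrix.transpose_apply]; ring

lemma frob_mul_comm (W : Matrix (G m) (G m × Fin r) ℝ) : frob (Wᵀ * W) = frob (W * Wᵀ) := by
  rw [frob_eq_trace, frob_eq_trace]
  simp only [Matrix.transpose_mul, Matrix.transpose_transpose]
  have h1 : Wᵀ * W * (Wᵀ * W) = Wᵀ * (W * Wᵀ * W) := by simp only [Matrix.mul_assoc]
  rw [h1, Matrix.trace_mul_comm]
  simp only [Matrix.mul_assoc]

lemma K_small (U : Matrix (G m) (Fin r) ℝ) (hU : Uᵀ * U = 1) {k : ℕ} (S : Sub (G m) k) :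
    0 ≤ frob (Km U S.1) - k * r ∧ (frob (Km U S.1) - k * r ≤ 1 → ‖Km U S.1‖ ≤ 2) := by
  set W := Wm U S.1 with hW
  set D : Matrix (G m × Fin r) (G m × Fin r) ℝ := diagonal (fun p => if p.1 ∈ S.1 then 1 else 0) with hD
  have hdiag : ∀ p : G m × Fin r, (Wᵀ * W) p p = if p.1 ∈ S.1 then 1 else 0 := by
    intro p
    rw [Matrix.mul_apply]
    split_ifs with h
    · rw [← col_norm U hU p.2]
      apply Finset.sum_congr rfl
      intro y _
      simp only [hW, Wm, Matrix.of_apply, Matrix.transpose_apply, h, if_true]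
      have := chi_sq p.1 y
      linear_combination (U y p.2 ^ 2) * this
    · apply Finset.sum_eq_zero
      intro y _
      simp only [hW, Wm, Matrix.of_apply, Matrix.transpose_apply, h, if_false, zero_mul]
  have hfr : frob (Wᵀ * W - D) = frob (Km U S.1) - k * r := by
    rw [Km_eq, ← hW, ← frob_mul_comm]
    have h1 : ∀ p q : G m × Fin r, (Wᵀ * W - D) p q ^ 2 = (Wᵀ * W) p q ^ 2 -
        (if p = q then (if p.1 ∈ S.1 then 1 else 0) else 0) := by
      intro p q
      rw [Matrix.sub_apply, hD, Matrix.diagonal_apply]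
      by_cases hpq : p = q
      · subst hpq
        rw [if_pos rfl, hdiag]
        split_ifs <;> norm_num
      · rw [if_neg hpq]; ring
    unfold frob
    simp only [h1]
    simp only [Finset.sum_sub_distrib]
    congr 1
    simp only [Finset.sum_ite_eq, Finset.mem_univ, if_true]
    rw [Fintype.sum_prod_type]
    have h2 : ∀ u : G m, ∑ _a : Fin r, (if u ∈ S.1 then (1:ℝ) else 0) = if u ∈ S.1 then (r:ℝ) else 0 := by
      intro u
      split_ifs <;> simp
    simp only [h2]
    rw [Finset.sum_ite_mem, Finset.univ_inter, Finset.sum_const, S.2, nsmul_eq_mul]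
  refine ⟨by rw [← hfr]; exact frob_nonneg _, ?_⟩
  intro hle
  have h1 : ‖Wᵀ * W - D‖ ≤ 1 := by
    have h2 := opn_sq_le_frob (Wᵀ * W - D)
    rw [hfr] at h2
    have h3 : ‖Wᵀ * W - D‖ ^ 2 ≤ 1 ^ 2 := by linarith
    exact le_of_sq_le_sq h3 (by norm_num)
  have h2 : ‖D‖ ≤ 1 := by
    rw [hD, Matrix.l2_opNorm_diagonal]
    apply (pi_norm_le_iff_of_nonneg (by norm_num)).mpr
    intro p
    split_ifs <;> simp
  have h3 : ‖Wᵀ * W‖ ≤ 2 := by
    have : Wᵀ * W = D + (Wᵀ * W - D) := by abel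
    rw [this]
    exact le_trans (norm_add_le _ _) (by linarith)
  have h4 : ‖W‖ * ‖W‖ = ‖Wᵀ * W‖ := by
    rw [← Matrix.l2_opNorm_conjTranspose_mul_self, Matrix.conjTranspose_eq_transpose_of_trivial]
  have h5 : ‖Wᵀ‖ = ‖W‖ := by
    rw [← Matrix.conjTranspose_eq_transpose_of_trivial, Matrix.l2_opNorm_conjTranspose]
  rw [Km_eq, ← hW]
  refine le_trans (Matrix.l2_opNorm_mul _ _) ?_
  rw [h5, h4]
  exact h3

lemma kap_le (hm : 1 ≤ m) {k : ℕ} (hk : 0 < k) (hkn : k ≤ 2 ^ m) : kap m k ≤ k ∧ 0 ≤ kap m k := by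
  have h1m : (1:ℝ) < 2 ^ m := by
    calc (1:ℝ) < 2 ^ 1 := by norm_num
      _ ≤ 2 ^ m := pow_le_pow_right₀ (by norm_num) hm
  have hk1 : (1:ℝ) ≤ k := by exact_mod_cast hk
  have hkn' : (k:ℝ) ≤ 2 ^ m := by exact_mod_cast hkn
  unfold kap
  constructor
  · rw [div_le_iff₀ (by linarith)]
    nlinarith
  · apply div_nonneg
    · exact mul_nonneg (by linarith) (by linarith)
    · linarith

lemma trace_UUT (U : Matrix (G m) (Fin r) ℝ) (hU : Uᵀ * U = 1) : ∑ y, (U * Uᵀ) y y = r := by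
  have : trace (U * Uᵀ) = r := by
    rw [Matrix.trace_mul_comm, hU, Matrix.trace_one]; simp
  exact this

lemma frob_UUT (U : Matrix (G m) (Fin r) ℝ) (hU : Uᵀ * U = 1) :
    ∑ y, ∑ y', (U * Uᵀ) y y' ^ 2 = r := by
  have : frob (U * Uᵀ) = r := by
    rw [frob_eq_trace, UUT_symm]
    have h1 : U * Uᵀ * (U * Uᵀ) = U * (Uᵀ * U) * Uᵀ := by simp only [Matrix.mul_assoc]
    rw [h1, hU, Matrix.mul_one, Matrix.trace_mul_comm, hU, Matrix.trace_one]; simp
  exact this

lemma UUT_diag (U : Matrix (G m) (Fin r) ℝ) (y : G m) : (U * Uᵀ) y y = ∑ a, U y a ^ 2 := by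
  rw [Matrix.mul_apply]
  apply Finset.sum_congr rfl
  intro a _
  rw [Matrix.transpose_apply]; ring

lemma E_frob_K (hm : 1 ≤ m) (U : Matrix (G m) (Fin r) ℝ) (hU : Uᵀ * U = 1) (lam : ℝ)
    (hlam : ∀ y, ∑ a, U y a ^ 2 ≤ lam) {k : ℕ} (hk : 0 < k) (hkn : k ≤ 2 ^ m) :
    E (fun S : Sub (G m) k => frob (Km U S.1) - k * r) ≤ k ^ 2 * lam * r := by
  have hne : Nonempty (Sub (G m) k) := by
    obtain ⟨s, _, hs⟩ := Finset.exists_subset_card_eq (s := (Finset.univ : Finset (G m))) (n := k)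
      (by rw [Finset.card_univ, card_G]; exact hkn)
    exact ⟨⟨s, hs⟩⟩
  rw [E_sub, E_const]
  have h1 : E (fun S : Sub (G m) k => frob (Km U S.1)) ≤ k ^ 2 * lam * r + k * r := by
    unfold frob
    rw [E_sum]
    have h2 : ∀ y : G m, E (fun S : Sub (G m) k => ∑ y', Km U S.1 y y' ^ 2) ≤
        k ^ 2 * lam * (U * Uᵀ) y y + k * ∑ y', (U * Uᵀ) y y' ^ 2 := by
      intro y
      rw [E_sum]
      have h3 : ∀ y' : G m, E (fun S : Sub (G m) k => Km U S.1 y y' ^ 2) ≤
          (if y = y' then k ^ 2 * (U * Uᵀ) y y' ^ 2 else 0) + k * (U * Uᵀ) y y' ^ 2 := by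
        intro y'
        have h4 : ∀ S : Sub (G m) k, Km U S.1 y y' ^ 2 = (U * Uᵀ) y y' ^ 2 * ss S.1 (y + y') ^ 2 := by
          intro S; rw [Km_apply]; ring
        simp only [h4]
        rw [E_mul_left]
        by_cases h : y = y'
        · subst h
          rw [if_pos rfl, G_add_self]
          have : ∀ S : Sub (G m) k, ss S.1 0 ^ 2 = (k:ℝ) ^ 2 := by
            intro S; rw [ss_zero, S.2]
          simp only [this]
          rw [E_const]
          have : 0 ≤ (k:ℝ) * (U * Uᵀ) y y ^ 2 := by positivity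
          linarith
        · rw [if_neg h, ss_two hm (fun h' => h ((G_add_eq_zero_iff _ _).mp h')) k hkn, zero_add,
            mul_comm]
          exact mul_le_mul_of_nonneg_right (kap_le hm hk hkn).1 (sq_nonneg _)
      refine le_trans (Finset.sum_le_sum fun y' _ => h3 y') ?_
      rw [Finset.sum_add_distrib, Finset.sum_ite_eq]
      simp only [Finset.mem_univ, if_true]
      rw [← Finset.mul_sum]
      have h5 : (U * Uᵀ) y y ^ 2 ≤ lam * (U * Uᵀ) y y := by
        rw [sq]
        apply mul_le_mul_of_nonneg_right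
        · rw [UUT_diag]; exact hlam y
        · rw [UUT_diag]; exact Finset.sum_nonneg fun _ _ => sq_nonneg _
      have h6 : (k:ℝ) ^ 2 * (U * Uᵀ) y y ^ 2 ≤ (k:ℝ) ^ 2 * (lam * (U * Uᵀ) y y) :=
        mul_le_mul_of_nonneg_left h5 (sq_nonneg _)
      linarith
    refine le_trans (Finset.sum_le_sum fun y _ => h2 y) ?_
    rw [Finset.sum_add_distrib, ← Finset.mul_sum, ← Finset.mul_sum, trace_UUT U hU, frob_UUT U hU]
  linarith

/-! ### The Frobenius statistics -/

/-- entries of `u_y u_yᵀ` -/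
def phi (U : Matrix (G m) (Fin r) ℝ) (y : G m) (p : Fin r × Fin r) : ℝ := U y p.1 * U y p.2

noncomputable def cc (U : Matrix (G m) (Fin r) ℝ) (p p' : Fin r × Fin r) (t : G m) : ℝ :=
  if t = 0 then 0 else ∑ y, phi U y p * phi U (y + t) p'

/-- the statistic controlling all Frobenius norms. -/
noncomputable def Phi (U : Matrix (G m) (Fin r) ℝ) (k : ℕ) (S : Finset (G m)) : ℝ :=
  ∑ p, ∑ p', (∑ t, cc U p p' t * (ss S t ^ 2 - kap m k)) ^ 2

lemma phi_abs_le (U : Matrix (G m) (Fin r) ℝ) (lam : ℝ) (hlam : ∀ y, ∑ a, U y a ^ 2 ≤ lam)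
    (y : G m) (p : Fin r × Fin r) : |phi U y p| ≤ lam := by
  have h1 : ∀ a, U y a ^ 2 ≤ lam := fun a =>
    le_trans (Finset.single_le_sum (f := fun a => U y a ^ 2) (fun _ _ => sq_nonneg _) (Finset.mem_univ a)) (hlam y)
  unfold phi
  rw [abs_mul]
  have := h1 p.1
  have := h1 p.2
  rw [← sq_abs] at *
  nlinarith [sq_nonneg (|U y p.1| - |U y p.2|), sq_abs (U y p.1), sq_abs (U y p.2)]

lemma sum_phi_le (U : Matrix (G m) (Fin r) ℝ) (hU : Uᵀ * U = 1) (p : Fin r × Fin r) :
    ∑ y, |phi U y p| ≤ 1 := by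
  have h1 : ∀ y, |phi U y p| ≤ (U y p.1 ^ 2 + U y p.2 ^ 2) / 2 := by
    intro y
    unfold phi
    rw [abs_mul]
    nlinarith [sq_nonneg (|U y p.1| - |U y p.2|), sq_abs (U y p.1), sq_abs (U y p.2)]
  refine le_trans (Finset.sum_le_sum fun y _ => h1 y) ?_
  rw [← Finset.sum_div, Finset.sum_add_distrib, col_norm U hU, col_norm U hU]
  norm_num

lemma cc_sq_le (U : Matrix (G m) (Fin r) ℝ) (hU : Uᵀ * U = 1) (lam : ℝ)
    (hlam : ∀ y, ∑ a, U y a ^ 2 ≤ lam) (p p' : Fin r × Fin r) :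
    ∑ t, cc U p p' t ^ 2 ≤ lam := by
  have hlam0 : 0 ≤ lam := le_trans (Finset.sum_nonneg fun _ _ => sq_nonneg _) (hlam 0)
  set c' : G m → ℝ := fun t => ∑ y, |phi U y p| * |phi U (y + t) p'| with hc'
  have h1 : ∀ t, |cc U p p' t| ≤ c' t := by
    intro t
    unfold cc
    split_ifs with h
    · rw [abs_zero]
      exact Finset.sum_nonneg fun _ _ => mul_nonneg (abs_nonneg _) (abs_nonneg _)
    · refine le_trans (Finset.abs_sum_le_sum_abs _ _) (le_of_eq ?_)
      apply Finset.sum_congr rfl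
      intro y _
      rw [abs_mul]
  have hc0 : ∀ t, 0 ≤ c' t := fun t => le_trans (abs_nonneg _) (h1 t)
  have h2 : ∀ t, c' t ≤ lam := by
    intro t
    calc c' t ≤ ∑ y, |phi U y p| * lam := by
          apply Finset.sum_le_sum
          intro y _
          exact mul_le_mul_of_nonneg_left (phi_abs_le U lam hlam _ _) (abs_nonneg _)
      _ = (∑ y, |phi U y p|) * lam := by rw [Finset.sum_mul]
      _ ≤ 1 * lam := mul_le_mul_of_nonneg_right (sum_phi_le U hU p) hlam0
      _ = lam := one_mul _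
  have h3 : ∑ t, c' t ≤ 1 := by
    rw [hc', Finset.sum_comm]
    have h4 : ∀ y : G m, ∑ t, |phi U y p| * |phi U (y + t) p'| = |phi U y p| * ∑ y', |phi U y' p'| := by
      intro y
      rw [← Finset.mul_sum]
      congr 1
      exact Equiv.sum_comp (Equiv.addLeft y) (fun y' => |phi U y' p'|)
    simp only [h4]
    rw [← Finset.sum_mul]
    have h5 := sum_phi_le U hU p
    have h6 := sum_phi_le U hU p'
    have h7 : 0 ≤ ∑ y', |phi U y' p'| := Finset.sum_nonneg fun _ _ => abs_nonneg _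
    nlinarith
  calc ∑ t, cc U p p' t ^ 2 ≤ ∑ t, lam * c' t := by
        apply Finset.sum_le_sum
        intro t _
        rw [← sq_abs, sq]
        exact mul_le_mul (le_trans (h1 t) (h2 t)) (h1 t) (abs_nonneg _) hlam0
    _ = lam * ∑ t, c' t := by rw [Finset.mul_sum]
    _ ≤ lam * 1 := mul_le_mul_of_nonneg_left h3 hlam0
    _ = lam := mul_one _

lemma E_Phi (hm : 2 ≤ m) (U : Matrix (G m) (Fin r) ℝ) (hU : Uᵀ * U = 1) (lam : ℝ)
    (hlam : ∀ y, ∑ a, U y a ^ 2 ≤ lam) {k : ℕ} (hk : 0 < k) (hkn : k ≤ 2 ^ m) :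
    E (fun S : Sub (G m) k => Phi U k S.1) ≤ 160 * k ^ 2 * lam * r ^ 4 := by
  unfold Phi
  rw [E_sum]
  have h1 : ∀ p : Fin r × Fin r, E (fun S : Sub (G m) k =>
      ∑ p', (∑ t, cc U p p' t * (ss S.1 t ^ 2 - kap m k)) ^ 2) ≤ r ^ 2 * (160 * k ^ 2 * lam) := by
    intro p
    rw [E_sum]
    have h2 : ∀ p' : Fin r × Fin r, E (fun S : Sub (G m) k =>
        (∑ t, cc U p p' t * (ss S.1 t ^ 2 - kap m k)) ^ 2) ≤ 160 * k ^ 2 * lam := by
      intro p'
      refine le_trans (ss_var hm k hk hkn (cc U p p') (by simp [cc])) ?_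
      exact mul_le_mul_of_nonneg_left (cc_sq_le U hU lam hlam p p') (by positivity)
    refine le_trans (Finset.sum_le_sum fun p' _ => h2 p') ?_
    rw [Finset.sum_const, Finset.card_univ, Fintype.card_prod, Fintype.card_fin, nsmul_eq_mul]
    push_cast
    apply le_of_eq; ring
  refine le_trans (Finset.sum_le_sum fun p _ => h1 p) ?_
  rw [Finset.sum_const, Finset.card_univ, Fintype.card_prod, Fintype.card_fin, nsmul_eq_mul]
  push_cast
  apply le_of_eq; ring

lemma U_norm (U : Matrix (G m) (Fin r) ℝ) (hU : Uᵀ * U = 1) (h : Fin r → ℝ) :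
    ∑ y, U.mulVec h y ^ 2 = ∑ a, h a ^ 2 := by
  have h1 : ∑ y, U.mulVec h y ^ 2 = U.mulVec h ⬝ᵥ U.mulVec h := by simp [dotProduct, sq]
  rw [h1, Matrix.dotProduct_mulVec, ← Matrix.mulVec_transpose, Matrix.mulVec_mulVec, hU,
    Matrix.one_mulVec]
  simp [dotProduct, sq]

lemma frob_of_Phi (hm : 1 ≤ m) (U : Matrix (G m) (Fin r) ℝ) (hU : Uᵀ * U = 1) {k : ℕ} (hk : 0 < k)
    (hkn : k ≤ 2 ^ m) (S : Finset (G m)) (hPhi : Phi U k S ≤ k ^ 2) (h : Fin r → ℝ) :
    ∑ y, ∑ y', (if y = y' then 0 else ss S (y + y') ^ 2 * U.mulVec h y ^ 2 * U.mulVec h y' ^ 2) ≤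
      2 * k * (∑ a, h a ^ 2) ^ 2 := by
  set w : G m → ℝ := U.mulVec h with hw
  set η := ∑ a, h a ^ 2 with hη
  have hη0 : 0 ≤ η := Finset.sum_nonneg fun _ _ => sq_nonneg _
  have hwn : ∑ y, w y ^ 2 = η := U_norm U hU h
  set hh : Fin r × Fin r → ℝ := fun p => h p.1 * h p.2 with hhh
  have hwphi : ∀ y, w y ^ 2 = ∑ p, phi U y p * hh p := by
    intro y
    rw [Fintype.sum_prod_type, sq]
    nth_rewrite 1 [hw]
    nth_rewrite 1 [hw]
    unfold Matrix.mulVec dotProduct
    rw [Finset.sum_mul]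
    apply Finset.sum_congr rfl
    intro a _
    rw [Finset.mul_sum]
    apply Finset.sum_congr rfl
    intro b _
    simp only [phi, hhh]; ring
  -- rewrite over differences
  have h1 : ∑ y, ∑ y', (if y = y' then 0 else ss S (y + y') ^ 2 * w y ^ 2 * w y' ^ 2) =
      ∑ t, (if t = 0 then 0 else ss S t ^ 2 * ∑ y, w y ^ 2 * w (y + t) ^ 2) := by
    have h2 : ∀ y : G m, ∑ y', (if y = y' then 0 else ss S (y + y') ^ 2 * w y ^ 2 * w y' ^ 2) =
        ∑ t, (if t = 0 then 0 else ss S t ^ 2 * (w y ^ 2 * w (y + t) ^ 2)) := by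
      intro y
      rw [← Equiv.sum_comp (Equiv.addLeft y)]
      apply Finset.sum_congr rfl
      intro t _
      have h3 : (Equiv.addLeft y) t = y + t := rfl
      rw [h3]
      have h4 : y + (y + t) = t := by rw [← add_assoc, G_add_self, zero_add]
      have h5 : (y = y + t) ↔ t = 0 := by
        constructor
        · intro h; simpa using h
        · rintro rfl; simp
      by_cases ht : t = 0
      · rw [if_pos (h5.mpr ht), if_pos ht]
      · rw [if_neg (fun h => ht (h5.mp h)), if_neg ht, h4]; ring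
    simp only [h2]
    rw [Finset.sum_comm]
    apply Finset.sum_congr rfl
    intro t _
    split_ifs
    · simp
    · rw [Finset.mul_sum]
  rw [h1]
  set om : G m → ℝ := fun t => ∑ y, w y ^ 2 * w (y + t) ^ 2 with hom
  have hom0 : ∀ t, 0 ≤ om t := fun t => Finset.sum_nonneg fun _ _ => by positivity
  have homs : ∑ t, om t = η ^ 2 := by
    rw [hom, Finset.sum_comm]
    have h4 : ∀ y : G m, ∑ t, w y ^ 2 * w (y + t) ^ 2 = w y ^ 2 * η := by
      intro y
      rw [← Finset.mul_sum, ← hwn]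
      congr 1
      exact Equiv.sum_comp (Equiv.addLeft y) (fun y' => w y' ^ 2)
    simp only [h4]
    rw [← Finset.sum_mul, hwn]; ring
  have h6 : ∑ t, (if t = 0 then 0 else ss S t ^ 2 * om t) =
      ∑ t, (if t = 0 then 0 else om t) * (ss S t ^ 2 - kap m k) +
        kap m k * ∑ t, (if t = 0 then 0 else om t) := by
    rw [Finset.mul_sum, ← Finset.sum_add_distrib]
    apply Finset.sum_congr rfl
    intro t _
    split_ifs <;> ring
  rw [h6]
  have h7 : kap m k * ∑ t, (if t = 0 then 0 else om t) ≤ k * η ^ 2 := by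
    have h8 : ∑ t, (if t = 0 then 0 else om t) ≤ η ^ 2 := by
      rw [← homs]
      apply Finset.sum_le_sum
      intro t _
      split_ifs
      · exact hom0 t
      · exact le_rfl
    obtain ⟨h9, h10⟩ := kap_le hm hk hkn
    have h11 : 0 ≤ η ^ 2 := sq_nonneg _
    calc kap m k * ∑ t, (if t = 0 then 0 else om t) ≤ kap m k * η ^ 2 :=
          mul_le_mul_of_nonneg_left h8 h10
      _ ≤ k * η ^ 2 := mul_le_mul_of_nonneg_right h9 h11
  have h12 : ∀ t, (if t = 0 then 0 else om t) = ∑ p, ∑ p', (hh p * hh p') * cc U p p' t := by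
    intro t
    unfold cc
    split_ifs with ht
    · simp
    · rw [hom]
      simp only [hwphi]
      have h13 : ∀ y : G m, (∑ p, phi U y p * hh p) * (∑ p, phi U (y + t) p * hh p) =
          ∑ p, ∑ p', (hh p * hh p') * (phi U y p * phi U (y + t) p') := by
        intro y
        rw [Finset.sum_mul]
        apply Finset.sum_congr rfl
        intro p _
        rw [Finset.mul_sum]
        apply Finset.sum_congr rfl
        intro p' _
        ring
      simp only [h13]
      rw [Finset.sum_comm]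
      apply Finset.sum_congr rfl
      intro p _
      rw [Finset.sum_comm]
      apply Finset.sum_congr rfl
      intro p' _
      rw [Finset.mul_sum]
  have h14 : ∑ t, (if t = 0 then 0 else om t) * (ss S t ^ 2 - kap m k) =
      ∑ q : (Fin r × Fin r) × (Fin r × Fin r), (hh q.1 * hh q.2) *
        (∑ t, cc U q.1 q.2 t * (ss S t ^ 2 - kap m k)) := by
    simp only [h12]
    rw [Fintype.sum_prod_type]
    have h15 : ∀ t, (∑ p, ∑ p', (hh p * hh p') * cc U p p' t) * (ss S t ^ 2 - kap m k) =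
        ∑ p, ∑ p', (hh p * hh p') * (cc U p p' t * (ss S t ^ 2 - kap m k)) := by
      intro t
      rw [Finset.sum_mul]
      apply Finset.sum_congr rfl
      intro p _
      rw [Finset.sum_mul]
      apply Finset.sum_congr rfl
      intro p' _
      ring
    simp only [h15]
    rw [Finset.sum_comm]
    apply Finset.sum_congr rfl
    intro p _
    rw [Finset.sum_comm]
    apply Finset.sum_congr rfl
    intro p' _
    rw [Finset.mul_sum]
  have h16 : (∑ t, (if t = 0 then 0 else om t) * (ss S t ^ 2 - kap m k)) ^ 2 ≤ (k * η ^ 2) ^ 2 := by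
    rw [h14]
    refine le_trans (Finset.sum_mul_sq_le_sq_mul_sq _ _ _) ?_
    have h17 : ∑ q : (Fin r × Fin r) × (Fin r × Fin r), (hh q.1 * hh q.2) ^ 2 = η ^ 4 := by
      rw [Fintype.sum_prod_type]
      have h18 : ∑ p, hh p ^ 2 = η ^ 2 := by
        rw [Fintype.sum_prod_type, sq, hη, Finset.sum_mul]
        apply Finset.sum_congr rfl
        intro a _
        rw [Finset.mul_sum]
        apply Finset.sum_congr rfl
        intro b _
        simp only [hhh]; ring
      have h19 : ∀ p, ∑ p', (hh p * hh p') ^ 2 = hh p ^ 2 * η ^ 2 := by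
        intro p
        rw [← h18, Finset.mul_sum]
        apply Finset.sum_congr rfl
        intro p' _
        ring
      simp only [h19]
      rw [← Finset.sum_mul, h18]; ring
    have h18 : ∑ q : (Fin r × Fin r) × (Fin r × Fin r),
        (∑ t, cc U q.1 q.2 t * (ss S t ^ 2 - kap m k)) ^ 2 = Phi U k S := by
      rw [Fintype.sum_prod_type]; rfl
    rw [h17, h18]
    calc η ^ 4 * Phi U k S ≤ η ^ 4 * k ^ 2 := mul_le_mul_of_nonneg_left hPhi (by positivity)
      _ = (k * η ^ 2) ^ 2 := by ring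
  have h20 := (abs_le_of_sq_le_sq' h16 (by positivity)).2
  linarith

end Srht
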