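import Mathlib
import Pool.Agent.Lib.Helper57.Srht.RegS

/-! Small dimension regime, continued: the union bound. -/

open Finset Matrix
open scoped Matrix.Norms.L2Operator

set_option linter.unusedSectionVars false
set_option linter.unnecessarySeqFocus false

namespace Srht

/-! ### Probabilities -/

open Classical in
/-- indicator. -/
noncomputable def ind (p : Prop) : ℝ := if p then 1 else 0

lemma ind_pos {p : Prop} (h : p) : ind p = 1 := by unfold ind; rw [if_pos h]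
lemma ind_neg {p : Prop} (h : ¬ p) : ind p = 0 := by unfold ind; rw [if_neg h]
lemma ind_nonneg (p : Prop) : 0 ≤ ind p := by
  by_cases h : p
  · rw [ind_pos h]; norm_num
  · rw [ind_neg h]
lemma ind_le_one (p : Prop) : ind p ≤ 1 := by
  by_cases h : p
  · rw [ind_pos h]
  · rw [ind_neg h]; norm_num

/-- Probability of an event under the uniform distribution. -/
noncomputable def Pr {α : Type} [Fintype α] (p : α → Prop) : ℝ := E (fun a => ind (p a))

section pr
variable {α β : Type} [Fintype α] [Fintype β]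

lemma Pr_mono {p q : α → Prop} (h : ∀ a, p a → q a) : Pr p ≤ Pr q := by
  unfold Pr
  apply E_mono
  intro a
  by_cases hp : p a
  · rw [ind_pos hp, ind_pos (h a hp)]
  · rw [ind_neg hp]; exact ind_nonneg _

lemma Pr_nonneg (p : α → Prop) : 0 ≤ Pr p := E_nonneg fun _ => ind_nonneg _

lemma E_const_le (c : ℝ) (hc : 0 ≤ c) : E (fun _ : α => c) ≤ c := by
  by_cases h : Nonempty α
  · rw [E_const]
  · have : IsEmpty α := not_nonempty_iff.mp h
    unfold E; simp [hc]

lemma Pr_le_one (p : α → Prop) : Pr p ≤ 1 :=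
  le_trans (E_mono fun a => ind_le_one (p a)) (E_const_le 1 zero_le_one)

lemma Pr_or (p q : α → Prop) : Pr (fun a => p a ∨ q a) ≤ Pr p + Pr q := by
  unfold Pr
  rw [← E_add]
  apply E_mono
  intro a
  by_cases hp : p a
  · rw [ind_pos (Or.inl hp), ind_pos hp]
    linarith [ind_nonneg (q a)]
  · by_cases hq : q a
    · rw [ind_pos (Or.inr hq), ind_pos hq]
      linarith [ind_nonneg (p a)]
    · rw [ind_neg (not_or.mpr ⟨hp, hq⟩)]
      linarith [ind_nonneg (p a), ind_nonneg (q a)]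

lemma Pr_exists {γ : Type} (s : Finset γ) (p : γ → α → Prop) :
    Pr (fun a => ∃ c ∈ s, p c a) ≤ ∑ c ∈ s, Pr (p c) := by
  unfold Pr
  rw [← E_sum]
  apply E_mono
  intro a
  by_cases h : ∃ c ∈ s, p c a
  · rw [ind_pos h]
    obtain ⟨c, hc, hpc⟩ := h
    calc (1:ℝ) = ind (p c a) := by rw [ind_pos hpc]
      _ ≤ ∑ c ∈ s, ind (p c a) :=
        Finset.single_le_sum (f := fun c => ind (p c a)) (fun c _ => ind_nonneg _) hc
  · rw [ind_neg h]
    exact Finset.sum_nonneg fun c _ => ind_nonneg _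

lemma Pr_markov (F : α → ℝ) (hF : ∀ a, 0 ≤ F a) (t : ℝ) (ht : 0 < t) :
    Pr (fun a => t ≤ F a) ≤ E F / t := by
  have : E F / t = E (fun a => t⁻¹ * F a) := by rw [E_mul_left]; field_simp
  rw [this]
  unfold Pr
  apply E_mono
  intro a
  by_cases h : t ≤ F a
  · rw [ind_pos h, inv_mul_eq_div, le_div_iff₀ ht]; linarith
  · rw [ind_neg h]; exact mul_nonneg (inv_nonneg.mpr ht.le) (hF a)

lemma Pr_prod (p : α × β → Prop) (good : α → Prop) (δ1 δ2 : ℝ) (h2 : 0 ≤ δ2)
    (hg : Pr (fun a => ¬ good a) ≤ δ1) (hb : ∀ a, good a → Pr (fun b => p (a, b)) ≤ δ2) :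
    Pr p ≤ δ1 + δ2 := by
  have h1 : Pr p = E (fun a => Pr (fun b => p (a, b))) := by
    unfold Pr; rw [E_prod]
  rw [h1]
  have h3 : ∀ a, Pr (fun b => p (a, b)) ≤ ind (¬ good a) + δ2 := by
    intro a
    by_cases h : good a
    · rw [ind_neg (not_not.mpr h)]
      linarith [hb a h]
    · rw [ind_pos h]
      linarith [Pr_le_one (fun b => p (a, b))]
  refine le_trans (E_mono h3) ?_
  rw [E_add]
  have h4 : E (fun a => ind (¬ good a)) ≤ δ1 := hg
  have h5 := E_const_le (α := α) δ2 h2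
  linarith

end pr

variable {m r : ℕ}

/-- `MᵀM - I` -/
noncomputable def Tm (U : Matrix (G m) (Fin r) ℝ) (k : ℕ) (S : Finset (G m)) (e : G m → Bool) :
    Matrix (Fin r) (Fin r) ℝ := Uᵀ * Nm k S e * U

lemma Nm_symm (k : ℕ) (S : Finset (G m)) (e : G m → Bool) : (Nm k S e)ᵀ = Nm k S e := by
  ext y y'
  rw [Matrix.transpose_apply]
  simp only [Nm, Matrix.of_apply]
  by_cases h : y = y'
  · subst h; rfl
  · rw [if_neg h, if_neg (Ne.symm h), add_comm y' y]; ring

lemma Tm_symm (U : Matrix (G m) (Fin r) ℝ) (k : ℕ) (S : Finset (G m)) (e : G m → Bool) :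
    (Tm U k S e)ᵀ = Tm U k S e := by
  unfold Tm
  rw [Matrix.transpose_mul, Matrix.transpose_mul, Matrix.transpose_transpose, Nm_symm,
    Matrix.mul_assoc]

lemma Tm_qf (U : Matrix (G m) (Fin r) ℝ) (k : ℕ) (S : Finset (G m)) (e : G m → Bool)
    (h : Fin r → ℝ) :
    h ⬝ᵥ (Tm U k S e).mulVec h = ∑ y, ∑ y', (if y = y' then 0 else
      ss S (y + y') * U.mulVec h y * U.mulVec h y' / k) * sg (e y) * sg (e y') := by
  have h1 : h ⬝ᵥ (Tm U k S e).mulVec h = U.mulVec h ⬝ᵥ (Nm k S e).mulVec (U.mulVec h) := by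
    unfold Tm
    rw [← Matrix.mulVec_mulVec, ← Matrix.mulVec_mulVec, Matrix.dotProduct_mulVec,
      ← Matrix.mulVec_transpose, Matrix.transpose_transpose]
  rw [h1]
  set w := U.mulVec h with hw
  unfold Matrix.mulVec dotProduct
  apply Finset.sum_congr rfl
  intro y _
  rw [Finset.mul_sum]
  apply Finset.sum_congr rfl
  intro y' _
  simp only [Nm, Matrix.of_apply]
  split_ifs <;> ring

lemma sum_ss_sq (S : Finset (G m)) (x : G m → ℝ) :
    ∑ y, ∑ y', ss S (y + y') * x y * x y' = ∑ u ∈ S, (∑ y, chi u y * x y) ^ 2 := by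
  have h1 : ∀ u, (∑ y, chi u y * x y) ^ 2 = ∑ y, ∑ y', chi u (y + y') * (x y * x y') := by
    intro u
    rw [sq, Finset.sum_mul]
    apply Finset.sum_congr rfl
    intro y _
    rw [Finset.mul_sum]
    apply Finset.sum_congr rfl
    intro y' _
    rw [chi_add_right]; ring
  simp only [h1]
  symm
  rw [Finset.sum_comm]
  apply Finset.sum_congr rfl
  intro y _
  rw [Finset.sum_comm]
  apply Finset.sum_congr rfl
  intro y' _
  unfold ss
  rw [← Finset.sum_mul]; ring

lemma chaos_h (U : Matrix (G m) (Fin r) ℝ) {k : ℕ} (hk : 0 < k) (S : Sub (G m) k)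
    (L : ℝ) (hL : ‖Km U S.1‖ ≤ L) (h : Fin r → ℝ)
    (hF : ∑ y, ∑ y', (if y = y' then 0 else ss S.1 (y + y') ^ 2 * U.mulVec h y ^ 2 * U.mulVec h y' ^ 2) ≤
      2 * k * (∑ a, h a ^ 2) ^ 2) (θ : ℝ)
    (hθ : 128 * θ ^ 2 * (4 * ((∑ a, h a ^ 2) * L / k) ^ 2) ≤ 1) :
    E (fun e : G m → Bool => Real.exp (θ * (h ⬝ᵥ (Tm U k S.1 e).mulVec h))) ≤
      Real.exp (32 * θ ^ 2 * (∑ a, h a ^ 2) ^ 2 / k) := by
  set w : G m → ℝ := U.mulVec h with hw
  set η := ∑ a, h a ^ 2 with hη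
  have hη0 : 0 ≤ η := Finset.sum_nonneg fun _ _ => sq_nonneg _
  have hL0 : 0 ≤ L := le_trans (norm_nonneg _) hL
  have hk' : (0:ℝ) < k := by exact_mod_cast hk
  set Bf : Matrix (G m) (G m) ℝ := Matrix.of fun y y' => ss S.1 (y + y') * w y * w y' / k with hBf
  have hqf : ∀ z : G m → ℝ, z ⬝ᵥ Bf.mulVec z = (∑ u ∈ S.1, (∑ y, chi u y * (w y * z y)) ^ 2) / k := by
    intro z
    rw [← sum_ss_sq, Finset.sum_div]
    unfold Matrix.mulVec dotProduct
    apply Finset.sum_congr rfl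
    intro y _
    rw [Finset.mul_sum, Finset.sum_div]
    apply Finset.sum_congr rfl
    intro y' _
    simp only [hBf, Matrix.of_apply]
    ring
  have hBfn : ‖Bf‖ ≤ η * L / k := by
    apply psd_norm_le _ _ _ (by positivity)
    · intro z
      rw [hqf]
      exact div_nonneg (Finset.sum_nonneg fun _ _ => sq_nonneg _) hk'.le
    · intro z
      rw [hqf]
      have h1 : ∀ u ∈ S.1, (∑ y, chi u y * (w y * z y)) ^ 2 ≤ η * (z ⬝ᵥ (Pm U u).mulVec z) := by
        intro u _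
        rw [Pm_qf]
        have h2 : ∑ y, chi u y * (w y * z y) = ∑ a, h a * (Uᵀ.mulVec (fun y' => chi u y' * z y') a) := by
          have h3 : ∑ a, h a * (Uᵀ.mulVec (fun y' => chi u y' * z y') a) =
              h ⬝ᵥ Uᵀ.mulVec (fun y' => chi u y' * z y') := rfl
          rw [h3, Matrix.dotProduct_mulVec, ← Matrix.mulVec_transpose, Matrix.transpose_transpose, ← hw]
          unfold dotProduct
          apply Finset.sum_congr rfl
          intro y _
          ring
        rw [h2]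
        exact Finset.sum_mul_sq_le_sq_mul_sq _ _ _
      have h4 : ∑ u ∈ S.1, z ⬝ᵥ (Pm U u).mulVec z = z ⬝ᵥ (Km U S.1).mulVec z := by
        unfold Km
        rw [Matrix.sum_mulVec, dotProduct_sum]
      have h5 : z ⬝ᵥ (Km U S.1).mulVec z ≤ L * ∑ a, z a ^ 2 :=
        le_trans (qf_le _ z) (mul_le_mul_of_nonneg_right hL (Finset.sum_nonneg fun _ _ => sq_nonneg _))
      calc (∑ u ∈ S.1, (∑ y, chi u y * (w y * z y)) ^ 2) / k
          ≤ (∑ u ∈ S.1, η * (z ⬝ᵥ (Pm U u).mulVec z)) / k :=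
            div_le_div_of_nonneg_right (Finset.sum_le_sum h1) hk'.le
        _ = η * (z ⬝ᵥ (Km U S.1).mulVec z) / k := by rw [← Finset.mul_sum, h4]
        _ ≤ η * (L * ∑ a, z a ^ 2) / k :=
            div_le_div_of_nonneg_right (mul_le_mul_of_nonneg_left h5 hη0) hk'.le
        _ = η * L / k * ∑ a, z a ^ 2 := by ring
    · ext y y'
      rw [Matrix.transpose_apply]
      simp only [hBf, Matrix.of_apply]
      rw [add_comm y' y]; ring
  set b0 := η * L / k with hb0
  have hb00 : 0 ≤ b0 := by positivity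
  have hdiag : ∀ y, w y ^ 2 ≤ b0 := by
    intro y
    have h1 := qf_le Bf (Pi.single y 1)
    have h2 : (Pi.single y 1 : G m → ℝ) ⬝ᵥ Bf.mulVec (Pi.single y 1) = w y ^ 2 := by
      rw [single_dotProduct, Matrix.mulVec_single_one]
      simp only [Matrix.col_apply, hBf, Matrix.of_apply]
      rw [G_add_self, ss_zero, S.2]
      field_simp
    have h3 : ∑ a, (Pi.single y 1 : G m → ℝ) a ^ 2 = 1 := by
      simp [Pi.single_apply]
    rw [h2, h3, mul_one] at h1
    exact le_trans h1 hBfn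
  set B : G m → G m → ℝ := fun y y' => if y = y' then 0 else ss S.1 (y + y') * w y * w y' / k with hB
  have hbound : ∀ z : G m → ℝ, ∑ y, (∑ y', B y y' * z y') ^ 2 ≤ 4 * b0 ^ 2 * ∑ y, z y ^ 2 := by
    intro z
    have h1 : ∀ y, ∑ y', B y y' * z y' = Bf.mulVec z y - w y ^ 2 * z y := by
      intro y
      have h2 : ∀ y', B y y' * z y' = Bf y y' * z y' - (if y = y' then w y ^ 2 * z y else 0) := by
        intro y'
        simp only [hB, hBf, Matrix.of_apply]
        by_cases h : y = y'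
        · subst h
          rw [if_pos rfl, if_pos rfl, G_add_self, ss_zero, S.2]
          field_simp; ring
        · rw [if_neg h, if_neg h]; ring
      simp only [h2]
      rw [Finset.sum_sub_distrib, Finset.sum_ite_eq]
      simp only [Finset.mem_univ, if_true]
      rfl
    simp only [h1]
    have h3 : ∀ y, (Bf.mulVec z y - w y ^ 2 * z y) ^ 2 ≤ 2 * (Bf.mulVec z y) ^ 2 + 2 * (b0 ^ 2 * z y ^ 2) := by
      intro y
      have h4 : (w y ^ 2 * z y) ^ 2 ≤ b0 ^ 2 * z y ^ 2 := by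
        rw [mul_pow]
        apply mul_le_mul_of_nonneg_right _ (sq_nonneg _)
        exact pow_le_pow_left₀ (sq_nonneg _) (hdiag y) 2
      nlinarith [sq_nonneg (Bf.mulVec z y + w y ^ 2 * z y)]
    refine le_trans (Finset.sum_le_sum fun y _ => h3 y) ?_
    rw [Finset.sum_add_distrib, ← Finset.mul_sum, ← Finset.mul_sum, ← Finset.mul_sum]
    have h5 := opn_mulVec Bf z
    have h6 : ‖Bf‖ ^ 2 ≤ b0 ^ 2 := pow_le_pow_left₀ (norm_nonneg _) hBfn 2
    have h7 : 0 ≤ ∑ y, z y ^ 2 := Finset.sum_nonneg fun _ _ => sq_nonneg _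
    nlinarith [mul_le_mul_of_nonneg_right h6 h7]
  have h1 := chaos_mgf B (fun y => by simp [hB]) (4 * b0 ^ 2) θ (by positivity) hbound hθ
  have h2 : ∀ e : G m → Bool, h ⬝ᵥ (Tm U k S.1 e).mulVec h = ∑ i, ∑ j, B i j * sg (e i) * sg (e j) := by
    intro e; rw [Tm_qf]
  simp only [h2]
  refine le_trans h1 (Real.exp_le_exp.mpr ?_)
  have h3 : ∑ y, ∑ y', B y y' ^ 2 = (∑ y, ∑ y', (if y = y' then 0 else
      ss S.1 (y + y') ^ 2 * w y ^ 2 * w y' ^ 2)) / k ^ 2 := by
    rw [Finset.sum_div]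
    apply Finset.sum_congr rfl
    intro y _
    rw [Finset.sum_div]
    apply Finset.sum_congr rfl
    intro y' _
    simp only [hB]
    split_ifs
    · simp
    · rw [div_pow]; ring
  rw [h3]
  have h4 : (∑ y, ∑ y', (if y = y' then 0 else
      ss S.1 (y + y') ^ 2 * w y ^ 2 * w y' ^ 2)) / (k:ℝ) ^ 2 ≤ 2 * η ^ 2 / k := by
    rw [div_le_div_iff₀ (by positivity) hk']
    calc (∑ y, ∑ y', (if y = y' then 0 else ss S.1 (y + y') ^ 2 * w y ^ 2 * w y' ^ 2)) * (k:ℝ)
        ≤ (2 * k * η ^ 2) * k := mul_le_mul_of_nonneg_right hF hk'.le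
      _ = 2 * η ^ 2 * k ^ 2 := by ring
  calc 16 * θ ^ 2 * ((∑ y, ∑ y', (if y = y' then 0 else
      ss S.1 (y + y') ^ 2 * w y ^ 2 * w y' ^ 2)) / (k:ℝ) ^ 2) ≤ 16 * θ ^ 2 * (2 * η ^ 2 / k) :=
        mul_le_mul_of_nonneg_left h4 (by positivity)
    _ = 32 * θ ^ 2 * η ^ 2 / k := by ring

/-- For a good sample `S`, the union bound over the net. -/
theorem regS_good (hm : 1 ≤ m) (hr : 0 < r) (U : Matrix (G m) (Fin r) ℝ) (hU : Uᵀ * U = 1) {k : ℕ}
    (hk : 0 < k) (hkn : k ≤ 2 ^ m) (S : Sub (G m) k) (hPhi : Phi U k S.1 ≤ k ^ 2) (L : ℝ)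
    (hL : ‖Km U S.1‖ ≤ L) (hLk : 474 * r * L ^ 2 ≤ k) (t : ℝ) (ht : 0 < t)
    (htk : t ^ 2 * k = 6240 * r) :
    Pr (fun e : G m → Bool => ¬ ∀ x : Fin r → ℝ,
      |x ⬝ᵥ (Tm U k S.1 e).mulVec x| ≤ 64 / 47 * t * ∑ a, x a ^ 2) ≤ 1 / 1000 := by
  have hk' : (0:ℝ) < k := by exact_mod_cast hk
  have hr' : (1:ℝ) ≤ r := by exact_mod_cast hr
  have hL0 : 0 ≤ L := le_trans (norm_nonneg _) hL
  have h1 : Pr (fun e : G m → Bool => ¬ ∀ x : Fin r → ℝ,
      |x ⬝ᵥ (Tm U k S.1 e).mulVec x| ≤ 64 / 47 * t * ∑ a, x a ^ 2) ≤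
      Pr (fun e : G m → Bool => ∃ z ∈ netZ r, t ≤ |hz z ⬝ᵥ (Tm U k S.1 e).mulVec (hz z)|) := by
    apply Pr_mono
    intro e he
    by_contra hcon
    apply he
    intro x
    apply net_bound hr (Tm U k S.1 e) (Tm_symm U k S.1 e) t
    intro z hz1
    by_contra h2
    push Not at h2
    exact hcon ⟨z, hz1, h2.le⟩
  refine le_trans h1 (le_trans (Pr_exists _ _) ?_)
  have h2 : ∀ z ∈ netZ r, Pr (fun e : G m → Bool => t ≤ |hz z ⬝ᵥ (Tm U k S.1 e).mulVec (hz z)|) ≤
      2 * Real.exp (-(30 * r)) := by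
    intro z hz1
    set h := hz z with hh
    set η := ∑ a, h a ^ 2 with hη
    have hη0 : 0 ≤ η := Finset.sum_nonneg fun _ _ => sq_nonneg _
    have hη1 : η ≤ 81 / 64 := hz_sq hr z hz1
    set θ : ℝ := t * k / 104 with hθ
    have hθ2 : θ ^ 2 = 6240 * r * k / 10816 := by
      rw [hθ, div_pow, mul_pow]
      have : t ^ 2 * (k:ℝ) ^ 2 = 6240 * r * k := by rw [← htk]; ring
      rw [this]; norm_num
    have hcond : 128 * θ ^ 2 * (4 * (η * L / k) ^ 2) ≤ 1 := by
      rw [hθ2, div_pow, mul_pow]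
      have h3 : η ^ 2 ≤ (81 / 64) ^ 2 := pow_le_pow_left₀ hη0 hη1 2
      have h4 : 128 * (6240 * r * k / 10816) * (4 * (η ^ 2 * L ^ 2 / k ^ 2)) =
          (128 * 6240 * 4 / 10816) * (r * L ^ 2 / k) * η ^ 2 := by
        field_simp
      rw [h4]
      have h5 : (r:ℝ) * L ^ 2 / k ≤ 1 / 474 := by
        rw [div_le_div_iff₀ hk' (by norm_num)]
        linarith
      have h6 : 0 ≤ (r:ℝ) * L ^ 2 / k := by positivity
      calc (128 * 6240 * 4 / 10816) * (r * L ^ 2 / k) * η ^ 2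
          ≤ (128 * 6240 * 4 / 10816) * (1 / 474) * (81 / 64) ^ 2 := by
            apply mul_le_mul _ h3 (sq_nonneg _) (by norm_num)
            exact mul_le_mul_of_nonneg_left h5 (by norm_num)
        _ ≤ 1 := by norm_num
    have hF := frob_of_Phi hm U hU hk hkn S.1 hPhi h
    have e1 := chaos_h U hk S L hL h hF θ hcond
    have e2 := chaos_h U hk S L hL h hF (-θ) (by rw [neg_sq]; exact hcond)
    rw [neg_sq] at e2
    have hexp : 32 * θ ^ 2 * η ^ 2 / k ≤ 52 * θ ^ 2 / k := by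
      have h3 : η ^ 2 ≤ (81 / 64) ^ 2 := pow_le_pow_left₀ hη0 hη1 2
      apply div_le_div_of_nonneg_right _ hk'.le
      have h4 : 0 ≤ θ ^ 2 := sq_nonneg _
      nlinarith
    have hθt : -(θ * t) + 52 * θ ^ 2 / k = -(30 * r) := by
      rw [hθ2, hθ]
      have h3 : t * k / 104 * t = 60 * r := by
        have : t * k / 104 * t = (t ^ 2 * k) / 104 := by ring
        rw [this, htk]; ring
      rw [h3]
      field_simp
      ring
    unfold Pr
    have h3 : ∀ e : G m → Bool, ind (t ≤ |h ⬝ᵥ (Tm U k S.1 e).mulVec h|) ≤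
        Real.exp (-(θ * t)) * (Real.exp (θ * (h ⬝ᵥ (Tm U k S.1 e).mulVec h)) +
          Real.exp (-θ * (h ⬝ᵥ (Tm U k S.1 e).mulVec h))) := by
      intro e
      set X := h ⬝ᵥ (Tm U k S.1 e).mulVec h with hX
      have hθ0 : 0 ≤ θ := by rw [hθ]; positivity
      by_cases h4 : t ≤ |X|
      · rw [ind_pos h4, mul_add, ← Real.exp_add, ← Real.exp_add]
        rcases abs_cases X with ⟨h5, _⟩ | ⟨h5, _⟩
        · rw [h5] at h4
          have h6 : 1 ≤ Real.exp (-(θ * t) + θ * X) := by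
            apply Real.one_le_exp
            nlinarith
          have h7 := Real.exp_pos (-(θ * t) + -θ * X)
          linarith
        · rw [h5] at h4
          have h6 : 1 ≤ Real.exp (-(θ * t) + -θ * X) := by
            apply Real.one_le_exp
            nlinarith
          have h7 := Real.exp_pos (-(θ * t) + θ * X)
          linarith
      · rw [ind_neg h4]; positivity
    refine le_trans (E_mono h3) ?_
    rw [E_mul_left, E_add]
    have h4 : Real.exp (32 * θ ^ 2 * η ^ 2 / k) ≤ Real.exp (52 * θ ^ 2 / k) := Real.exp_le_exp.mpr hexp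
    calc Real.exp (-(θ * t)) * (E (fun e : G m → Bool => Real.exp (θ * (h ⬝ᵥ (Tm U k S.1 e).mulVec h))) +
          E (fun e : G m → Bool => Real.exp (-θ * (h ⬝ᵥ (Tm U k S.1 e).mulVec h))))
        ≤ Real.exp (-(θ * t)) * (Real.exp (52 * θ ^ 2 / k) + Real.exp (52 * θ ^ 2 / k)) := by
          apply mul_le_mul_of_nonneg_left _ (Real.exp_pos _).le
          linarith
      _ = 2 * Real.exp (-(θ * t) + 52 * θ ^ 2 / k) := by rw [Real.exp_add]; ring
      _ = 2 * Real.exp (-(30 * r)) := by rw [hθt]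
  refine le_trans (Finset.sum_le_sum h2) ?_
  rw [Finset.sum_const, nsmul_eq_mul]
  have h3 := card_netZ r
  calc ((netZ r).card : ℝ) * (2 * Real.exp (-(30 * r))) ≤ Real.exp (22 * r) * (2 * Real.exp (-(30 * r))) :=
        mul_le_mul_of_nonneg_right h3 (by positivity)
    _ = 2 * Real.exp (-(8 * r)) := by
        have : Real.exp (22 * r) * (2 * Real.exp (-(30 * r))) = 2 * (Real.exp (22 * r) * Real.exp (-(30 * r))) := by ring
        rw [this, ← Real.exp_add]; ring_nf
    _ ≤ 2 * Real.exp (-8) := by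
        apply mul_le_mul_of_nonneg_left _ (by norm_num)
        apply Real.exp_le_exp.mpr
        linarith
    _ ≤ 1 / 1000 := by
        have h4 : Real.exp (-8) = (Real.exp 1 ^ 8)⁻¹ := by
          rw [Real.exp_neg, ← Real.exp_nat_mul]; norm_num
        rw [h4]
        have h5 := Real.exp_one_gt_d9
        have h6 : (2000:ℝ) ≤ Real.exp 1 ^ 8 := by
          calc (2000:ℝ) ≤ (2.7) ^ 8 := by norm_num
            _ ≤ Real.exp 1 ^ 8 := pow_le_pow_left₀ (by norm_num) (by linarith) 8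
        have h7 : (Real.exp 1 ^ 8)⁻¹ ≤ 1 / 2000 := by
          rw [inv_eq_one_div]
          exact one_div_le_one_div_of_le (by norm_num) h6
        linarith

end Srht
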