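import Mathlib
import Pool.Agent.Lib.Helper57.Srht.RegS2

/-! Small dimension regime, continued: random samples. -/

open Finset Matrix
open scoped Matrix.Norms.L2Operator

set_option linter.unusedSectionVars false
set_option linter.unnecessarySeqFocus false

namespace Srht

variable {m r : ℕ}

/-- the row bound. -/
noncomputable def lamb (m r : ℕ) : ℝ := (2 * r + 32 * m) / 2 ^ m

theorem regS_U (hm : 2 ≤ m) (hr : 0 < r) (H : (10:ℝ) ^ 31 * r ^ 5 * m ^ 5 ≤ 2 ^ m)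
    (U : Matrix (G m) (Fin r) ℝ) (hU : Uᵀ * U = 1) (hlam : ∀ y, ∑ a, U y a ^ 2 ≤ lamb m r)
    {k : ℕ} (hrk : 12000 * r ≤ k) (hkn : k ≤ 2 ^ m) (t : ℝ) (ht : 0 < t)
    (htk : t ^ 2 * k = 6240 * r) :
    Pr (fun p : Sub (G m) k × (G m → Bool) => ¬ ∀ x : Fin r → ℝ,
      |x ⬝ᵥ (Tm U k p.1.1 p.2).mulVec x| ≤ 64 / 47 * t * ∑ a, x a ^ 2) ≤ 3 / 1000 := by
  have hk : 0 < k := by omega
  have hm1 : 1 ≤ m := by omega
  have hr1 : (1:ℝ) ≤ r := by exact_mod_cast hr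
  have hm1' : (1:ℝ) ≤ m := by exact_mod_cast hm1
  have hk1 : (1:ℝ) ≤ k := by exact_mod_cast hk
  have hN : (0:ℝ) < 2 ^ m := by positivity
  have hkN : (k:ℝ) ≤ 2 ^ m := by exact_mod_cast hkn
  have hrk' : 12000 * (r:ℝ) ≤ k := by exact_mod_cast hrk
  set N : ℝ := 2 ^ m with hNdef
  set A : ℝ := 2 * r + 32 * m with hA
  have hA0 : 0 < A := by rw [hA]; positivity
  have hAle : A ≤ 34 * r * m := by
    rw [hA]
    nlinarith
  set lam := lamb m r with hlamdef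
  have hlamA : lam = A / N := rfl
  have hlam0 : 0 < lam := by rw [hlamA]; positivity
  have hlamN : lam * N = A := by rw [hlamA]; field_simp
  -- Phi
  have hP1 : Pr (fun S : Sub (G m) k => ¬ Phi U k S.1 ≤ k ^ 2) ≤ 1 / 1000 := by
    have h1 : Pr (fun S : Sub (G m) k => ¬ Phi U k S.1 ≤ k ^ 2) ≤
        Pr (fun S : Sub (G m) k => (k:ℝ) ^ 2 ≤ Phi U k S.1) :=
      Pr_mono fun S hS => (not_le.mp hS).le
    have h2 := Pr_markov (fun S : Sub (G m) k => Phi U k S.1)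
      (fun S => Finset.sum_nonneg fun _ _ => Finset.sum_nonneg fun _ _ => sq_nonneg _)
      ((k:ℝ) ^ 2) (by positivity)
    have h3 := E_Phi hm U hU lam hlam hk hkn
    refine le_trans h1 (le_trans h2 ?_)
    rw [div_le_iff₀ (by positivity)]
    refine le_trans h3 ?_
    have h4 : 160 * lam * (r:ℝ) ^ 4 ≤ 1 / 1000 := by
      rw [hlamA]
      have h5 : 160 * (A / N) * (r:ℝ) ^ 4 = 160 * A * r ^ 4 / N := by ring
      rw [h5, div_le_iff₀ hN]
      have h6 : 160 * A * (r:ℝ) ^ 4 ≤ 160 * (34 * r * m) * r ^ 4 := by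
        apply mul_le_mul_of_nonneg_right _ (by positivity)
        linarith
      have h7 : 160 * (34 * r * m) * (r:ℝ) ^ 4 = 5440 * (r ^ 5 * m) := by ring
      have h8 : (r:ℝ) ^ 5 * m ≤ r ^ 5 * m ^ 5 := by
        apply mul_le_mul_of_nonneg_left _ (by positivity)
        calc (m:ℝ) = m ^ 1 := (pow_one _).symm
          _ ≤ m ^ 5 := pow_le_pow_right₀ hm1' (by norm_num)
      have h9 : 0 ≤ (r:ℝ) ^ 5 * m ^ 5 := by positivity
      nlinarith
    calc 160 * (k:ℝ) ^ 2 * lam * (r:ℝ) ^ 4 = (160 * lam * (r:ℝ) ^ 4) * (k:ℝ) ^ 2 := by ring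
      _ ≤ 1 / 1000 * (k:ℝ) ^ 2 := mul_le_mul_of_nonneg_right h4 (by positivity)
  -- the kernel
  obtain ⟨L, hP2, hLk⟩ : ∃ L : ℝ, Pr (fun S : Sub (G m) k => ¬ ‖Km U S.1‖ ≤ L) ≤ 1 / 1000 ∧
      474 * r * L ^ 2 ≤ k := by
    rcases le_or_gt ((k:ℝ) ^ 2 * lam * r) (1 / 1000) with hc | hc
    · refine ⟨2, ?_, by linarith⟩
      have h1 : Pr (fun S : Sub (G m) k => ¬ ‖Km U S.1‖ ≤ 2) ≤
          Pr (fun S : Sub (G m) k => (1:ℝ) ≤ frob (Km U S.1) - k * r) := by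
        apply Pr_mono
        intro S hS
        by_contra hcon
        exact hS ((K_small U hU S).2 (not_le.mp hcon).le)
      have h2 := Pr_markov (fun S : Sub (G m) k => frob (Km U S.1) - k * r)
        (fun S => (K_small U hU S).1) 1 (by norm_num)
      have h3 := E_frob_K hm1 U hU lam hlam hk hkn
      refine le_trans h1 (le_trans h2 ?_)
      rw [div_one]
      linarith
    · refine ⟨1000 * (4 * k * lam + 88 * m), ?_, ?_⟩
      · have h1 : Pr (fun S : Sub (G m) k => ¬ ‖Km U S.1‖ ≤ 1000 * (4 * k * lam + 88 * m)) ≤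
            Pr (fun S : Sub (G m) k => 1000 * (4 * k * lam + 88 * m) ≤ ‖Km U S.1‖) :=
          Pr_mono fun S hS => (not_le.mp hS).le
        have h2 := Pr_markov (fun S : Sub (G m) k => ‖Km U S.1‖) (fun S => norm_nonneg _)
          (1000 * (4 * k * lam + 88 * m)) (by positivity)
        have h3 := Km_first_moment (by omega) U hU lam hlam0.le hlam k hk hkn
        refine le_trans h1 (le_trans h2 ?_)
        rw [div_le_iff₀ (by positivity)]
        linarith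
      · -- 474 r L² ≤ k
        have hL2 : (1000 * (4 * k * lam + 88 * m)) ^ 2 ≤
            2 * 10 ^ 6 * (16 * (k ^ 2 * lam ^ 2) + 7744 * (m:ℝ) ^ 2) := by
          nlinarith [sq_nonneg (4 * k * lam - 88 * m)]
        have h1 : 474 * r * (1000 * (4 * k * lam + 88 * m)) ^ 2 ≤
            474 * r * (2 * 10 ^ 6 * (16 * (k ^ 2 * lam ^ 2) + 7744 * (m:ℝ) ^ 2)) :=
          mul_le_mul_of_nonneg_left hL2 (by positivity)
        have h2 : 474 * r * (2 * 10 ^ 6 * (16 * (k ^ 2 * lam ^ 2))) ≤ (k:ℝ) / 2 := by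
          have h3 : (k:ℝ) * lam ^ 2 * N ≤ A ^ 2 := by
            have : (k:ℝ) * lam ^ 2 ≤ N * lam ^ 2 := mul_le_mul_of_nonneg_right hkN (sq_nonneg _)
            calc (k:ℝ) * lam ^ 2 * N ≤ (N * lam ^ 2) * N := mul_le_mul_of_nonneg_right this hN.le
              _ = (lam * N) ^ 2 := by ring
              _ = A ^ 2 := by rw [hlamN]
          have h4 : A ^ 2 ≤ 1156 * (r:ℝ) ^ 2 * (m:ℝ) ^ 2 := by
            calc A ^ 2 ≤ (34 * (r:ℝ) * (m:ℝ)) ^ 2 := pow_le_pow_left₀ hA0.le hAle 2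
              _ = 1156 * (r:ℝ) ^ 2 * (m:ℝ) ^ 2 := by ring
          have h5 : 474 * 2 * 10 ^ 6 * 16 * (r:ℝ) * ((k:ℝ) * lam ^ 2) ≤ 1 / 2 := by
            have h6 : 474 * 2 * 10 ^ 6 * 16 * (r:ℝ) * ((k:ℝ) * lam ^ 2) * N ≤ 1 / 2 * N := by
              calc 474 * 2 * 10 ^ 6 * 16 * (r:ℝ) * ((k:ℝ) * lam ^ 2) * N
                  = 474 * 2 * 10 ^ 6 * 16 * (r:ℝ) * ((k:ℝ) * lam ^ 2 * N) := by ring
                _ ≤ 474 * 2 * 10 ^ 6 * 16 * (r:ℝ) * (1156 * (r:ℝ) ^ 2 * (m:ℝ) ^ 2) :=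
                    mul_le_mul_of_nonneg_left (le_trans h3 h4) (by positivity)
                _ = (474 * 2 * 10 ^ 6 * 16 * 1156) * ((r:ℝ) ^ 3 * (m:ℝ) ^ 2) := by ring
                _ ≤ (474 * 2 * 10 ^ 6 * 16 * 1156) * ((r:ℝ) ^ 5 * (m:ℝ) ^ 5) := by
                    apply mul_le_mul_of_nonneg_left _ (by positivity)
                    apply mul_le_mul _ _ (by positivity) (by positivity)
                    · exact pow_le_pow_right₀ hr1 (by norm_num)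
                    · exact pow_le_pow_right₀ hm1' (by norm_num)
                _ ≤ 1 / 2 * (10 ^ 31 * (r:ℝ) ^ 5 * (m:ℝ) ^ 5) := by
                    have h9 : 0 ≤ (r:ℝ) ^ 5 * m ^ 5 := by positivity
                    nlinarith
                _ ≤ 1 / 2 * N := mul_le_mul_of_nonneg_left H (by norm_num)
            exact le_of_mul_le_mul_right h6 hN
          have h7 := mul_le_mul_of_nonneg_left h5 (by linarith : (0:ℝ) ≤ k)
          calc 474 * (r:ℝ) * (2 * 10 ^ 6 * (16 * ((k:ℝ) ^ 2 * lam ^ 2))) =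
                (k:ℝ) * (474 * 2 * 10 ^ 6 * 16 * (r:ℝ) * ((k:ℝ) * lam ^ 2)) := by ring
            _ ≤ (k:ℝ) * (1 / 2) := h7
            _ = (k:ℝ) / 2 := by ring
        have h8 : 474 * r * (2 * 10 ^ 6 * (7744 * (m:ℝ) ^ 2)) ≤ (k:ℝ) / 2 := by
          -- k² > N / (1000 A r)
          have h9 : N < 1000 * A * (r:ℝ) * (k:ℝ) ^ 2 := by
            have h10 : 1 / 1000 < (k:ℝ) ^ 2 * (A / N) * r := by rw [← hlamA]; exact hc
            have h11 : (k:ℝ) ^ 2 * (A / N) * (r:ℝ) = (k:ℝ) ^ 2 * A * (r:ℝ) / N := by ring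
            rw [h11, lt_div_iff₀ hN] at h10
            linarith
          have h10 : (2 * 474 * 2 * 10 ^ 6 * 7744 * (r:ℝ) * (m:ℝ) ^ 2) ^ 2 ≤ (k:ℝ) ^ 2 := by
            have h11 : 0 < 1000 * A * (r:ℝ) := by positivity
            have h12 : (2 * 474 * 2 * 10 ^ 6 * 7744 * (r:ℝ) * (m:ℝ) ^ 2) ^ 2 * (1000 * A * (r:ℝ)) ≤
                (k:ℝ) ^ 2 * (1000 * A * (r:ℝ)) := by
              calc (2 * 474 * 2 * 10 ^ 6 * 7744 * (r:ℝ) * (m:ℝ) ^ 2) ^ 2 * (1000 * A * (r:ℝ))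
                  ≤ (2 * 474 * 2 * 10 ^ 6 * 7744 * (r:ℝ) * (m:ℝ) ^ 2) ^ 2 * (1000 * (34 * (r:ℝ) * (m:ℝ)) * (r:ℝ)) := by
                    apply mul_le_mul_of_nonneg_left _ (sq_nonneg _)
                    apply mul_le_mul_of_nonneg_right _ (by positivity)
                    linarith
                _ = ((2 * 474 * 2 * 10 ^ 6 * 7744) ^ 2 * 34000) * ((r:ℝ) ^ 4 * (m:ℝ) ^ 5) := by ring
                _ ≤ ((2 * 474 * 2 * 10 ^ 6 * 7744) ^ 2 * 34000) * ((r:ℝ) ^ 5 * (m:ℝ) ^ 5) := by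
                    apply mul_le_mul_of_nonneg_left _ (by positivity)
                    apply mul_le_mul_of_nonneg_right _ (by positivity)
                    exact pow_le_pow_right₀ hr1 (by norm_num)
                _ ≤ 10 ^ 31 * (r:ℝ) ^ 5 * (m:ℝ) ^ 5 := by
                    have h9 : 0 ≤ (r:ℝ) ^ 5 * m ^ 5 := by positivity
                    nlinarith
                _ ≤ N := H
                _ ≤ (k:ℝ) ^ 2 * (1000 * A * (r:ℝ)) := by linarith
            exact le_of_mul_le_mul_right h12 h11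
          have h13 := le_of_sq_le_sq h10 (by linarith : (0:ℝ) ≤ k)
          linarith
        linarith
  have hgood : Pr (fun S : Sub (G m) k => ¬ (Phi U k S.1 ≤ k ^ 2 ∧ ‖Km U S.1‖ ≤ L)) ≤ 2 / 1000 := by
    have h1 : Pr (fun S : Sub (G m) k => ¬ (Phi U k S.1 ≤ k ^ 2 ∧ ‖Km U S.1‖ ≤ L)) ≤
        Pr (fun S : Sub (G m) k => ¬ Phi U k S.1 ≤ k ^ 2 ∨ ¬ ‖Km U S.1‖ ≤ L) :=
      Pr_mono fun S hS => not_and_or.mp hS
    have h2 := Pr_or (fun S : Sub (G m) k => ¬ Phi U k S.1 ≤ k ^ 2) (fun S => ¬ ‖Km U S.1‖ ≤ L)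
    linarith
  have h3 := Pr_prod (fun p : Sub (G m) k × (G m → Bool) => ¬ ∀ x : Fin r → ℝ,
      |x ⬝ᵥ (Tm U k p.1.1 p.2).mulVec x| ≤ 64 / 47 * t * ∑ a, x a ^ 2)
    (fun S => Phi U k S.1 ≤ k ^ 2 ∧ ‖Km U S.1‖ ≤ L) (2 / 1000) (1 / 1000) (by norm_num) hgood
    (fun S hS => regS_good hm1 hr U hU hk hkn S hS.1 L hS.2 hLk t ht htk)
  linarith

end Srht
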