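import Mathlib
import Pool.Agent.Lib.Helper57.Srht.RegS3

/-! Transfer from the group model to an arbitrary index set identified with the group. -/

open Finset Matrix

set_option linter.unusedSectionVars false
set_option linter.unnecessarySeqFocus false

namespace Srht

section gen
variable {A : Type} [Fintype A] [DecidableEq A]

lemma form_eqA {m r : ℕ} (U : Matrix (G m) (Fin r) ℝ) {k : ℕ} (hk : 0 < k) (S : Finset (G m))
    (hS : S.card = k) (e : G m → Bool) (g : Fin r → ℝ) :
    (∑ u ∈ S, (∑ y, chi u y * (sg (e y) * U.mulVec g y)) ^ 2) / k =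
      ∑ y, U.mulVec g y ^ 2 + g ⬝ᵥ (Tm U k S e).mulVec g := by
  have hk' : (0:ℝ) < k := by exact_mod_cast hk
  set w := U.mulVec g with hw
  rw [← sum_ss_sq, Tm_qf, ← hw, Finset.sum_div, ← Finset.sum_add_distrib]
  apply Finset.sum_congr rfl
  intro y _
  rw [Finset.sum_div]
  have h1 : w y ^ 2 = ∑ y', if y = y' then w y ^ 2 else 0 := by
    rw [Finset.sum_ite_eq]; simp
  rw [h1, ← Finset.sum_add_distrib]
  apply Finset.sum_congr rfl
  intro y' _
  by_cases h : y = y'
  · subst h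
    rw [if_pos rfl, if_pos rfl, G_add_self, ss_zero, hS]
    have := sg_mul_self (e y)
    have h2 : (k:ℝ) * (sg (e y) * w y) * (sg (e y) * w y) / k = (sg (e y) * sg (e y)) * w y ^ 2 := by
      field_simp
    rw [h2, this]; ring
  · rw [if_neg h, if_neg h]; ring

/-- the flattened basis. -/
noncomputable def UofA {m r : ℕ} (e : A ≃ G m) (v : Fin r → A → ℝ) (d : A → Bool) :
    Matrix (G m) (Fin r) ℝ :=
  Matrix.of fun y a => ∑ z, (1 / Real.sqrt (2 ^ m)) * chi y (e z) * v a z * sg (d z)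

lemma sqrtNA (m : ℕ) : (1 / Real.sqrt (2 ^ m)) * (1 / Real.sqrt (2 ^ m)) = 1 / (2:ℝ) ^ m := by
  rw [div_mul_div_comm, one_mul, Real.mul_self_sqrt (by positivity)]

lemma UofA_orth {m r : ℕ} (e : A ≃ G m) (v : Fin r → A → ℝ)
    (hv : ∀ a b, ∑ i, v a i * v b i = if a = b then 1 else 0) (d : A → Bool) :
    (UofA e v d)ᵀ * UofA e v d = 1 := by
  ext a b
  rw [Matrix.mul_apply, Matrix.one_apply, ← hv a b]
  simp only [Matrix.transpose_apply, UofA, Matrix.of_apply]
  have h1 : ∀ y : G m, (∑ z, (1 / Real.sqrt (2 ^ m)) * chi y (e z) * v a z * sg (d z)) *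
      (∑ z, (1 / Real.sqrt (2 ^ m)) * chi y (e z) * v b z * sg (d z)) =
      ∑ z, ∑ z', chi y (e z + e z') * ((1 / (2:ℝ) ^ m) * (v a z * sg (d z)) * (v b z' * sg (d z'))) := by
    intro y
    rw [Finset.sum_mul]
    apply Finset.sum_congr rfl
    intro z _
    rw [Finset.mul_sum]
    apply Finset.sum_congr rfl
    intro z' _
    rw [chi_add_right, ← sqrtNA]; ring
  simp only [h1]
  rw [Finset.sum_comm]
  apply Finset.sum_congr rfl
  intro z _
  rw [Finset.sum_comm]
  have h2 : ∀ z' : A, ∑ y, chi y (e z + e z') * ((1 / (2:ℝ) ^ m) * (v a z * sg (d z)) * (v b z' * sg (d z'))) =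
      if z = z' then v a z * v b z' else 0 := by
    intro z'
    rw [← Finset.sum_mul, sum_chi]
    have h3 : (e z + e z' = 0) ↔ z = z' := by
      rw [G_add_eq_zero_iff]; exact e.injective.eq_iff
    by_cases h : z = z'
    · rw [if_pos (h3.mpr h), if_pos h]
      subst h
      have h4 := sg_mul_self (d z)
      have h5 : (2:ℝ) ^ m ≠ 0 := by positivity
      calc (2:ℝ) ^ m * (1 / 2 ^ m * (v a z * sg (d z)) * (v b z * sg (d z)))
          = ((2:ℝ) ^ m * (1 / 2 ^ m)) * (v a z * v b z) * (sg (d z) * sg (d z)) := by ring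
        _ = v a z * v b z := by rw [h4, mul_one_div_cancel h5]; ring
    · rw [if_neg (fun h' => h (h3.mp h')), if_neg h, zero_mul]
  simp only [h2]
  rw [Finset.sum_ite_eq]
  simp

lemma besselA {r : ℕ} (v : Fin r → A → ℝ)
    (hv : ∀ a b, ∑ i, v a i * v b i = if a = b then 1 else 0) (w : A → ℝ) :
    ∑ a, (∑ i, v a i * w i) ^ 2 ≤ ∑ i, w i ^ 2 := by
  have h1 : ∀ z : Fin r → ℝ, ∑ i, (∑ a, v a i * z a) ^ 2 ≤ 1 * ∑ a, z a ^ 2 := by
    intro z
    have h2 : ∀ i, (∑ a, v a i * z a) ^ 2 = ∑ a, ∑ b, (z a * z b) * (v a i * v b i) := by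
      intro i
      rw [sq, Finset.sum_mul]
      apply Finset.sum_congr rfl
      intro a _
      rw [Finset.mul_sum]
      apply Finset.sum_congr rfl
      intro b _
      ring
    simp only [h2]
    rw [Finset.sum_comm, one_mul]
    apply le_of_eq
    apply Finset.sum_congr rfl
    intro a _
    rw [Finset.sum_comm]
    simp only [← Finset.mul_sum, hv]
    simp [sq]
  have := adj_bound (fun i a => v a i) 1 (by norm_num) h1 w
  simpa using this

lemma row_boundA {m r : ℕ} (hm : 7 ≤ m) (e : A ≃ G m) (v : Fin r → A → ℝ)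
    (hv : ∀ a b, ∑ i, v a i * v b i = if a = b then 1 else 0) :
    Pr (fun d : A → Bool => ¬ ∀ y, ∑ a, UofA e v d y a ^ 2 ≤ lamb m r) ≤ 1 / 1000 := by
  have hN : (0:ℝ) < 2 ^ m := by positivity
  have h1 : Pr (fun d : A → Bool => ¬ ∀ y, ∑ a, UofA e v d y a ^ 2 ≤ lamb m r) ≤
      Pr (fun d : A → Bool => ∃ y ∈ (Finset.univ : Finset (G m)),
        lamb m r ≤ ∑ a, UofA e v d y a ^ 2) := by
    apply Pr_mono
    intro d hd
    push Not at hd
    obtain ⟨y, hy⟩ := hd
    exact ⟨y, Finset.mem_univ _, hy.le⟩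
  refine le_trans h1 (le_trans (Pr_exists _ _) ?_)
  have h2 : ∀ y ∈ (Finset.univ : Finset (G m)), Pr (fun d : A → Bool =>
      lamb m r ≤ ∑ a, UofA e v d y a ^ 2) ≤ Real.exp (-(2 * m)) := by
    intro y _
    set R : Fin r → A → ℝ := fun a z => (1 / Real.sqrt (2 ^ m)) * chi y (e z) * v a z with hR
    have hop : ∀ z : A → ℝ, ∑ a, (∑ j, R a j * z j) ^ 2 ≤ (1 / 2 ^ m) * ∑ j, z j ^ 2 := by
      intro z
      have h3 := besselA v hv (fun j => (1 / Real.sqrt (2 ^ m)) * chi y (e j) * z j)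
      have h4 : ∀ a, ∑ j, R a j * z j = ∑ j, v a j * ((1 / Real.sqrt (2 ^ m)) * chi y (e j) * z j) := by
        intro a
        apply Finset.sum_congr rfl
        intro j _
        simp only [hR]; ring
      simp only [h4]
      refine le_trans h3 (le_of_eq ?_)
      rw [Finset.mul_sum]
      apply Finset.sum_congr rfl
      intro j _
      rw [← sqrtNA, mul_pow, mul_pow, chi_sq]; ring
    have hfrob : ∑ a, ∑ j, R a j ^ 2 = r / 2 ^ m := by
      have h3 : ∀ a, ∑ j, R a j ^ 2 = 1 / 2 ^ m := by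
        intro a
        have h4 : ∀ j, R a j ^ 2 = (1 / 2 ^ m) * (v a j * v a j) := by
          intro j
          simp only [hR]
          rw [← sqrtNA, mul_pow, mul_pow, chi_sq]; ring
        simp only [h4]
        rw [← Finset.mul_sum, hv]
        simp
      simp only [h3]
      rw [Finset.sum_const, Finset.card_univ, Fintype.card_fin, nsmul_eq_mul]; ring
    have h5 := psd_mgf R (1 / 2 ^ m) (2 ^ m / 16) (by positivity) (by positivity) hop
      (by field_simp; norm_num)
    rw [hfrob] at h5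
    unfold Pr
    have h6 : ∀ d : A → Bool, ind (lamb m r ≤ ∑ a, UofA e v d y a ^ 2) ≤
        Real.exp (-((2 ^ m / 16) * lamb m r)) *
          Real.exp ((2 ^ m / 16) * ∑ a, (∑ j, R a j * sg (d j)) ^ 2) := by
      intro d
      have h7 : ∑ a, UofA e v d y a ^ 2 = ∑ a, (∑ j, R a j * sg (d j)) ^ 2 := by
        apply Finset.sum_congr rfl
        intro a _
        rfl
      by_cases h : lamb m r ≤ ∑ a, UofA e v d y a ^ 2
      · rw [ind_pos h, ← Real.exp_add]
        apply Real.one_le_exp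
        rw [h7] at h
        have := mul_le_mul_of_nonneg_left h (by positivity : (0:ℝ) ≤ 2 ^ m / 16)
        linarith
      · rw [ind_neg h]; positivity
    refine le_trans (E_mono h6) ?_
    rw [E_mul_left]
    calc Real.exp (-((2 ^ m / 16) * lamb m r)) *
          E (fun d : A → Bool => Real.exp ((2 ^ m / 16) * ∑ a, (∑ j, R a j * sg (d j)) ^ 2))
        ≤ Real.exp (-((2 ^ m / 16) * lamb m r)) * Real.exp (2 * (2 ^ m / 16) * (r / 2 ^ m)) :=
          mul_le_mul_of_nonneg_left h5 (Real.exp_pos _).le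
      _ = Real.exp (-(2 * m)) := by
          rw [← Real.exp_add]
          congr 1
          unfold lamb
          field_simp
          ring
  refine le_trans (Finset.sum_le_sum h2) ?_
  rw [Finset.sum_const, Finset.card_univ, card_G, nsmul_eq_mul]
  push_cast
  have h3 : (2:ℝ) ^ m ≤ Real.exp m := by
    rw [← Real.exp_one_pow]
    apply pow_le_pow_left₀ (by norm_num)
    have := Real.exp_one_gt_d9
    linarith
  calc (2:ℝ) ^ m * Real.exp (-(2 * m)) ≤ Real.exp m * Real.exp (-(2 * m)) :=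
        mul_le_mul_of_nonneg_right h3 (Real.exp_pos _).le
    _ = Real.exp (-(m:ℝ)) := by rw [← Real.exp_add]; ring_nf
    _ ≤ Real.exp (-7) := by
        apply Real.exp_le_exp.mpr
        have : (7:ℝ) ≤ m := by exact_mod_cast hm
        linarith
    _ ≤ 1 / 1000 := by
        have h4 : Real.exp (-7) = (Real.exp 1 ^ 7)⁻¹ := by
          rw [Real.exp_neg, ← Real.exp_nat_mul]; norm_num
        rw [h4]
        have h5 := Real.exp_one_gt_d9
        have h6 : (1000:ℝ) ≤ Real.exp 1 ^ 7 := by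
          calc (1000:ℝ) ≤ (2.7) ^ 7 := by norm_num
            _ ≤ Real.exp 1 ^ 7 := pow_le_pow_left₀ (by norm_num) (by linarith) 7
        rw [inv_eq_one_div]
        exact one_div_le_one_div_of_le (by norm_num) h6

/-- Transfer: a bound in the group model gives a bound for the failure probability. -/
theorem gen_transfer {m r k : ℕ} (hm : 7 ≤ m) (hk : 0 < k) (ε : ℝ) (e : A ≃ G m)
    (Hreg : ∀ U : Matrix (G m) (Fin r) ℝ, Uᵀ * U = 1 → (∀ y, ∑ a, U y a ^ 2 ≤ lamb m r) →
      Pr (fun p : Sub (G m) k × (G m → Bool) => ¬ ∀ x : Fin r → ℝ,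
        |x ⬝ᵥ (Tm U k p.1.1 p.2).mulVec x| ≤ ε * ∑ a, x a ^ 2) ≤ 9 / 1000)
    (v : Fin r → A → ℝ) (hv : ∀ a b, ∑ i, v a i * v b i = if a = b then 1 else 0) :
    Pr (fun ω : (A → Bool) × ((A → Bool) × Sub A k) => ∃ g : Fin r → ℝ, ε * ∑ a, g a ^ 2 <
      |(∑ u ∈ ω.2.2.1, (∑ y, chi (e u) (e y) * (sg (ω.2.1 y) * (UofA e v ω.1).mulVec g (e y))) ^ 2) / k
        - ∑ a, g a ^ 2|) ≤ 1 / 100 := by
  have hbad : Pr (fun ω : (A → Bool) × ((A → Bool) × Sub A k) => ∃ g : Fin r → ℝ, ε * ∑ a, g a ^ 2 <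
      |(∑ u ∈ ω.2.2.1, (∑ y, chi (e u) (e y) * (sg (ω.2.1 y) * (UofA e v ω.1).mulVec g (e y))) ^ 2) / k
        - ∑ a, g a ^ 2|) ≤ 1 / 1000 + 9 / 1000 := by
    apply Pr_prod _ (fun d : A → Bool => ∀ y, ∑ a, UofA e v d y a ^ 2 ≤ lamb m r) _ _ (by norm_num)
      (row_boundA hm e v hv)
    intro d1 hd1
    have h1 := Hreg (UofA e v d1) (UofA_orth e v hv d1) hd1
    refine le_trans ?_ h1
    let φS : Sub A k ≃ Sub (G m) k :=
      { toFun := fun S => ⟨S.1.map e.toEmbedding, by rw [Finset.card_map]; exact S.2⟩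
        invFun := fun S => ⟨S.1.map e.symm.toEmbedding, by rw [Finset.card_map]; exact S.2⟩
        left_inv := by intro S; ext x; simp
        right_inv := by intro S; ext x; simp }
    let φ : ((A → Bool) × Sub A k) ≃ Sub (G m) k × (G m → Bool) :=
      (Equiv.prodComm _ _).trans (Equiv.prodCongr φS (Equiv.arrowCongr e (Equiv.refl Bool)))
    unfold Pr
    rw [← E_equiv φ]
    apply E_mono
    rintro ⟨d2, S⟩
    by_cases hb : ∃ g : Fin r → ℝ, ε * ∑ a, g a ^ 2 <
      |(∑ u ∈ S.1, (∑ y, chi (e u) (e y) * (sg (d2 y) * (UofA e v d1).mulVec g (e y))) ^ 2) / k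
        - ∑ a, g a ^ 2|
    · have h2 : ¬ ∀ x : Fin r → ℝ, |x ⬝ᵥ (Tm (UofA e v d1) k (φ (d2, S)).1.1 (φ (d2, S)).2).mulVec x| ≤
          ε * ∑ a, x a ^ 2 := by
        intro hcon
        obtain ⟨g, hg⟩ := hb
        have h4 := form_eqA (UofA e v d1) hk (S.1.map e.toEmbedding) (by rw [Finset.card_map]; exact S.2)
          (fun y => d2 (e.symm y)) g
        have h3 : ∑ u ∈ S.1.map e.toEmbedding, (∑ y, chi u y * (sg (d2 (e.symm y)) * (UofA e v d1).mulVec g y)) ^ 2
            = ∑ u ∈ S.1, (∑ y, chi (e u) (e y) * (sg (d2 y) * (UofA e v d1).mulVec g (e y))) ^ 2 := by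
          rw [Finset.sum_map]
          apply Finset.sum_congr rfl
          intro u _
          congr 1
          rw [← Equiv.sum_comp e]
          apply Finset.sum_congr rfl
          intro y _
          simp
        rw [h3, U_norm _ (UofA_orth e v hv d1)] at h4
        have h7 := hcon g
        have h8 : (φ (d2, S)).1.1 = S.1.map e.toEmbedding := rfl
        have h9 : (φ (d2, S)).2 = fun y => d2 (e.symm y) := rfl
        rw [h8, h9] at h7
        rw [h4, add_sub_cancel_left] at hg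
        linarith
      rw [ind_pos hb, ind_pos h2]
    · rw [ind_neg hb]; exact ind_nonneg _
  linarith

end gen

end Srht
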